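import Pool.Agent.SGF.St

/-!
# SGF: fixed punctures considered as moving ones (`Abs`)
-/

set_option autoImplicit false

namespace Pool.Agent.SGF

open Matrix Module Pool.Agent.HZ

section
variable {G : Type} [Group G]

theorem Abs_cj (x x' : G) (P : List G) :
    (P.map (fun y => x⁻¹ * y * x)).map (fun y => x' * y * x'⁻¹) =
      P.map (fun y => x' * x⁻¹ * y * (x' * x⁻¹)⁻¹) := by
  rw [List.map_map]
  refine List.map_congr_left fun y _ => ?_
  show x' * (x⁻¹ * y * x) * x'⁻¹ = x' * x⁻¹ * y * (x' * x⁻¹)⁻¹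
  group

theorem Abs_pt (q : G) (P : List G) :
    (P.map Tok.pt).map (Tok.cj q) = (P.map (fun y => q * y * q⁻¹)).map Tok.pt := by
  rw [List.map_map, List.map_map]
  rfl

/-- the braid moves for a push around a fixed puncture in `P` -/
theorem Abs_pt_moves (c x : G) (P₁ P₂ M : List G) :
    BReach (P₁ ++ c :: P₂ ++ x :: M)
      (P₁ ++ (c * x * c⁻¹ * c * (c * x * c⁻¹)⁻¹) ::
        P₂.map (fun y => c * x * c⁻¹ * x⁻¹ * y * (c * x * c⁻¹ * x⁻¹)⁻¹) ++
        c * x * c⁻¹ :: M) := by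
  have h1 : BReach (c :: (P₂ ++ [x])) (c :: x :: P₂.map (fun y => x⁻¹ * y * x)) :=
    (move_left x P₂).cons c
  have h2 : BReach (c :: x :: P₂.map (fun y => x⁻¹ * y * x))
      (c * x * c⁻¹ :: c :: P₂.map (fun y => x⁻¹ * y * x)) := by
    have := BReach.of_move (BMove.l [] (P₂.map (fun y => x⁻¹ * y * x)) c x)
    simpa only [List.nil_append] using this
  have h3 := move_right (c * x * c⁻¹) (c :: P₂.map (fun y => x⁻¹ * y * x))
  rw [List.map_cons, Abs_cj] at h3
  have h4 := ((h1.trans h2).trans h3).context P₁ M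
  have e1 : P₁ ++ c :: P₂ ++ x :: M = P₁ ++ c :: (P₂ ++ [x]) ++ M := by simp
  have e2 : P₁ ++ (c * x * c⁻¹ * c * (c * x * c⁻¹)⁻¹) ::
        P₂.map (fun y => c * x * c⁻¹ * x⁻¹ * y * (c * x * c⁻¹ * x⁻¹)⁻¹) ++
        c * x * c⁻¹ :: M = P₁ ++ ((c * x * c⁻¹ * c * (c * x * c⁻¹)⁻¹) ::
        P₂.map (fun y => c * x * c⁻¹ * x⁻¹ * y * (c * x * c⁻¹ * x⁻¹)⁻¹) ++
        [c * x * c⁻¹]) ++ M := by simp
  rw [e1, e2]
  exact h4

theorem Abs_pt_step (hBas : St_Bas) (A A₂ : List (Tok G)) (P : List G) (as : List (Tok G))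
    (t t' : Tok G) (s x : G) (M : List G) (h : Lt t s x t')
    (hP : P.map Tok.pt = as ++ t :: A₂) :
    ∃ (A' : List (Tok G)) (P' : List G),
      A ++ as ++ t' :: A₂.map (Tok.cj (s * x * s⁻¹ * x⁻¹)) = A' ++ P'.map Tok.pt ∧
      SReach (A, P ++ x :: M) (A', P' ++ s * x * s⁻¹ :: M) := by
  rw [List.map_eq_append_iff] at hP
  obtain ⟨P₁, P₃, rfl, rfl, hP3⟩ := hP
  rw [List.map_eq_cons_iff] at hP3
  obtain ⟨c, P₂, rfl, rfl, rfl⟩ := hP3
  cases h with
  | pt =>
    refine ⟨A, P₁ ++ (s * x * s⁻¹ * s * (s * x * s⁻¹)⁻¹) ::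
        P₂.map (fun y => s * x * s⁻¹ * x⁻¹ * y * (s * x * s⁻¹ * x⁻¹)⁻¹), ?_, ?_⟩
    · rw [Abs_pt]
      simp [List.append_assoc]
    · exact (hBas (G := G) (H := G)).1 A _ _ (Abs_pt_moves s x P₁ P₂ M)

theorem Abs_step (hBas : St_Bas) (A T' : List (Tok G)) (P M M' : List G)
    (h : SMove (A ++ P.map Tok.pt, M) (T', M')) :
    ∃ (A' : List (Tok G)) (P' : List G), T' = A' ++ P'.map Tok.pt ∧
      SReach (A, P ++ M) (A', P' ++ M') := by
  generalize hX : (A ++ P.map Tok.pt, M) = X at h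
  generalize hY : (T', M') = Y at h
  cases h with
  | br A₀ M₀ M₁ h =>
    obtain ⟨rfl, rfl⟩ := Prod.mk.inj hX
    obtain ⟨rfl, rfl⟩ := Prod.mk.inj hY
    exact ⟨A, P, rfl, (hBas (G := G) (H := G)).1 A _ _ ((BReach.of_move h).append_left P)⟩
  | ps A₀ A₁ s x M₀ h =>
    obtain ⟨h0, rfl⟩ := Prod.mk.inj hX
    obtain ⟨rfl, rfl⟩ := Prod.mk.inj hY
    cases h with
    | mk B₁ B₂ t t' s x h =>
      rcases List.append_eq_append_iff.1 h0 with ⟨as, hA, hP⟩ | ⟨bs, hA, hP⟩
      · -- `B₁ = A ++ as`, `P.map pt = as ++ t :: B₂`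
        obtain ⟨A', P', e, hr⟩ := Abs_pt_step hBas A B₂ P as t t' s x M₀ h hP
        exact ⟨A', P', by rw [hA]; exact e, hr⟩
      · -- `A = B₁ ++ bs`, `t :: B₂ = bs ++ P.map pt`
        rcases bs with _ | ⟨u, B₃⟩
        · rw [List.append_nil] at hA
          rw [List.nil_append] at hP
          obtain ⟨A', P', e, hr⟩ := Abs_pt_step hBas A B₂ P [] t t' s x M₀ h hP.symm
          rw [List.append_nil, hA] at e
          exact ⟨A', P', e, hr⟩
        · rw [List.cons_append] at hP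
          obtain ⟨rfl, rfl⟩ := List.cons.inj hP
          refine ⟨B₁ ++ t' :: B₃.map (Tok.cj (s * x * s⁻¹ * x⁻¹)),
            P.map (fun y => s * x * s⁻¹ * x⁻¹ * y * (s * x * s⁻¹ * x⁻¹)⁻¹), ?_, ?_⟩
          · rw [List.map_append, Abs_pt]
            simp [List.append_assoc]
          · have h1 : SReach (A, P ++ x :: M₀) (A, x :: (P.map (fun y => x⁻¹ * y * x) ++ M₀)) := by
              refine (hBas (G := G) (H := G)).1 A _ _ ?_
              have := (move_left x P).append_right M₀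
              simpa [List.append_assoc] using this
            have h2 : SReach (A, x :: (P.map (fun y => x⁻¹ * y * x) ++ M₀))
                (B₁ ++ t' :: B₃.map (Tok.cj (s * x * s⁻¹ * x⁻¹)),
                  s * x * s⁻¹ :: (P.map (fun y => x⁻¹ * y * x) ++ M₀)) := by
              refine Relation.ReflTransGen.single (SMove.ps _ _ _ _ _ ?_)
              rw [hA]
              exact Psh.mk B₁ B₃ _ t' s x h
            have h3 : SReach (B₁ ++ t' :: B₃.map (Tok.cj (s * x * s⁻¹ * x⁻¹)),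
                  s * x * s⁻¹ :: (P.map (fun y => x⁻¹ * y * x) ++ M₀))
                (B₁ ++ t' :: B₃.map (Tok.cj (s * x * s⁻¹ * x⁻¹)),
                  P.map (fun y => s * x * s⁻¹ * x⁻¹ * y * (s * x * s⁻¹ * x⁻¹)⁻¹) ++
                    s * x * s⁻¹ :: M₀) := by
              refine (hBas (G := G) (H := G)).1 _ _ _ ?_
              have := (move_right (s * x * s⁻¹) (P.map (fun y => x⁻¹ * y * x))).append_right M₀
              rw [Abs_cj] at this
              simpa [List.append_assoc] using this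
            exact (h1.trans h2).trans h3

theorem Abs_reach (hBas : St_Bas) (A : List (Tok G)) (P M : List G)
    (Y : List (Tok G) × List G) (h : SReach (A ++ P.map Tok.pt, M) Y) :
    ∃ (A' : List (Tok G)) (P' : List G), Y.1 = A' ++ P'.map Tok.pt ∧
      SReach (A, P ++ M) (A', P' ++ Y.2) := by
  induction h with
  | refl => exact ⟨A, P, rfl, Relation.ReflTransGen.refl⟩
  | @tail Y Z _ hs ih =>
    obtain ⟨A', P', e, hr⟩ := ih
    obtain ⟨T, M₁⟩ := Y
    obtain ⟨T', M₂⟩ := Z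
    have e' : T = A' ++ P'.map Tok.pt := e
    subst e'
    obtain ⟨A'', P'', e2, hr2⟩ := Abs_step hBas A' T' P' M₁ M₂ hs
    exact ⟨A'', P'', e2, hr.trans hr2⟩

end

/-- **Abs**: fixed punctures at the end of `A` may be considered as moving ones. -/
theorem thm_Abs (hBas : St_Bas) : St_Abs := by
  intro G _ A P M γ h
  obtain ⟨T, B, C, hr, hB⟩ := h
  obtain ⟨A', P', -, hr'⟩ := Abs_reach hBas A P M _ hr
  have hs : B.Sublist (P' ++ (B ++ C)) :=
    (List.sublist_append_left B C).trans (List.sublist_append_right P' (B ++ C))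
  obtain ⟨D, hD⟩ := Pre.sublist hs
  exact ⟨A', B, D, hr'.trans ((hBas (G := G) (H := G)).1 A' _ _ hD), hB⟩

end Pool.Agent.SGF
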