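import Pool.Agent.SGF.St

/-!
# Campaign SGF, module Aut: the elementary moves are automorphisms
-/

set_option autoImplicit false

namespace Pool.Agent.SGF

open Pool.Agent.HZ

section
variable {G H : Type} [Group G] [Group H]

private theorem Aut_cj_cj (a b : G) (A : List (Tok G)) :
    (A.map (Tok.cj b)).map (Tok.cj a) = A.map (Tok.cj (a * b)) := by
  rw [List.map_map]
  apply List.map_congr_left
  intro t _
  cases t <;> simp [Tok.cj, Tok.map, mul_assoc]

private theorem Aut_cj_one (A : List (Tok G)) : A.map (Tok.cj (1 : G)) = A := by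
  conv_rhs => rw [← List.map_id A]
  apply List.map_congr_left
  intro t _
  cases t <;> simp [Tok.cj, Tok.map]

private theorem Aut_cj_map (f : G →* H) (q : G) (A : List (Tok G)) :
    (A.map (Tok.cj q)).map (Tok.map f) = (A.map (Tok.map f)).map (Tok.cj (f q)) := by
  rw [List.map_map, List.map_map]
  apply List.map_congr_left
  intro t _
  cases t <;> simp [Tok.cj, Tok.map]

private theorem Aut_map_pt (f : G →* H) {t : Tok G} {c : H} (h : t.map f = Tok.pt c) :
    ∃ c0, t = Tok.pt c0 ∧ f c0 = c := by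
  cases t with
  | pt c0 =>
    refine ⟨c0, rfl, ?_⟩
    simpa [Tok.map] using h
  | hd a b => simp [Tok.map] at h

private theorem Aut_map_hd (f : G →* H) {t : Tok G} {a b : H} (h : t.map f = Tok.hd a b) :
    ∃ a0 b0, t = Tok.hd a0 b0 ∧ f a0 = a ∧ f b0 = b := by
  cases t with
  | pt c0 => simp [Tok.map] at h
  | hd a0 b0 =>
    refine ⟨a0, b0, rfl, ?_⟩
    simpa [Tok.map] using h

private theorem Aut_lt_lift (f : G →* H) (t0 : Tok G) (x0 : G) {t t' : Tok H} {s x : H}
    (h : Lt t s x t') (ht : t0.map f = t) (hx : f x0 = x) :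
    ∃ s0 t0', Lt t0 s0 x0 t0' ∧ f s0 = s ∧ t0'.map f = t' := by
  cases h with
  | pt c x =>
    obtain ⟨c0, rfl, rfl⟩ := Aut_map_pt f ht
    refine ⟨_, _, Lt.pt c0 x0, rfl, ?_⟩
    simp [Tok.map, hx]
  | ha a b x =>
    obtain ⟨a0, b0, rfl, rfl, rfl⟩ := Aut_map_hd f ht
    refine ⟨_, _, Lt.ha a0 b0 x0, by simp, ?_⟩
    simp [Tok.map, hx]
  | hb a b x =>
    obtain ⟨a0, b0, rfl, rfl, rfl⟩ := Aut_map_hd f ht
    refine ⟨_, _, Lt.hb a0 b0 x0, by simp, ?_⟩
    simp [Tok.map, hx]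

private theorem Aut_lt_colift (f : G →* H) (t0' : Tok G) (x0' : G) {t t' : Tok H} {s x : H}
    (h : Lt t s x t') (ht : t0'.map f = t') (hx : f x0' = s * x * s⁻¹) :
    ∃ t0 s0 x0, Lt t0 s0 x0 t0' ∧ f s0 = s ∧ f x0 = x ∧ s0 * x0 * s0⁻¹ = x0' ∧ t0.map f = t := by
  cases h with
  | pt c x =>
    obtain ⟨c0', rfl, hc⟩ := Aut_map_pt f ht
    obtain ⟨c0, hc0⟩ : ∃ c0, c0 = x0'⁻¹ * c0' * x0' := ⟨_, rfl⟩
    obtain ⟨x0, hx0⟩ : ∃ x0, x0 = c0⁻¹ * x0' * c0 := ⟨_, rfl⟩
    have h1 : c0 * x0 * c0⁻¹ = x0' := by rw [hx0]; group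
    have h2 : x0' * c0 * x0'⁻¹ = c0' := by rw [hc0]; group
    have e := Lt.pt c0 x0
    rw [h1, h2] at e
    have hs : f c0 = s := by
      rw [hc0]
      simp only [map_mul, map_inv, hc, hx]
      group
    refine ⟨_, _, _, e, hs, ?_, h1, ?_⟩
    · rw [hx0, map_mul, map_mul, map_inv, hs, hx]
      group
    · simp [Tok.map, hs]
  | ha a b x =>
    obtain ⟨a0, b0', rfl, ha, hb⟩ := Aut_map_hd f ht
    obtain ⟨b0, hb0⟩ : ∃ b0, b0 = x0'⁻¹ * b0' := ⟨_, rfl⟩
    obtain ⟨x0, hx0⟩ : ∃ x0, x0 = (b0 * a0⁻¹ * b0⁻¹)⁻¹ * x0' * (b0 * a0⁻¹ * b0⁻¹) := ⟨_, rfl⟩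
    have h1 : (b0 * a0⁻¹ * b0⁻¹) * x0 * (b0 * a0⁻¹ * b0⁻¹)⁻¹ = x0' := by rw [hx0]; group
    have h2 : x0' * b0 = b0' := by rw [hb0]; group
    have e := Lt.ha a0 b0 x0
    rw [h1, h2] at e
    have hfb : f b0 = b := by
      rw [hb0]
      simp only [map_mul, map_inv, hb, hx]
      group
    have hs : f (b0 * a0⁻¹ * b0⁻¹) = b * a⁻¹ * b⁻¹ := by simp [ha, hfb]
    refine ⟨_, _, _, e, hs, ?_, h1, ?_⟩
    · rw [hx0, map_mul, map_mul, map_inv, hs, hx]
      group
    · simp [Tok.map, ha, hfb]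
  | hb a b x =>
    obtain ⟨a0', b0', rfl, ha, hb⟩ := Aut_map_hd f ht
    obtain ⟨b0, hb0⟩ : ∃ b0, b0 = x0'⁻¹ * b0' * x0' := ⟨_, rfl⟩
    obtain ⟨a0, ha0⟩ : ∃ a0, a0 = a0' * x0' := ⟨_, rfl⟩
    obtain ⟨x0, hx0⟩ : ∃ x0, x0 = b0 * x0' * b0⁻¹ := ⟨_, rfl⟩
    have h1 : b0⁻¹ * x0 * b0 = x0' := by rw [hx0]; group
    have h2 : a0 * x0'⁻¹ = a0' := by rw [ha0]; group
    have h3 : x0' * x0⁻¹ * b0 = b0' := by rw [hx0, hb0]; group
    have e := Lt.hb a0 b0 x0
    rw [h1, h2, h3] at e
    have hfb : f b0 = b := by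
      rw [hb0]
      simp only [map_mul, map_inv, hb, hx]
      group
    have hfa : f a0 = a := by
      rw [ha0]
      simp only [map_mul, ha, hx]
      group
    refine ⟨_, _, _, e, by simp [hfb], ?_, ?_, ?_⟩
    · rw [hx0]
      simp only [map_mul, map_inv, hfb, hx]
      group
    · rw [inv_inv]
      exact h1
    · simp [Tok.map, hfa, hfb]

private theorem Aut_psh_lift (f : G →* H) (A0 : List (Tok G)) (x0 : G) {s x : H}
    {A A' : List (Tok H)} (h : Psh s x A A') (hA : A0.map (Tok.map f) = A) (hx : f x0 = x) :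
    ∃ s0 A0', f s0 = s ∧ Psh s0 x0 A0 A0' ∧ A0'.map (Tok.map f) = A' := by
  cases h with
  | mk A₁ A₂ t t' s x h =>
    rw [List.map_eq_append_iff] at hA
    obtain ⟨L1, L2, rfl, rfl, h2⟩ := hA
    rw [List.map_eq_cons_iff] at h2
    obtain ⟨t0, L3, rfl, ht, rfl⟩ := h2
    obtain ⟨s0, t0', h3, h4, h5⟩ := Aut_lt_lift f t0 x0 h ht hx
    refine ⟨s0, _, h4, Psh.mk L1 L3 t0 t0' s0 x0 h3, ?_⟩
    rw [List.map_append, List.map_cons, Aut_cj_map, h5]
    simp only [map_mul, map_inv, h4, hx]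

private theorem Aut_psh_colift (f : G →* H) (A0' : List (Tok G)) (x0' : G) {s x : H}
    {A A' : List (Tok H)} (h : Psh s x A A') (hA : A0'.map (Tok.map f) = A')
    (hx : f x0' = s * x * s⁻¹) :
    ∃ s0 x0 A0, s0 * x0 * s0⁻¹ = x0' ∧ f x0 = x ∧ Psh s0 x0 A0 A0' ∧
      A0.map (Tok.map f) = A := by
  cases h with
  | mk A₁ A₂ t t' s x h =>
    rw [List.map_eq_append_iff] at hA
    obtain ⟨L1, L2, rfl, rfl, h2⟩ := hA
    rw [List.map_eq_cons_iff] at h2
    obtain ⟨t0', L3, rfl, ht, h3⟩ := h2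
    obtain ⟨t0, s0, x0, h4, h5, h6, h7, h8⟩ := Aut_lt_colift f t0' x0' h ht hx
    have e := Psh.mk L1 (L3.map (Tok.cj (x0 * x0'⁻¹))) t0 t0' s0 x0 h4
    rw [Aut_cj_cj, h7] at e
    have e1 : x0' * x0⁻¹ * (x0 * x0'⁻¹) = 1 := by group
    rw [e1, Aut_cj_one] at e
    refine ⟨s0, x0, _, h7, h6, e, ?_⟩
    rw [List.map_append, List.map_cons, Aut_cj_map, h8, h3, Aut_cj_cj]
    have e2 : f (x0 * x0'⁻¹) * (s * x * s⁻¹ * x⁻¹) = 1 := by
      rw [map_mul, map_inv, h6, hx]
      group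
    rw [e2, Aut_cj_one]

/-- a move or an inverse move can be lifted -/
private theorem Aut_lift (f : G →* H) (X : List (Tok G) × List G) (Y : List (Tok H) × List H)
    (h : SMove (mapS f X) Y ∨ SMove Y (mapS f X)) :
    ∃ X', (SMove X X' ∨ SMove X' X) ∧ mapS f X' = Y := by
  obtain ⟨A0, M0⟩ := X
  rcases h with h | h
  · generalize hK : mapS f (A0, M0) = K at h
    cases h with
    | br A M M' h =>
      simp only [mapS, Prod.mk.injEq] at hK
      obtain ⟨rfl, rfl⟩ := hK
      obtain ⟨L', h1, h2⟩ := h.lift f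
      exact ⟨(A0, L'), Or.inl (SMove.br A0 M0 L' h1), by simp [mapS, h2]⟩
    | ps A A' s x M h =>
      simp only [mapS, Prod.mk.injEq] at hK
      obtain ⟨hA, hM⟩ := hK
      rw [List.map_eq_cons_iff] at hM
      obtain ⟨x0, M1, rfl, hx, rfl⟩ := hM
      obtain ⟨s0, A0', h1, h2, h3⟩ := Aut_psh_lift f A0 x0 h hA hx
      refine ⟨_, Or.inl (SMove.ps A0 A0' s0 x0 M1 h2), ?_⟩
      simp [mapS, h1, h3, hx]
  · generalize hK : mapS f (A0, M0) = K at h
    cases h with
    | br A M M' h =>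
      simp only [mapS, Prod.mk.injEq] at hK
      obtain ⟨rfl, rfl⟩ := hK
      obtain ⟨L', h1, h2⟩ := h.symm.lift f
      exact ⟨(A0, L'), Or.inl (SMove.br A0 M0 L' h1), by simp [mapS, h2]⟩
    | ps A A' s x M h =>
      simp only [mapS, Prod.mk.injEq] at hK
      obtain ⟨hA, hM⟩ := hK
      rw [List.map_eq_cons_iff] at hM
      obtain ⟨x0', M1, rfl, hx, rfl⟩ := hM
      obtain ⟨s0, x0, A1, h1, h2, h3, h4⟩ := Aut_psh_colift f A0 x0' h hA hx
      have e := SMove.ps A1 A0 s0 x0 M1 h3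
      rw [h1] at e
      refine ⟨_, Or.inr e, ?_⟩
      simp [mapS, h2, h4]

/-- the kind -/
private def Aut_kind : Tok G → Bool
  | Tok.pt _ => false
  | Tok.hd _ _ => true

private theorem Aut_kind_cj (q : G) (A : List (Tok G)) :
    (A.map (Tok.cj q)).map Aut_kind = A.map Aut_kind := by
  rw [List.map_map]
  apply List.map_congr_left
  intro t _
  cases t <;> simp [Tok.cj, Tok.map, Aut_kind]

private theorem Aut_kind_move (X Y : List (Tok G) × List G) (h : SMove X Y) :
    Y.1.map Aut_kind = X.1.map Aut_kind ∧ Y.2.length = X.2.length := by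
  cases h with
  | br A M M' h => exact ⟨rfl, h.length_eq⟩
  | ps A A' s x M h =>
    refine ⟨?_, by simp⟩
    cases h with
    | mk A₁ A₂ t t' s x h =>
      have e : Aut_kind t' = Aut_kind t := by cases h <;> rfl
      simp only [List.map_append, List.map_cons, Aut_kind_cj, e]

private theorem Aut_hd_list (A : List (Tok G)) (h : ∀ t ∈ A, Aut_kind t = true) :
    ∃ a b : Fin A.length → G, A = (List.finRange A.length).map fun j => Tok.hd (a j) (b j) := by
  have h1 : ∀ j : Fin A.length, ∃ a b : G, A.get j = Tok.hd a b := by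
    intro j
    have h2 := h (A.get j) (List.get_mem A j)
    generalize A.get j = t at h2
    cases t with
    | pt c => simp [Aut_kind] at h2
    | hd a b => exact ⟨a, b, rfl⟩
  choose a b hab using h1
  refine ⟨a, b, ?_⟩
  conv_lhs => rw [← List.map_get_finRange A]
  exact List.map_congr_left fun j _ => hab j

private theorem Aut_pt_list (A : List (Tok G)) (h : ∀ t ∈ A, Aut_kind t = false) :
    ∃ c : Fin A.length → G, A = (List.finRange A.length).map fun j => Tok.pt (c j) := by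
  have h1 : ∀ j : Fin A.length, ∃ c : G, A.get j = Tok.pt c := by
    intro j
    have h2 := h (A.get j) (List.get_mem A j)
    generalize A.get j = t at h2
    cases t with
    | hd a b => simp [Aut_kind] at h2
    | pt c => exact ⟨c, rfl⟩
  choose c hc using h1
  refine ⟨c, ?_⟩
  conv_lhs => rw [← List.map_get_finRange A]
  exact List.map_congr_left fun j _ => hc j

/-- a state of the right shape is an image of the standard one -/
private theorem Aut_hom (g m n : ℕ) (Y : List (Tok G) × List G)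
    (h1 : Y.1.map Aut_kind = (std g m n).1.map Aut_kind) (h2 : Y.2.length = (std g m n).2.length) :
    ∃ ψ : F g m n →* G, mapS ψ (std g m n) = Y := by
  obtain ⟨A, M⟩ := Y
  have h3 : A.map Aut_kind = List.replicate g true ++ List.replicate m false := by
    rw [h1]
    simp only [std, stA, List.map_append, List.map_map]
    congr 1
    · rw [List.eq_replicate_iff]
      simp [Aut_kind]
    · rw [List.eq_replicate_iff]
      simp [Aut_kind]
  have h4 : M.length = n := by
    simpa [std, stM] using h2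
  clear h1 h2
  rw [List.map_eq_append_iff] at h3
  obtain ⟨A1, A2, rfl, h5, h6⟩ := h3
  rw [List.eq_replicate_iff] at h5 h6
  obtain ⟨h5, h5'⟩ := h5
  obtain ⟨h6, h6'⟩ := h6
  rw [List.length_map] at h5 h6
  subst h4 h5 h6
  obtain ⟨a, b, hab⟩ := Aut_hd_list A1 fun t ht => h5' _ (List.mem_map_of_mem ht)
  obtain ⟨c, hc⟩ := Aut_pt_list A2 fun t ht => h6' _ (List.mem_map_of_mem ht)
  refine ⟨FreeGroup.lift fun
    | Gen.a j => a j
    | Gen.b j => b j
    | Gen.c i => c i
    | Gen.x i => M.get i, ?_⟩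
  simp only [mapS, std, stA, stM, Prod.mk.injEq, List.map_append, List.map_map]
  refine ⟨?_, ?_⟩
  · conv_rhs => rw [hab, hc]
    congr 1
    · apply List.map_congr_left
      intro j _
      simp [Tok.map, ga, gb]
    · apply List.map_congr_left
      intro j _
      simp [Tok.map, gc]
  · conv_rhs => rw [← List.map_get_finRange M]
    apply List.map_congr_left
    intro j _
    simp [gx]

private theorem Aut_ext {g m n : ℕ} (ψ ψ' : F g m n →* G)
    (h : mapS ψ (std g m n) = mapS ψ' (std g m n)) : ψ = ψ' := by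
  simp only [mapS, std, stA, stM, Prod.mk.injEq, List.map_append, List.map_map] at h
  obtain ⟨h1, h2⟩ := h
  have h3 := List.append_inj h1 (by simp)
  obtain ⟨h3, h4⟩ := h3
  rw [List.map_inj_left] at h2 h3 h4
  apply FreeGroup.ext_hom
  intro y
  cases y with
  | a j =>
    have h5 := h3 j (List.mem_finRange j)
    simp only [Function.comp_apply, Tok.map, Tok.hd.injEq] at h5
    exact h5.1
  | b j =>
    have h5 := h3 j (List.mem_finRange j)
    simp only [Function.comp_apply, Tok.map, Tok.hd.injEq] at h5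
    exact h5.2
  | c j =>
    have h5 := h4 j (List.mem_finRange j)
    simp only [Function.comp_apply, Tok.map, Tok.pt.injEq] at h5
    exact h5
  | x j => exact h2 j (List.mem_finRange j)

private theorem Aut_mapS_comp {K : Type} [Group K] (f : G →* H) (f' : K →* G)
    (X : List (Tok K) × List K) : mapS f (mapS f' X) = mapS (f.comp f') X := by
  simp only [mapS, List.map_map, Prod.mk.injEq]
  refine ⟨?_, ?_⟩
  · apply List.map_congr_left
    intro t _
    cases t <;> simp [Tok.map]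
  · apply List.map_congr_left
    intro t _
    simp

private theorem Aut_mapS_id (X : List (Tok G) × List G) : mapS (MonoidHom.id G) X = X := by
  obtain ⟨A, M⟩ := X
  simp only [mapS, Prod.mk.injEq]
  refine ⟨?_, ?_⟩
  · conv_rhs => rw [← List.map_id A]
    apply List.map_congr_left
    intro t _
    cases t <;> simp [Tok.map]
  · conv_rhs => rw [← List.map_id M]
    apply List.map_congr_left
    intro t _
    simp

/-- states next to the standard one are images of it; there is a right inverse, given by a state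
next to the standard one -/
private theorem Aut_step {g m n : ℕ} (Y : List (Tok (F g m n)) × List (F g m n))
    (h : SMove (std g m n) Y ∨ SMove Y (std g m n)) :
    ∃ ψ : F g m n →* F g m n, mapS ψ (std g m n) = Y ∧
      ∃ X' : List (Tok (F g m n)) × List (F g m n),
        (SMove (std g m n) X' ∨ SMove X' (std g m n)) ∧ mapS ψ X' = std g m n := by
  have h1 : Y.1.map Aut_kind = (std g m n).1.map Aut_kind ∧ Y.2.length = (std g m n).2.length := by
    rcases h with h | h
    · exact Aut_kind_move _ _ h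
    · exact ⟨(Aut_kind_move _ _ h).1.symm, (Aut_kind_move _ _ h).2.symm⟩
  obtain ⟨ψ, hψ⟩ := Aut_hom g m n Y h1.1 h1.2
  refine ⟨ψ, hψ, ?_⟩
  apply Aut_lift ψ (std g m n) (std g m n)
  rw [hψ]
  exact h.symm

end

theorem thm_Aut : St_Aut := by
  intro g m n Y h
  obtain ⟨ψ, h1, X₁, h2, h3⟩ := Aut_step Y (Or.inl h)
  obtain ⟨ψ₁, h4, X₂, h5, h6⟩ := Aut_step X₁ h2
  obtain ⟨ψ₂, h7, -⟩ := Aut_step X₂ h5
  have e1 : ψ.comp ψ₁ = MonoidHom.id _ := by
    apply Aut_ext
    rw [← Aut_mapS_comp, h4, h3, Aut_mapS_id]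
  have e2 : ψ₁.comp ψ₂ = MonoidHom.id _ := by
    apply Aut_ext
    rw [← Aut_mapS_comp, h7, h6, Aut_mapS_id]
  have e3 : ψ₂ = ψ := by
    calc ψ₂ = (ψ.comp ψ₁).comp ψ₂ := by rw [e1, MonoidHom.id_comp]
      _ = ψ.comp (ψ₁.comp ψ₂) := MonoidHom.comp_assoc _ _ _
      _ = ψ := by rw [e2, MonoidHom.comp_id]
  rw [e3] at e2
  exact ⟨MonoidHom.toMulEquiv ψ ψ₁ e2 e1, h1⟩

end Pool.Agent.SGF
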