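import Pool.Agent.SGF.St

/-!
# Campaign SGF: blocks of moving punctures
-/

set_option autoImplicit false

namespace Pool.Agent.SGF

open Pool.Agent.HZ

section
variable {G : Type} [Group G]

private theorem Blk_one (hBas : St_Bas) (hMul : St_Mul) (n : ℕ) :
    ∀ (B : List G), B.length = n → ∀ (s : G) (A A' : List (Tok G)) (Z : List G),
      Psh s B.prod A A' → SReach (A, B ++ Z) (A', B.map (fun y => s * y * s⁻¹) ++ Z) := by
  induction n with
  | zero =>
    intro B hB s A A' Z h
    obtain rfl := List.length_eq_zero_iff.1 hB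
    rw [List.prod_nil] at h
    rw [hMul.1 s A A' h]
    exact Relation.ReflTransGen.refl
  | succ n ih =>
    intro B hB s A A' Z h
    cases B with
    | nil => simp at hB
    | cons x B =>
      have hB' : B.length = n := by simpa using hB
      rw [List.prod_cons] at h
      obtain ⟨A₁, h1, h2⟩ := hMul.2 s x B.prod A A' h
      have s1 : SReach (A, x :: (B ++ Z)) (A₁, s * x * s⁻¹ :: (B ++ Z)) :=
        Relation.ReflTransGen.single (SMove.ps A A₁ s x (B ++ Z) h1)
      set x' : G := s * x * s⁻¹ with hx'
      have s2 : SReach (A₁, x' :: (B ++ Z)) (A₁, B.map (fun y => x' * y * x'⁻¹) ++ (x' :: Z)) := by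
        have h3 := (move_right x' B).append_right Z
        rw [List.cons_append, List.append_assoc, List.singleton_append] at h3
        exact (@hBas G G _ _).1 A₁ _ _ h3
      have s3 := ih (B.map fun y => x' * y * x'⁻¹) (by rw [List.length_map, hB'])
        (x' * s * x'⁻¹) A₁ A' (x' :: Z) (by rw [conj_prod']; exact h2)
      have s4 : SReach (A', (B.map fun y => x' * y * x'⁻¹).map
            (fun y => x' * s * x'⁻¹ * y * (x' * s * x'⁻¹)⁻¹) ++ (x' :: Z))
          (A', x' :: (B.map (fun y => s * y * s⁻¹) ++ Z)) := by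
        have h3 := (move_left x' ((B.map fun y => x' * y * x'⁻¹).map
            (fun y => x' * s * x'⁻¹ * y * (x' * s * x'⁻¹)⁻¹))).append_right Z
        rw [List.cons_append, List.append_assoc, List.singleton_append] at h3
        have h4 : ((B.map fun y => x' * y * x'⁻¹).map
            (fun y => x' * s * x'⁻¹ * y * (x' * s * x'⁻¹)⁻¹)).map (fun y => x'⁻¹ * y * x') =
            B.map fun y => s * y * s⁻¹ := by
          rw [List.map_map, List.map_map]
          refine List.map_congr_left fun y _ => ?_
          simp only [Function.comp_apply]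
          group
        rw [h4] at h3
        exact (@hBas G G _ _).1 A' _ _ h3
      rw [List.map_cons]
      exact s1.trans (s2.trans (s3.trans s4))

private theorem Blk_two (hBas : St_Bas) (hMul : St_Mul) (A : List (Tok G)) (Bs : List (List G))
    (Y : List (Tok G) × List G) (h : SReach (A, Bs.map List.prod) Y) :
    ∃ Bs' : List (List G), Bs'.map List.prod = Y.2 ∧
      SReach (A, Bs.flatten) (Y.1, Bs'.flatten) := by
  induction h with
  | refl => exact ⟨Bs, rfl, Relation.ReflTransGen.refl⟩
  | tail _ hs ih =>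
    obtain ⟨Bs', h1, h2⟩ := ih
    cases hs with
    | br A₀ M M' h =>
      change Bs'.map List.prod = M at h1
      rw [← h1] at h
      obtain ⟨Cs, h3, h4⟩ := blocks_move h
      exact ⟨Cs, h3, h2.trans ((@hBas G G _ _).1 A₀ _ _ h4)⟩
    | ps A₀ A₁ s x M h =>
      change Bs'.map List.prod = x :: M at h1
      rw [List.map_eq_cons_iff] at h1
      obtain ⟨b, Bs'', rfl, rfl, rfl⟩ := h1
      refine ⟨(b.map fun y => s * y * s⁻¹) :: Bs'', ?_, ?_⟩
      · rw [List.map_cons, conj_prod']
      · have h3 := Blk_one hBas hMul b.length b rfl s A₀ A₁ Bs''.flatten h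
        rw [List.flatten_cons] at h2 ⊢
        exact h2.trans h3

end

theorem thm_Blk (hBas : St_Bas) (hMul : St_Mul) : St_Blk := by
  intro G _
  refine ⟨fun s A A' B Z h => Blk_one hBas hMul B.length B rfl s A A' Z h, ?_, ?_, ?_⟩
  · intro A A' Bs M' h
    exact Blk_two hBas hMul A Bs (A', M') h
  · rintro A Bs γ ⟨A', B, C, h, rfl⟩
    obtain ⟨Bs', h1, h2⟩ := Blk_two hBas hMul A Bs (A', B ++ C) h
    change Bs'.map List.prod = B ++ C at h1
    rw [List.map_eq_append_iff] at h1
    obtain ⟨C1, C2, rfl, rfl, rfl⟩ := h1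
    rw [List.flatten_append] at h2
    exact ⟨A', C1.flatten, C2.flatten, h2, List.prod_flatten⟩
  · rintro A S M γ hSM ⟨A', B, C, h, rfl⟩
    obtain ⟨D, hD⟩ := Pre.sublist hSM
    have h1 := (@hBas G G _ _).1 A _ _ hD
    have h2 := (@hBas G G _ _).2.1 A A' S (B ++ C) D h
    rw [List.append_assoc] at h2
    exact ⟨A', B, C ++ D, h1.trans h2, rfl⟩

end Pool.Agent.SGF
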