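import Pool.Agent.SGF.St
import Pool.Agent.HZ.ClfM

/-!
# Clifford theory for local systems on surfaces with fixed and moving punctures

Adapted copy of `GF/Clf` (helper96).
-/

set_option autoImplicit false

namespace Pool.Agent.SGF

open Matrix Module Pool.Agent.HZ
open scoped Kronecker

variable {r : ℕ}

/-- among more than `N` moving punctures with a property one is not in the exceptional set -/
theorem Clf_pick {n N : ℕ} (S : Finset (Fin n)) (hS : S.card ≤ N) (p : Fin n → Prop)
    (hp : N < Nat.card {i | p i}) : ∃ i, p i ∧ i ∉ S := by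
  by_contra hcon
  push Not at hcon
  have h1 : {i | p i} ⊆ (S : Set (Fin n)) := fun i hi => hcon i hi
  have h2 : Nat.card {i | p i} ≤ Nat.card (S : Set (Fin n)) :=
    Nat.card_mono (Finset.finite_toSet S) h1
  have h3 : Nat.card (S : Set (Fin n)) = S.card := by
    rw [Nat.card_eq_fintype_card]
    exact Fintype.card_coe S
  omega

/-- the numbers of the elements of `S` -/
def Clf_s {n : ℕ} (S : Finset (Fin n)) (i : Fin n) : Option (Fin S.card) :=
  if h : i ∈ S then some ((S.orderIsoOfFin rfl).symm ⟨i, h⟩) else none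

theorem Clf_pat {g m n : ℕ} (S : Finset (Fin n)) (i : Fin n) (hi : i ∉ S) :
    pat (g := g) (m := m) (Clf_s S) (gx i) = 1 := by
  unfold pat gx
  rw [FreeGroup.lift_apply_of]
  show (Clf_s S i).elim 1 gx = 1
  unfold Clf_s
  rw [dif_neg hi]
  rfl

theorem Clf_inc {g m n : ℕ} (S : Finset (Fin n)) (i : Fin n) (hi : i ∈ S) :
    inc (g := g) (m := m) S (pat (Clf_s S) (gx i)) = gx i := by
  have h1 : pat (g := g) (m := m) (Clf_s S) (gx i) =
      gx ((S.orderIsoOfFin rfl).symm ⟨i, hi⟩) := by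
    unfold pat gx
    rw [FreeGroup.lift_apply_of]
    show (Clf_s S i).elim 1 gx = _
    unfold Clf_s
    rw [dif_pos hi]
    rfl
  rw [h1]
  unfold inc incl gx
  rw [FreeGroup.lift_apply_of]
  show gx ((S.orderEmbOfFin rfl) ((S.orderIsoOfFin rfl).symm ⟨i, hi⟩)) = gx i
  congr 1
  have h2 := (S.orderIsoOfFin rfl).apply_symm_apply ⟨i, hi⟩
  have h3 := congrArg Subtype.val h2
  rw [Finset.coe_orderIsoOfFin_apply] at h3
  exact h3

theorem Clf_ker {g m n : ℕ} (S : Finset (Fin n)) :
    (pat (g := g) (m := m) (Clf_s S)).ker = KK S := by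
  apply le_antisymm
  · obtain ⟨K, hK⟩ : ∃ K : Subgroup (F g m n), K = KK S := ⟨_, rfl⟩
    have hKn : K.Normal := by
      rw [hK]
      unfold KK
      infer_instance
    rw [← hK]
    have h1 : (QuotientGroup.mk' K).comp ((inc S).comp (pat (Clf_s S))) =
        QuotientGroup.mk' K := by
      refine FreeGroup.ext_hom _ _ fun i => ?_
      show QuotientGroup.mk' K (inc S (pat (Clf_s S) (FreeGroup.of i))) =
        QuotientGroup.mk' K (FreeGroup.of i)
      cases i with
      | a j => rfl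
      | b j => rfl
      | c j => rfl
      | x i =>
        show QuotientGroup.mk' K (inc S (pat (Clf_s S) (gx i))) = QuotientGroup.mk' K (gx i)
        by_cases hi : i ∈ S
        · rw [Clf_inc S i hi]
        · rw [Clf_pat S i hi, map_one, map_one]
          symm
          rw [QuotientGroup.mk'_apply, QuotientGroup.eq_one_iff, hK]
          exact Subgroup.subset_normalClosure ⟨i, hi, rfl⟩
    intro x hx
    have h2 := DFunLike.congr_fun h1 x
    rw [MonoidHom.comp_apply, MonoidHom.comp_apply, MonoidHom.mem_ker.1 hx, map_one, map_one] at h2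
    have h3 := h2.symm
    rw [QuotientGroup.mk'_apply, QuotientGroup.eq_one_iff] at h3
    exact h3
  · refine Subgroup.normalClosure_le_normal ?_
    rintro x ⟨i, hi, rfl⟩
    exact Clf_pat S i hi

/-- **Clifford theory** for an irreducible representation such that the normal subgroup generated by
the loops around the moving punctures outside `S` has a finite image. -/
theorem Clf_of_finite {g m n : ℕ} (hr : 0 < r) (ρ : F g m n →* GL (Fin r) ℂ)
    (hirr : Irr ρ.range) (S : Finset (Fin n)) (hfin : Finite ((KK S).map ρ)) :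
    ∃ (H : Subgroup (F g m n)) (d e : ℕ) (α : H →* GL (Fin d) ℂ)
      (β : H →* GL (Fin e) ℂ) (ι : (Fin e × Fin d → ℂ) →ₗ[ℂ] (Fin r → ℂ)),
      KK S ≤ H ∧ H.index * (e * d) = r ∧
      Finite α.range ∧ Function.Injective ι ∧
      (∀ (h : H) v, (ρ h : Matrix (Fin r) (Fin r) ℂ) *ᵥ ι v =
        ι (((β h : Matrix (Fin e) (Fin e) ℂ) ⊗ₖ (α h : Matrix (Fin d) (Fin d) ℂ)) *ᵥ v)) ∧
      (∀ h : H, (h : F g m n) ∈ KK S → β h = 1) ∧
      (∀ W : Submodule ℂ (Fin r → ℂ),
        (∀ g v, (ρ g : Matrix (Fin r) (Fin r) ℂ) *ᵥ ι v ∈ W) → W = ⊤) := by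
  have hne : Nonempty (Fin r) := ⟨⟨0, hr⟩⟩
  rw [← Clf_ker S] at hfin ⊢
  have hirr' : IrrV ((actH r).comp ρ) := by
    intro W hW
    refine hirr W ?_
    rintro _ ⟨g, rfl⟩ v hv
    exact hW g v hv
  have hfin' : Finite ((pat (g := g) (m := m) (Clf_s S)).ker.map ((actH r).comp ρ)) := by
    rw [← Subgroup.map_map]
    have h1 : (((((pat (g := g) (m := m) (Clf_s S))).ker.map ρ).map (actH r) : Subgroup _) :
        Set ((Fin r → ℂ) ≃ₗ[ℂ] (Fin r → ℂ))) =
        (fun g => actH r g) ''
          ((pat (g := g) (m := m) (Clf_s S)).ker.map ρ : Set (GL (Fin r) ℂ)) := rfl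
    have h2 : ((pat (g := g) (m := m) (Clf_s S)).ker.map ρ : Set (GL (Fin r) ℂ)).Finite :=
      Set.toFinite _
    have h3 := h2.image (fun g => actH r g)
    rw [← h1] at h3
    exact h3.to_subtype
  obtain ⟨H, d, e, α, β, ι, h1, _, h3, h4, h5, h6, h7, h8⟩ :=
    clifford2 ((actH r).comp ρ) hirr' (pat (g := g) (m := m) (Clf_s S)) hfin'
  refine ⟨H, d, e, α, β, ι, h1, ?_, h4, h5, h6, ?_, h8⟩
  · rw [h3, Module.finrank_fin_fun]
  · intro h hh
    exact h7 h hh

theorem Clf_conj_pow {G : Type} [Group G] (ρ : G →* GL (Fin r) ℂ) (g γ : G)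
    (k : ℕ) (h : Quasi (ρ γ)) (z : ℂ)
    (hz : (ρ (g * γ ^ k * g⁻¹) : Matrix (Fin r) (Fin r) ℂ).charpoly.IsRoot z) :
    ∃ k > 0, z ^ k = 1 := by
  rw [map_mul, map_mul, map_inv, map_pow, Units.val_mul, Units.val_mul,
    Matrix.coe_units_inv, Matrix.charpoly_units_conj, Units.val_pow_eq_pow_val] at hz
  exact root_pow _ h k z hz

/-- the image of the normal subgroup generated by the loops around almost all moving punctures is
finite -/
theorem Clf_fin (hMain : St_Main) (hTrp : St_Trp) (r : ℕ) : ∃ N : ℕ, ∀ (g m n : ℕ)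
    (ρ : F g m n →* GL (Fin r) ℂ), HypQ ρ → Irr ρ.range →
    ∃ S : Finset (Fin n), S.card ≤ N ∧ Finite ((KK S).map ρ) := by
  obtain ⟨N, hN⟩ := hMain r
  refine ⟨N, ?_⟩
  intro g m n ρ hρ hirr
  obtain ⟨S, H, hS, hH, hnorm, hgen, hroot⟩ := hN g m n ρ hρ
  have hfg : (ρ.range).FG := (hTrp r g m n).2.2 ρ
  have hfin : Finite H := finite_of_roots ρ.range H hfg hH hnorm hroot (cred_of_irr hirr)
  have hle : KK S ≤ H.comap ρ := by
    have hn : (H.comap ρ).Normal := by
      refine ⟨fun x hx y => ?_⟩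
      rw [Subgroup.mem_comap] at hx ⊢
      rw [map_mul, map_mul, map_inv]
      exact hnorm _ ⟨y, rfl⟩ _ hx
    refine Subgroup.normalClosure_le_normal ?_
    rintro x ⟨i, hi, rfl⟩
    exact hgen i hi
  refine ⟨S, hS, ?_⟩
  have h2 : (KK S).map ρ ≤ H := Subgroup.map_le_iff_le_comap.2 hle
  exact Finite.of_injective _ (Subgroup.inclusion_injective h2)

/-- **Clf.** -/
theorem thm_Clf (hMain : St_Main) (hTrp : St_Trp) : St_Clf := by
  intro r hr
  obtain ⟨N, hN⟩ := Clf_fin hMain hTrp r
  refine ⟨N, ?_⟩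
  intro g m n ρ hρ hirr
  obtain ⟨S, hS, hfin⟩ := hN g m n ρ hρ hirr
  obtain ⟨H, d, e, α, β, ι, h1, h2, h3, h4, h5, h6, h7⟩ :=
    Clf_of_finite hr ρ hirr S hfin
  have hd : 0 < d := by
    rcases Nat.eq_zero_or_pos d with h | h
    · rw [h, Nat.mul_zero, Nat.mul_zero] at h2
      omega
    · exact h
  have hidx : H.index ≠ 0 := by
    intro h
    rw [h, Nat.zero_mul] at h2
    omega
  have hmem : ∀ i ∉ S, (gx i : F g m n) ∈ KK S := fun i hi =>
    Subgroup.subset_normalClosure ⟨i, hi, rfl⟩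
  have hKn : (KK (g := g) (m := m) S).Normal := by
    unfold KK
    infer_instance
  have hmul : ∀ i ∉ S, ∀ z : ℂ, e ∣ finrank ℂ (Module.End.eigenspace
      (Matrix.mulVecLin (ρ (gx i) : Matrix (Fin r) (Fin r) ℂ)) z) := by
    intro i hi z
    exact mult_dvd ρ H α β ι hr h2 _ h1 h5 h7 h6 _ (hmem i hi) z
  have hlast : N < Nat.card {i : Fin n | ∀ z : ℂ,
      (ρ (gx i) : Matrix (Fin r) (Fin r) ℂ) ≠ z • 1} → 2 * e ≤ r := by
    intro hc
    -- otherwise all elements of the normal subgroup are scalar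
    by_contra hcon
    obtain ⟨i, hi, hiS⟩ := Clf_pick S hS _ hc
    have he : 0 < e := by
      rcases Nat.eq_zero_or_pos e with h | h
      · rw [h, Nat.zero_mul, Nat.mul_zero] at h2
        omega
      · exact h
    have h9 : H.index * d = 1 := by
      have h10 : (H.index * d) * e = r := by rw [← h2]; ring
      have h11 : 0 < H.index * d := Nat.mul_pos (Nat.pos_of_ne_zero hidx) hd
      by_contra h12
      have h13 : 2 ≤ H.index * d := by omega
      have h14 : 2 * e ≤ (H.index * d) * e := Nat.mul_le_mul_right e h13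
      omega
    -- the component is everything and the element acts by a scalar
    have h10 : H.index = 1 := Nat.dvd_one.1 (Dvd.intro _ h9)
    have h11 : d = 1 := by rw [h10, Nat.one_mul] at h9; exact h9
    subst h11
    have h12 : e = r := by rw [h10, Nat.mul_one, Nat.one_mul] at h2; exact h2
    have hsurj : Function.Surjective ι := by
      refine (LinearMap.injective_iff_surjective_of_finrank_eq_finrank ?_).1 h4
      rw [Module.finrank_fin_fun, Module.finrank_fintype_fun_eq_card, Fintype.card_prod,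
        Fintype.card_fin, Fintype.card_fin, h12, Nat.mul_one]
    obtain ⟨h, hh⟩ : ∃ h : H, (h : F g m n) = gx i := ⟨⟨_, h1 (hmem i hiS)⟩, rfl⟩
    refine hi ((α h : Matrix (Fin 1) (Fin 1) ℂ) 0 0) ?_
    have h13 : (α h : Matrix (Fin 1) (Fin 1) ℂ) =
        ((α h : Matrix (Fin 1) (Fin 1) ℂ) 0 0) • (1 : Matrix (Fin 1) (Fin 1) ℂ) := by
      ext i j
      rw [Subsingleton.elim i 0, Subsingleton.elim j 0, Matrix.smul_apply, Matrix.one_apply_eq,
        smul_eq_mul, mul_one]
    apply Matrix.toLin'.injective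
    apply LinearMap.ext
    intro v
    obtain ⟨w, rfl⟩ := hsurj v
    rw [Matrix.toLin'_apply, Matrix.toLin'_apply, ← hh, h5,
      h6 h (by rw [hh]; exact hmem i hiS), Units.val_one]
    rw [h13, Matrix.kronecker_smul, Matrix.one_kronecker_one, Matrix.smul_mulVec,
      Matrix.one_mulVec, map_smul, ← h13, Matrix.smul_mulVec, Matrix.one_mulVec]
  refine ⟨?_, S, H, d, e, α, β, hS, ⟨h2, ι, h4, h5, h7⟩, h3, ?_, ?_, hmul, hlast⟩
  · intro hc
    have he1 : e = 1 := by
      have hdvd : e ∣ r := by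
        rw [← h2]
        exact Dvd.dvd.mul_left (Dvd.intro _ rfl) _
      rcases hc with hc | ⟨hp, hc⟩
      · obtain ⟨i, ⟨z, hz⟩, hiS⟩ := Clf_pick S hS _ hc
        have h9 := Nat.dvd_gcd (hmul i hiS z) hdvd
        rw [hz] at h9
        exact Nat.dvd_one.1 h9
      · rcases (Nat.dvd_prime hp).1 hdvd with h9 | h9
        · exact h9
        · exfalso
          have h10 := hlast hc
          omega
    subst he1
    exact virt_of_one ρ H α β ι hidx h3 h5 h7
  · intro x hx
    exact ⟨⟨x, h1 hx⟩, h6 ⟨x, h1 hx⟩ hx, rfl⟩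
  · intro h y γ k hγ hh
    have hcard : 0 < Nat.card α.range := Nat.card_pos
    refine quasi_second hd (ρ h : Matrix (Fin r) (Fin r) ℂ) ι h4 (β h) (α h) (h5 h) hcard ?_ ?_
    · have h8 : (⟨α h, h, rfl⟩ : α.range) ^ Nat.card α.range = 1 := pow_card_eq_one'
      exact congrArg Subtype.val h8
    · intro z hz
      rw [hh] at hz
      exact Clf_conj_pow ρ y γ k (hρ γ hγ) z hz

end Pool.Agent.SGF
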