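import Pool.Agent.SGF.St

/-!
# SGF: invariants of the moves (`Cls`)
-/

set_option autoImplicit false

namespace Pool.Agent.SGF

open Matrix Module Pool.Agent.HZ

section
variable {G : Type} [Group G]

theorem Cls_mk (s x : G) : ConjClasses.mk (s * x * s⁻¹) = ConjClasses.mk x := by
  rw [ConjClasses.mk_eq_mk_iff_isConj, isConj_comm, isConj_iff]
  exact ⟨s, rfl⟩

theorem Cls_mk' (s x : G) : ConjClasses.mk (s⁻¹ * x * s) = ConjClasses.mk x := by
  have h := Cls_mk s⁻¹ x
  rwa [inv_inv] at h

theorem Cls_cj (q : G) (t : Tok G) : (Tok.cj q t).cls = t.cls := by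
  cases t with
  | pt c =>
    show some (ConjClasses.mk (q * c * q⁻¹)) = some (ConjClasses.mk c)
    rw [Cls_mk]
  | hd a b => rfl

theorem Cls_lt {t t' : Tok G} {s x : G} (h : Lt t s x t') : t'.cls = t.cls := by
  cases h with
  | pt =>
    show some (ConjClasses.mk (s * x * s⁻¹ * s * (s * x * s⁻¹)⁻¹)) = some (ConjClasses.mk s)
    rw [Cls_mk]
  | ha a b => rfl
  | hb a b => rfl

theorem Cls_lt_map {H : Type} [Group H] (f : G →* H) {t t' : Tok G} {s x : G} (h : Lt t s x t')
    (hx : f x = 1) : t'.map f = t.map f := by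
  cases h with
  | pt =>
    show Tok.pt (f (s * x * s⁻¹ * s * (s * x * s⁻¹)⁻¹)) = Tok.pt (f s)
    congr 1
    simp [hx]
  | ha a b =>
    show Tok.hd (f a) (f _) = Tok.hd (f a) (f b)
    congr 1
    simp [hx]
  | hb a b =>
    show Tok.hd (f _) (f _) = Tok.hd (f a) (f b)
    congr 1 <;> simp [hx]

theorem Cls_cj_map {H : Type} [Group H] (f : G →* H) {q : G} (hq : f q = 1) (t : Tok G) :
    (Tok.cj q t).map f = t.map f := by
  cases t with
  | pt c =>
    show Tok.pt (f (q * c * q⁻¹)) = Tok.pt (f c)
    congr 1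
    simp [hq]
  | hd a b =>
    show Tok.hd (f (q * a * q⁻¹)) (f (q * b * q⁻¹)) = Tok.hd (f a) (f b)
    congr 1 <;> simp [hq]

theorem Cls_br {M M' : List G} (h : BMove M M') :
    (M'.map ConjClasses.mk).Perm (M.map ConjClasses.mk) ∧
    ∀ {H : Type} [Group H] (f : G →* H), (∀ x ∈ M, f x = 1) → ∀ x ∈ M', f x = 1 := by
  cases h with
  | r P S a b =>
    constructor
    · simp only [List.map_append, List.map_cons, Cls_mk']
      exact List.Perm.append_left _ (List.Perm.swap _ _ _)
    · intro H _ f hf x hx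
      have ha : f a = 1 := hf a (by simp)
      have hb : f b = 1 := hf b (by simp)
      simp only [List.mem_append, List.mem_cons] at hx
      rcases hx with hx | rfl | rfl | hx
      · exact hf x (by simp [hx])
      · exact hb
      · simp [ha, hb]
      · exact hf x (by simp [hx])
  | l P S a b =>
    constructor
    · simp only [List.map_append, List.map_cons, Cls_mk]
      exact List.Perm.append_left _ (List.Perm.swap _ _ _)
    · intro H _ f hf x hx
      have ha : f a = 1 := hf a (by simp)
      have hb : f b = 1 := hf b (by simp)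
      simp only [List.mem_append, List.mem_cons] at hx
      rcases hx with hx | rfl | rfl | hx
      · exact hf x (by simp [hx])
      · simp [ha, hb]
      · exact ha
      · exact hf x (by simp [hx])

theorem Cls_move {X Y : List (Tok G) × List G} (h : SMove X Y) :
    (Y.2.map ConjClasses.mk).Perm (X.2.map ConjClasses.mk) ∧ Y.1.map Tok.cls = X.1.map Tok.cls ∧
    ∀ {H : Type} [Group H] (f : G →* H), (∀ x ∈ X.2, f x = 1) →
      (∀ x ∈ Y.2, f x = 1) ∧ Y.1.map (Tok.map f) = X.1.map (Tok.map f) := by
  cases h with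
  | br A M M' h =>
    obtain ⟨h1, h2⟩ := Cls_br h
    exact ⟨h1, rfl, fun {H} _ f hf => ⟨h2 f hf, rfl⟩⟩
  | ps A A' s x M h =>
    cases h with
    | mk A₁ A₂ t t' s x h =>
      refine ⟨?_, ?_, ?_⟩
      · show ((s * x * s⁻¹ :: M).map ConjClasses.mk).Perm ((x :: M).map ConjClasses.mk)
        rw [List.map_cons, List.map_cons, Cls_mk]
      · show (A₁ ++ t' :: A₂.map (Tok.cj (s * x * s⁻¹ * x⁻¹))).map Tok.cls =
          (A₁ ++ t :: A₂).map Tok.cls
        rw [List.map_append, List.map_append, List.map_cons, List.map_cons, Cls_lt h,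
          List.map_map]
        congr 2
        refine List.map_congr_left fun u _ => ?_
        exact Cls_cj _ u
      · intro H _ f hf
        have hx : f x = 1 := hf x (by simp)
        refine ⟨?_, ?_⟩
        · intro y hy
          rcases List.mem_cons.1 hy with rfl | hy
          · simp [hx]
          · exact hf y (List.mem_cons_of_mem _ hy)
        · show (A₁ ++ t' :: A₂.map (Tok.cj (s * x * s⁻¹ * x⁻¹))).map (Tok.map f) =
            (A₁ ++ t :: A₂).map (Tok.map f)
          rw [List.map_append, List.map_append, List.map_cons, List.map_cons,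
            Cls_lt_map f h hx, List.map_map]
          congr 2
          refine List.map_congr_left fun u _ => ?_
          exact Cls_cj_map f (by simp [hx]) u

end

/-- **Cls**: invariants of the moves. -/
theorem thm_Cls : St_Cls := by
  intro G _ X Y h
  induction h with
  | refl => exact ⟨List.Perm.refl _, rfl, fun f hf => ⟨hf, rfl⟩⟩
  | tail _ hs ih =>
    obtain ⟨i1, i2, i3⟩ := ih
    obtain ⟨s1, s2, s3⟩ := Cls_move hs
    refine ⟨s1.trans i1, s2.trans i2, fun {H} _ f hf => ?_⟩
    obtain ⟨j1, j2⟩ := i3 f hf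
    obtain ⟨k1, k2⟩ := s3 f j1
    exact ⟨k1, k2.trans j2⟩

end Pool.Agent.SGF
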