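import Pool.Agent.SGF.St

/-!
# Campaign SGF: the core of the structure theorem
-/

set_option autoImplicit false
set_option linter.unusedSectionVars false

namespace Pool.Agent.SGF

open Pool.Agent.HZ Helper12.Sc Module Pointwise

section
variable {G : Type} [Group G]

theorem ltrs_append (A B : List (Tok G)) : ltrs (A ++ B) = ltrs A ++ ltrs B := by
  simp [ltrs, List.flatMap_append]

theorem ltrs_pt (P : List G) : ltrs (P.map Tok.pt) = P := by
  induction P with
  | nil => rfl
  | cons a P ih =>
    rw [List.map_cons, ltrs, List.flatMap_cons]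
    rw [ltrs] at ih
    rw [ih]
    rfl

theorem SLoop.of_reach {X Y : List (Tok G) × List G} {γ : G} (h : SReach X Y) (h' : SLoop Y γ) :
    SLoop X γ := by
  obtain ⟨A', B, C, h1, h2⟩ := h'
  exact ⟨A', B, C, h.trans h1, h2⟩

/-- The moving loops for the letters of `A` and `P` and for products of sublists of the windows are
moving loops. -/
theorem stup_loop (hBas : St_Bas) (hBlk : St_Blk) (hAbs : St_Abs) {m : ℕ} (A : List (Tok G))
    (M P R' : List G) (grp : Fin m × Bool → List (List G))
    (hT : BReach M (P ++ (((List.finRange m).map fun i =>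
      grp (i, false) ++ grp (i, true)).flatten.flatten ++ R')))
    (v : Fin m × Bool → G) (hv : ∀ k, v k ∈ zs (grp k)) (γ : G)
    (hγ : SLoop (A ++ P.map Tok.pt, tupM v) γ) : SLoop (A, M) γ := by
  choose S hS1 hS2 using fun k => zs_sublist (grp k) (v k) (hv k)
  let Bs : List (List G) := P.map (fun y => [y]) ++
    ((List.finRange m).map fun i => [S (i, false), S (i, true)]).flatten
  have h1 : Bs.map List.prod = P ++ tupM v := by
    simp only [Bs, tupM, List.map_append, List.map_flatten, List.map_map, Function.comp_def,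
      List.map_cons, List.map_nil, hS2, List.prod_singleton, List.map_id']
  have h2 : Bs.flatten = P ++ ((List.finRange m).map fun i =>
      S (i, false) ++ S (i, true)).flatten := by
    simp only [Bs, List.flatten_append]
    congr 1
    · induction P with
      | nil => rfl
      | cons a Y _ => simp [← List.flatMap_def]
    · induction (List.finRange m) with
      | nil => rfl
      | cons a l ih =>
        simp only [List.map_cons, List.flatten_cons, List.flatten_append, ih]
        simp
  have h3 : Bs.flatten.Sublist (P ++ (((List.finRange m).map fun i =>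
      grp (i, false) ++ grp (i, true)).flatten.flatten ++ R')) := by
    rw [h2]
    refine List.Sublist.append (List.Sublist.refl P)
      (List.Sublist.trans ?_ (List.sublist_append_left _ R'))
    induction (List.finRange m) with
    | nil => exact List.Sublist.refl _
    | cons a l ih =>
      simp only [List.map_cons, List.flatten_cons, List.flatten_append]
      exact List.Sublist.append (List.Sublist.append (hS1 _) (hS1 _)) ih
  have h4 := hAbs A P (tupM v) γ hγ
  rw [← h1] at h4
  have h5 := hBlk.2.2.1 A Bs γ h4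
  have h6 := hBlk.2.2.2 A _ _ γ h3 h5
  exact SLoop.of_reach ((hBas (G := G) (H := G)).1 A _ _ hT) h6

end

theorem thm_Core (hBas : St_Bas) (hBlk : St_Blk) (hAbs : St_Abs) (hPol : St_Pol)
    (hUni : St_Uni) : St_Core := by
  intro B d0
  obtain ⟨m, hm⟩ : ∃ m, m = B d0 + 1 := ⟨_, rfl⟩
  obtain ⟨l, hl⟩ : ∃ l, l = B (2 * m * d0) + 1 := ⟨_, rfl⟩
  obtain ⟨D, hD⟩ := hUni m l
  obtain ⟨q, hq⟩ : ∃ q, q = B (D * d0) + 1 := ⟨_, rfl⟩
  refine ⟨2 * m * q * (B (D * d0)) ^ 2 * (B (D * d0)) ^ 2, ?_⟩
  intro G _ ι _ e he hB 𝓕 h𝓕 A M hT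
  have hfd : ∀ d, FiniteDimensional ℂ (space e d) := by
    intro d
    have := Fintype.ofFinite ι
    exact finite_space e d
  have hV : ∀ y : G, ∀ F ∈ space e (D * d0), rtr y F ∈ space e (D * d0) :=
    fun y F hF => he.rtr_mem y _ F hF
  -- the robust list and the windows
  obtain ⟨P, R, hPR, hPlen, hrob⟩ := exists_robust (space e (D * d0)) hV M
    (2 * m * q * (finrank ℂ (space e (D * d0))) ^ 2)
  obtain ⟨Us, R', hUlen, hUs, hUalg⟩ := exists_windows (space e (D * d0)) hV R (2 * m * q) hrob
  refine ⟨P, R, hPR, ?_, ?_⟩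
  · refine hPlen.trans ?_
    have h1 := hB (D * d0)
    have h2 : (finrank ℂ (space e (D * d0))) ^ 2 ≤ (B (D * d0)) ^ 2 := Nat.pow_le_pow_left h1 2
    exact Nat.mul_le_mul (Nat.mul_le_mul_left _ h2) h2
  obtain ⟨grp, hgrp1, hgrp2⟩ := exists_groups q m Us hUlen
  have hTU : BReach M (P ++ (((List.finRange m).map fun i =>
      grp (i, false) ++ grp (i, true)).flatten.flatten ++ R')) := by
    rw [← hgrp2]
    exact hPR.trans (hUs.append_left P)
  -- groups are saturated
  have hsat : ∀ k : Fin m × Bool, ∀ F ∈ space e (D * d0), (∀ z ∈ zs (grp k), F z = 0) →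
      ∀ g ∈ (Subgroup.closure {x | x ∈ R} : Set G), F g = 0 := by
    intro k F hF h0 g hg
    refine saturate (space e (D * d0)) hV R (grp k) ?_ ?_ F hF h0 g hg
    · rw [hgrp1 k, hq]
      exact Nat.lt_succ_of_le (hB _)
    · intro U hU
      apply hUalg
      rw [hgrp2]
      rw [List.mem_flatten]
      rcases k with ⟨i, b⟩
      refine ⟨_, List.mem_map.2 ⟨i, List.mem_finRange i, rfl⟩, ?_⟩
      rw [List.mem_append]
      cases b
      · exact Or.inl hU
      · exact Or.inr hU
  have hltr : ltrs (A ++ P.map Tok.pt) = ltrs A ++ P := by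
    rw [ltrs_append, ltrs_pt]
  -- short words
  have short : ∀ F ∈ 𝓕, ∀ g : Fin m → G, (∀ i, g i ∈ Subgroup.closure {x | x ∈ R}) →
      ∀ u : Fin m → List G, (∀ i, (u i).length ≤ l) → (∀ i, ∀ x ∈ u i, x ∈ ltrs A ++ P) →
      F (((List.finRange m).map fun i => (u i).prod * g i * (u i).prod⁻¹).prod) = 0 := by
    intro F hF g hg u hu1 hu2
    obtain ⟨W, hW1, hW2, hW3⟩ := hD (A ++ P.map Tok.pt) u hu1 (by rw [hltr]; exact hu2)
    have hall := saturate_all (space e (D * d0)) (fun k => zs (grp k))
      (Subgroup.closure {x | x ∈ R} : Set G) hsat (fun v => F (W v))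
      (fun v k => hPol.1 e he D d0 _ (hW1 v k) F (h𝓕 F hF))
      (fun v hv => hT _ (stup_loop hBas hBlk hAbs A M P R' grp hTU v hv _ (hW2 v)) F hF)
      (prs g) (by
        rintro ⟨i, b⟩
        cases b
        · simpa [prs] using hg i
        · simpa [prs] using hg i)
    rw [hW3 g] at hall
    exact hall
  -- all words
  have long : ∀ F ∈ 𝓕, ∀ g : Fin m → G, (∀ i, g i ∈ Subgroup.closure {x | x ∈ R}) →
      ∀ w : Fin m → G, (∀ i, w i ∈ (Subgroup.closure {x | x ∈ ltrs A ++ P} : Set G)) →
      F (((List.finRange m).map fun i => w i * g i * (w i)⁻¹).prod) = 0 := by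
    intro F hF g hg
    refine saturate_all (space e (2 * m * d0))
      (fun _ => prods (List.replicate l {x | x ∈ ltrs A ++ P}))
      (Subgroup.closure {x | x ∈ ltrs A ++ P} : Set G) ?_
      (fun w => F (((List.finRange m).map fun i => w i * g i * (w i)⁻¹).prod))
      (fun w k => conj_mem he w g k d0 F (h𝓕 F hF)) ?_
    · intro k F' hF' h0 x hx
      obtain ⟨Y, hY, hprop⟩ := propagate (space e (2 * m * d0))
        (fun y F hF => he.rtr_mem y _ F hF) (List.replicate l {x | x ∈ ltrs A ++ P}) (by
          rw [List.length_replicate, hl]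
          exact Nat.lt_succ_of_le (hB _))
      rw [List.mem_replicate] at hY
      rw [hY.2] at hprop
      exact hprop F' ⟨hF', h0⟩ x hx
    · intro w hw
      choose u hu1 hu2 hu3 using fun i => prods_replicate_list (ltrs A ++ P) l (w i) (hw i)
      have h1 := short F hF g hg u hu1 hu2
      simp only [hu3] at h1
      exact h1
  -- the whole group
  intro x hx F hF
  obtain ⟨Y, hY, hprop⟩ := propagate (space e d0)
    (fun y F hF => he.rtr_mem y _ F hF) (List.replicate m (cj (ltrs A ++ P) R)) (by
      rw [List.length_replicate, hm]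
      exact Nat.lt_succ_of_le (hB _))
  rw [List.mem_replicate] at hY
  rw [hY.2] at hprop
  refine hprop F ⟨h𝓕 F hF, ?_⟩ x hx
  intro p hp
  obtain ⟨f, hf, rfl⟩ := prods_replicate (cj (ltrs A ++ P) R) m p hp
  have hf2 : ∀ i, ∃ w g : G, w ∈ Subgroup.closure {x | x ∈ ltrs A ++ P} ∧
      g ∈ Subgroup.closure {x | x ∈ R} ∧ f i = w * g * w⁻¹ := by
    intro i
    rcases hf i with h1 | ⟨w, hw, g, hg, h1⟩
    · exact ⟨1, 1, Subgroup.one_mem _, Subgroup.one_mem _, by rw [h1]; simp⟩
    · exact ⟨w, g, hw, hg, h1⟩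
  choose w g hw hg hfe using hf2
  have h1 := long F hF g hg w hw
  simp only [← hfe] at h1
  exact h1

end Pool.Agent.SGF
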