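import Pool.Agent.SGF.St

/-!
# SGF / D1: restriction to the subsurface
-/

set_option autoImplicit false

namespace Pool.Agent.SGF

open Matrix Module Pool.Agent.HZ

theorem D1_card {n : ℕ} (S : Finset (Fin n)) : S.card ≤ n := by
  have h := Finset.card_le_univ S
  rwa [Fintype.card_fin] at h

theorem thm_D1 (hGrp : St_Grp) (hKap : St_Kap) (hExt : St_Ext) : St_D1 := by
  intro r g m n Q ρ S hf
  obtain ⟨κ, hκ, hκ'⟩ := hKap (g := g) (m := m) (D1_card S) (S.orderEmbOfFin rfl)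
    (S.orderEmbOfFin rfl).strictMono
  have hsub : {χ : F g m S.card → ℂ | ∃ φ : F g m S.card ≃* F g m S.card, IsMC φ ∧
      (∃ q ∈ Q, ∀ y, forget (φ y) = q (forget y)) ∧
      χ = fun γ => ((ρ.comp (inc S)) (φ γ) : Matrix (Fin r) (Fin r) ℂ).trace} ⊆
      (fun χ : F g m n → ℂ => fun y : F g m S.card => χ (incl (fst (D1_card S)) y)) ''
      {χ : F g m n → ℂ | ∃ φ : F g m n ≃* F g m n, IsMC φ ∧
      (∃ q ∈ Q, ∀ y, forget (φ y) = q (forget y)) ∧
      χ = fun γ => (ρ (φ γ) : Matrix (Fin r) (Fin r) ℂ).trace} := by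
    rintro _ ⟨φ, hφ, ⟨q, hq, hφq⟩, rfl⟩
    obtain ⟨φ', h1, h2, h3⟩ := hExt (D1_card S) φ hφ
    refine ⟨_, ⟨φ'.trans κ, ?_, ⟨q, hq, fun y => ?_⟩, rfl⟩, ?_⟩
    · exact (hGrp (g := g) (m := m) (n := n)).1 κ φ' hκ.1 h1
    · rw [MulEquiv.trans_apply, hκ.2, h3 q hφq]
    · funext y
      simp only [MulEquiv.trans_apply, h2, hκ', MonoidHom.comp_apply]
      rfl
  exact (Set.Finite.image _ hf).subset hsub

end Pool.Agent.SGF
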