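import Pool.Agent.SGF.St
import Pool.Agent.HZ.RedD

/-!
# D2: reduction modulo a finite normal subgroup

Modulo a finite normal subgroup which contains the images of the loops outside `S` every mapping
class is given by a mapping class of the subsurface and a pattern.
-/

set_option autoImplicit false

namespace Pool.Agent.SGF

open Matrix Module Pool.Agent.HZ

theorem thm_D2 (hPat : St_Pat) (hTrp : St_Trp) : St_D2 := by
  intro r g m n Q ρ S H _ hnorm hS h
  classical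
  -- the quotient
  have hn : (H.comap ρ).Normal := by
    refine ⟨fun x hx y => ?_⟩
    rw [Subgroup.mem_comap] at hx ⊢
    rw [map_mul, map_mul, map_inv]
    exact hnorm _ ⟨y, rfl⟩ _ hx
  let f : F g m n →* F g m n ⧸ H.comap ρ := QuotientGroup.mk' _
  have hf1 : ∀ x, f x = 1 ↔ ρ x ∈ H := by
    intro x
    rw [← Subgroup.mem_comap]
    exact QuotientGroup.eq_one_iff x
  have hSf : ∀ i ∉ S, f (gx i) = 1 := fun i hi => (hf1 _).2 (hS i hi)
  set K : ℕ := (Nat.card H).factorial * Nat.card H with hK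
  have hK0 : 0 < K := Nat.mul_pos (Nat.factorial_pos _) Nat.card_pos
  have hpow : ∀ x y, f x = f y →
      (ρ x : Matrix (Fin r) (Fin r) ℂ) ^ K = (ρ y : Matrix (Fin r) (Fin r) ℂ) ^ K := by
    intro x y hxy
    have h1 : ρ x * (ρ y)⁻¹ ∈ H := by
      rw [← map_inv, ← map_mul, ← hf1, map_mul, map_inv, hxy, mul_inv_cancel]
    have h2 := pow_eq_of_coset H (ρ y) (ρ x) (hnorm _ ⟨y, rfl⟩) (hnorm _ ⟨x, rfl⟩) h1
    have h3 := congrArg (fun g : GL (Fin r) ℂ => (g : Matrix (Fin r) (Fin r) ℂ)) h2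
    simpa only [Units.val_pow_eq_pow_val] using h3
  -- the orbit of the restriction
  set O : Set (F g m S.card → ℂ) :=
    {χ | ∃ φ : F g m S.card ≃* F g m S.card, IsMC φ ∧
      (∃ q ∈ Q, ∀ y, forget (φ y) = q (forget y)) ∧
      χ = fun γ => ((ρ.comp (inc S)) (φ γ) : Matrix (Fin r) (Fin r) ℂ).trace} with hO
  have hOfin : Finite O := h
  have hchoice : ∀ χ : O, ∃ φ : F g m S.card ≃* F g m S.card,
      (χ : F g m S.card → ℂ) =
        fun γ => ((ρ.comp (inc S)) (φ γ) : Matrix (Fin r) (Fin r) ℂ).trace := by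
    intro χ
    obtain ⟨φ, _, _, h1⟩ := χ.2
    exact ⟨φ, h1⟩
  choose b hb using hchoice
  -- the possible eigenvalues
  let Z : F g m n → Set ℂ := fun w =>
    ⋃ χ : O, ⋃ κ : Fin n → Option (Fin S.card),
      {z : ℂ | ∃ y ∈ {y : ℂ | (ρ (inc S (b χ (pat κ w))) :
        Matrix (Fin r) (Fin r) ℂ).charpoly.IsRoot y}, z ^ K = y ^ K}
  have hZ : ∀ w, (Z w).Finite := by
    intro w
    refine Set.finite_iUnion fun χ => Set.finite_iUnion fun κ => ?_
    refine finite_pow_eq _ ?_ K hK0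
    refine ((Multiset.toFinset (Matrix.charpoly (ρ (inc S (b χ (pat κ w))) :
      Matrix (Fin r) (Fin r) ℂ)).roots).finite_toSet).subset ?_
    intro y hy
    rw [Finset.mem_coe, Multiset.mem_toFinset, Polynomial.mem_roots (charpoly_monic _).ne_zero]
    exact hy
  have hroots : ∀ φ : F g m n ≃* F g m n, IsMC φ →
      (∃ q ∈ Q, ∀ y, forget (φ y) = q (forget y)) → ∀ (w) (z : ℂ),
      (ρ (φ w) : Matrix (Fin r) (Fin r) ℂ).charpoly.IsRoot z → z ∈ Z w := by
    rintro φ hφ ⟨q, hq, hφq⟩ w z hz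
    obtain ⟨φ', hφ', hφq', κ, hκ⟩ := hPat f S hSf φ q hφ hφq
    obtain ⟨y, hy, hzy⟩ := root_of_pow _ _ K hK0 (hpow _ _ (hκ w)) z hz
    let χ : O := ⟨_, φ', hφ', ⟨q, hq, hφq'⟩, rfl⟩
    refine Set.mem_iUnion.2 ⟨χ, Set.mem_iUnion.2 ⟨κ, y, ?_, hzy⟩⟩
    refine root_of_traces _ _ (fun k => ?_) y hy
    have h1 := congrFun (hb χ) ((pat κ w) ^ k)
    have h2 : (χ : F g m S.card → ℂ) ((pat κ w) ^ k) =
      ((ρ.comp (inc S)) (φ' ((pat κ w) ^ k)) : Matrix (Fin r) (Fin r) ℂ).trace := rfl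
    rw [h2] at h1
    simpa only [map_pow, Units.val_pow_eq_pow_val, MonoidHom.comp_apply] using h1
  -- finitely many words
  obtain ⟨s, hs⟩ := (hTrp r g m n).1
  let T : F g m n → Set ℂ := fun w =>
    {t : ℂ | ∃ U : Matrix (Fin r) (Fin r) ℂ, (∀ c : ℂ, U.charpoly.IsRoot c → c ∈ Z w) ∧
      U.trace = t}
  have hT : ∀ w, (T w).Finite := fun w => finite_traces_of_roots r (Z w) (hZ w)
  have hfin : (Set.univ.pi fun x : s => T x).Finite := Set.Finite.pi fun x => hT x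
  refine Set.Finite.of_finite_image (f := fun (χ : F g m n → ℂ) (x : s) => χ x)
    (hfin.subset ?_) ?_
  · rintro _ ⟨_, ⟨φ, hφ, hq, rfl⟩, rfl⟩ x _
    exact ⟨_, fun c hc => hroots φ hφ hq x c hc, rfl⟩
  · rintro _ ⟨φ, hφ, hq, rfl⟩ _ ⟨φ', hφ', hq', rfl⟩ h1
    funext x
    exact hs (ρ.comp φ.toMonoidHom) (ρ.comp φ'.toMonoidHom)
      (fun y hy => congrFun h1 ⟨y, hy⟩) x

end Pool.Agent.SGF
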