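import Pool.Agent.SGF.St

/-!
# Campaign SGF, module Ext: mapping classes of the subsurface with the first punctures extend
-/

set_option autoImplicit false

namespace Pool.Agent.SGF

open Matrix Module Pool.Agent.HZ Helper12.Sc

private theorem Ext_hom {g m n : ℕ} {H : Type} [Monoid H] (f f' : F g m n →* H)
    (ha : ∀ j, f (ga j) = f' (ga j)) (hb : ∀ j, f (gb j) = f' (gb j))
    (hc : ∀ i, f (gc i) = f' (gc i)) (hx : ∀ i, f (gx i) = f' (gx i)) (y : F g m n) :
    f y = f' y := by
  have h : f = f' := FreeGroup.ext_hom _ _ fun z => by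
    cases z with
    | a j => exact ha j
    | b j => exact hb j
    | c i => exact hc i
    | x i => exact hx i
  rw [h]

/-- the extension of a homomorphism -/
private def Ext_e {g m k n : ℕ} (h : k ≤ n) (φ : F g m k →* F g m k) : F g m n →* F g m n :=
  FreeGroup.lift fun
    | Gen.a j => incl (fst h) (φ (ga j))
    | Gen.b j => incl (fst h) (φ (gb j))
    | Gen.c i => incl (fst h) (φ (gc i))
    | Gen.x i => if hi : (i : ℕ) < k then incl (fst h) (φ (gx ⟨i, hi⟩)) else gx i

private theorem Ext_a {g m k n : ℕ} (h : k ≤ n) (φ : F g m k →* F g m k) (j : Fin g) :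
    Ext_e h φ (ga j) = incl (fst h) (φ (ga j)) := FreeGroup.lift_apply_of

private theorem Ext_b {g m k n : ℕ} (h : k ≤ n) (φ : F g m k →* F g m k) (j : Fin g) :
    Ext_e h φ (gb j) = incl (fst h) (φ (gb j)) := FreeGroup.lift_apply_of

private theorem Ext_c {g m k n : ℕ} (h : k ≤ n) (φ : F g m k →* F g m k) (i : Fin m) :
    Ext_e h φ (gc i) = incl (fst h) (φ (gc i)) := FreeGroup.lift_apply_of

private theorem Ext_x {g m k n : ℕ} (h : k ≤ n) (φ : F g m k →* F g m k) (i : Fin n)
    (hi : (i : ℕ) < k) : Ext_e h φ (gx i) = incl (fst h) (φ (gx ⟨i, hi⟩)) := by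
  have e : Ext_e h φ (gx i) = if hi : (i : ℕ) < k then incl (fst h) (φ (gx ⟨i, hi⟩)) else gx i :=
    FreeGroup.lift_apply_of
  rw [e, dif_pos hi]

private theorem Ext_x' {g m k n : ℕ} (h : k ≤ n) (φ : F g m k →* F g m k) (i : Fin n)
    (hi : ¬ (i : ℕ) < k) : Ext_e h φ (gx i) = gx i := by
  have e : Ext_e h φ (gx i) = if hi : (i : ℕ) < k then incl (fst h) (φ (gx ⟨i, hi⟩)) else gx i :=
    FreeGroup.lift_apply_of
  rw [e, dif_neg hi]

private theorem Ext_incl_a {g m k n : ℕ} (s : Fin k → Fin n) (j : Fin g) :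
    incl (g := g) (m := m) s (ga j) = ga j := FreeGroup.lift_apply_of

private theorem Ext_incl_b {g m k n : ℕ} (s : Fin k → Fin n) (j : Fin g) :
    incl (g := g) (m := m) s (gb j) = gb j := FreeGroup.lift_apply_of

private theorem Ext_incl_c {g m k n : ℕ} (s : Fin k → Fin n) (i : Fin m) :
    incl (g := g) (m := m) s (gc i) = gc i := FreeGroup.lift_apply_of

private theorem Ext_incl_x {g m k n : ℕ} (s : Fin k → Fin n) (i : Fin k) :
    incl (g := g) (m := m) s (gx i) = gx (s i) := FreeGroup.lift_apply_of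

private theorem Ext_fg_a {g m n : ℕ} (j : Fin g) :
    forget (g := g) (m := m) (n := n) (ga j) = ga j := FreeGroup.lift_apply_of

private theorem Ext_fg_b {g m n : ℕ} (j : Fin g) :
    forget (g := g) (m := m) (n := n) (gb j) = gb j := FreeGroup.lift_apply_of

private theorem Ext_fg_c {g m n : ℕ} (i : Fin m) :
    forget (g := g) (m := m) (n := n) (gc i) = gc i := FreeGroup.lift_apply_of

private theorem Ext_fg_x {g m n : ℕ} (i : Fin n) :
    forget (g := g) (m := m) (n := n) (gx i) = 1 := FreeGroup.lift_apply_of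

private theorem Ext_fg_incl {g m k n : ℕ} (s : Fin k → Fin n) (y : F g m k) :
    forget (incl s y) = forget y := by
  refine Ext_hom (forget.comp (incl s)) forget ?_ ?_ ?_ ?_ y
  · intro j
    rw [MonoidHom.comp_apply, Ext_incl_a, Ext_fg_a, Ext_fg_a]
  · intro j
    rw [MonoidHom.comp_apply, Ext_incl_b, Ext_fg_b, Ext_fg_b]
  · intro j
    rw [MonoidHom.comp_apply, Ext_incl_c, Ext_fg_c, Ext_fg_c]
  · intro j
    rw [MonoidHom.comp_apply, Ext_incl_x, Ext_fg_x, Ext_fg_x]

private theorem Ext_incl {g m k n : ℕ} (h : k ≤ n) (φ : F g m k →* F g m k) (y : F g m k) :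
    Ext_e h φ (incl (fst h) y) = incl (fst h) (φ y) := by
  refine Ext_hom ((Ext_e h φ).comp (incl (fst h))) ((incl (fst h)).comp φ) ?_ ?_ ?_ ?_ y
  · intro j
    rw [MonoidHom.comp_apply, MonoidHom.comp_apply, Ext_incl_a, Ext_a]
  · intro j
    rw [MonoidHom.comp_apply, MonoidHom.comp_apply, Ext_incl_b, Ext_b]
  · intro j
    rw [MonoidHom.comp_apply, MonoidHom.comp_apply, Ext_incl_c, Ext_c]
  · intro j
    rw [MonoidHom.comp_apply, MonoidHom.comp_apply, Ext_incl_x, Ext_x h φ (fst h j) j.2]
    rfl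

private theorem Ext_comp {g m k n : ℕ} (h : k ≤ n) (φ ψ : F g m k →* F g m k)
    (hψ : ∀ y, φ (ψ y) = y) (z : F g m n) : Ext_e h φ (Ext_e h ψ z) = z := by
  refine Ext_hom ((Ext_e h φ).comp (Ext_e h ψ)) (MonoidHom.id _) ?_ ?_ ?_ ?_ z
  · intro j
    rw [MonoidHom.comp_apply, Ext_a, Ext_incl, hψ, Ext_incl_a]
    rfl
  · intro j
    rw [MonoidHom.comp_apply, Ext_b, Ext_incl, hψ, Ext_incl_b]
    rfl
  · intro j
    rw [MonoidHom.comp_apply, Ext_c, Ext_incl, hψ, Ext_incl_c]
    rfl
  · intro j
    rw [MonoidHom.comp_apply]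
    by_cases hj : (j : ℕ) < k
    · rw [Ext_x h ψ j hj, Ext_incl, hψ, Ext_incl_x]
      rfl
    · rw [Ext_x' h ψ j hj, Ext_x' h φ j hj]
      rfl

private theorem Ext_list {g m k l : ℕ} :
    ((List.finRange (k + l)).map (gx (g := g) (m := m))).prod =
      incl (fst (Nat.le_add_right k l)) ((List.finRange k).map gx).prod *
        ((List.finRange l).map fun i => (gx (Fin.natAdd k i) : F g m (k + l))).prod := by
  have e1 : (List.finRange (k + l)).map (gx (g := g) (m := m)) =
      ((List.finRange k).map fun i => (gx (Fin.castAdd l i) : F g m (k + l))) ++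
        (List.finRange l).map fun i => (gx (Fin.natAdd k i) : F g m (k + l)) := by
    rw [← List.ofFn_eq_map, ← List.ofFn_eq_map, ← List.ofFn_eq_map, ← List.ofFn_fin_append]
    congr 1
    funext i
    refine Fin.addCases (fun j => ?_) (fun j => ?_) i
    · rw [Fin.append_left]
    · rw [Fin.append_right]
  have e2 : (List.finRange k).map (fun i => (gx (Fin.castAdd l i) : F g m (k + l))) =
      (List.finRange k).map ((⇑(incl (g := g) (m := m) (fst (Nat.le_add_right k l)))) ∘ gx) := by
    refine List.map_congr_left fun i _ => ?_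
    rw [Function.comp_apply, Ext_incl_x]
    rfl
  rw [e1, List.prod_append, map_list_prod, List.map_map, e2]

theorem thm_Ext : St_Ext := by
  intro g m k n h φ hφ
  have hφ1 : ∀ y, φ.toMonoidHom (φ.symm.toMonoidHom y) = y := fun y => φ.apply_symm_apply y
  have hφ2 : ∀ y, φ.symm.toMonoidHom (φ.toMonoidHom y) = y := fun y => φ.symm_apply_apply y
  let φ' : F g m n ≃* F g m n :=
    { toFun := Ext_e h φ.toMonoidHom
      invFun := Ext_e h φ.symm.toMonoidHom
      left_inv := fun z => Ext_comp h _ _ hφ2 z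
      right_inv := fun z => Ext_comp h _ _ hφ1 z
      map_mul' := fun x y => map_mul _ x y }
  have hE : ∀ z, φ' z = Ext_e h φ.toMonoidHom z := fun z => rfl
  have hP : ∀ y, φ' (incl (fst h) y) = incl (fst h) (φ y) := fun y => Ext_incl h φ.toMonoidHom y
  have hX : ∀ i : Fin n, ¬ (i : ℕ) < k → φ' (gx i) = gx i := fun i hi => Ext_x' h _ i hi
  have hxc : ∀ (i : Fin n) (hi : (i : ℕ) < k), fst h ⟨i, hi⟩ = i := fun i hi => rfl
  refine ⟨φ', ⟨?_, ?_, ?_⟩, hP, ?_⟩
  · have hb0 : incl (fst h) (φ (bdry g m k)) = incl (fst h) (bdry g m k) := by rw [hφ.bd]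
    obtain ⟨l, rfl⟩ : ∃ l, n = k + l := ⟨n - k, by omega⟩
    have e1 : bdry g m (k + l) = incl (fst h) (bdry g m k) *
        ((List.finRange l).map fun i => (gx (Fin.natAdd k i) : F g m (k + l))).prod := by
      unfold bdry
      rw [Ext_list]
      simp only [map_mul, map_list_prod, List.map_map]
      have a1 : (List.finRange g).map ((⇑(incl (g := g) (m := m) (fst h))) ∘
          fun j => ga j * gb j * (ga j)⁻¹ * (gb j)⁻¹) =
          (List.finRange g).map fun j => (ga j * gb j * (ga j)⁻¹ * (gb j)⁻¹ : F g m (k + l)) := by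
        refine List.map_congr_left fun j _ => ?_
        rw [Function.comp_apply, map_mul, map_mul, map_mul, map_inv, map_inv, Ext_incl_a, Ext_incl_b]
      have a2 : (List.finRange m).map ((⇑(incl (g := g) (m := m) (fst h))) ∘ gc) =
          (List.finRange m).map (gc : Fin m → F g m (k + l)) := by
        refine List.map_congr_left fun j _ => ?_
        rw [Function.comp_apply, Ext_incl_c]
      rw [a1, a2]
      simp only [mul_assoc]
    rw [e1, map_mul, hP, hb0, map_list_prod, List.map_map]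
    congr 2
    refine List.map_congr_left fun i _ => ?_
    rw [Function.comp_apply]
    exact hX _ (by simp)
  · intro i
    have e : φ' (gc i) = incl (fst h) (φ (gc i)) := by
      have := hP (gc i)
      rwa [Ext_incl_c] at this
    rw [e]
    have := (incl (g := g) (m := m) (fst h)).map_isConj (hφ.fix i)
    rwa [Ext_incl_c] at this
  · obtain ⟨σ, hσ⟩ := hφ.mov
    refine ⟨σ.viaFintypeEmbedding (Fin.castLEEmb h), fun i => ?_⟩
    by_cases hi : (i : ℕ) < k
    · have e2 : φ' (gx i) = incl (fst h) (φ (gx ⟨i, hi⟩)) := by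
        have := hP (gx ⟨i, hi⟩)
        rwa [Ext_incl_x, hxc i hi] at this
      rw [e2]
      have e3 : σ.viaFintypeEmbedding (Fin.castLEEmb h) i = fst h (σ ⟨i, hi⟩) := by
        exact Equiv.Perm.viaFintypeEmbedding_apply_image σ (Fin.castLEEmb h) ⟨i, hi⟩
      rw [e3]
      have := (incl (g := g) (m := m) (fst h)).map_isConj (hσ ⟨i, hi⟩)
      rwa [Ext_incl_x] at this
    · rw [hX i hi, Equiv.Perm.viaFintypeEmbedding_apply_notMem_range]
      rintro ⟨j, hj⟩
      apply hi
      rw [← hj]
      exact j.2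
  · intro q hq y
    refine Ext_hom (forget.comp φ'.toMonoidHom) (q.toMonoidHom.comp forget) ?_ ?_ ?_ ?_ y
    · intro j
      have e : φ' (ga j) = incl (fst h) (φ (ga j)) := by
        have := hP (ga j)
        rwa [Ext_incl_a] at this
      change forget (φ' (ga j)) = q (forget (ga j))
      rw [e, Ext_fg_incl, hq, Ext_fg_a, Ext_fg_a]
    · intro j
      have e : φ' (gb j) = incl (fst h) (φ (gb j)) := by
        have := hP (gb j)
        rwa [Ext_incl_b] at this
      change forget (φ' (gb j)) = q (forget (gb j))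
      rw [e, Ext_fg_incl, hq, Ext_fg_b, Ext_fg_b]
    · intro j
      have e : φ' (gc j) = incl (fst h) (φ (gc j)) := by
        have := hP (gc j)
        rwa [Ext_incl_c] at this
      change forget (φ' (gc j)) = q (forget (gc j))
      rw [e, Ext_fg_incl, hq, Ext_fg_c, Ext_fg_c]
    · intro i
      change forget (φ' (gx i)) = q (forget (gx i))
      rw [Ext_fg_x, map_one]
      by_cases hi : (i : ℕ) < k
      · have e2 : φ' (gx i) = incl (fst h) (φ (gx ⟨i, hi⟩)) := by
          have := hP (gx ⟨i, hi⟩)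
          rwa [Ext_incl_x, hxc i hi] at this
        rw [e2, Ext_fg_incl, hq, Ext_fg_x, map_one]
      · rw [hX i hi, Ext_fg_x]

end Pool.Agent.SGF
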