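import Pool.Agent.SGF.St

/-!
# Campaign SGF: mapping classes and motions form groups
-/

set_option autoImplicit false

namespace Pool.Agent.SGF

open Pool.Agent.HZ

private theorem Grp_mc_mul {g m n : ℕ} (φ ψ : F g m n ≃* F g m n) (hφ : IsMC φ) (hψ : IsMC ψ) :
    IsMC (ψ.trans φ) := by
  obtain ⟨σ, hσ⟩ := hφ.mov
  obtain ⟨τ, hτ⟩ := hψ.mov
  refine ⟨?_, fun i => ?_, τ.trans σ, fun i => ?_⟩
  · rw [MulEquiv.trans_apply, hψ.bd, hφ.bd]
  · rw [MulEquiv.trans_apply]
    exact ((φ : F g m n →* F g m n).map_isConj (hψ.fix i)).trans (hφ.fix i)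
  · rw [MulEquiv.trans_apply]
    exact ((φ : F g m n →* F g m n).map_isConj (hτ i)).trans (hσ (τ i))

private theorem Grp_mc_symm {g m n : ℕ} (φ : F g m n ≃* F g m n) (hφ : IsMC φ) :
    IsMC φ.symm := by
  obtain ⟨σ, hσ⟩ := hφ.mov
  refine ⟨?_, fun i => ?_, σ.symm, fun i => ?_⟩
  · rw [MulEquiv.symm_apply_eq, hφ.bd]
  · have h := (φ.symm : F g m n →* F g m n).map_isConj (hφ.fix i)
    have h1 : (φ.symm : F g m n →* F g m n) (φ (gc i)) = gc i := φ.symm_apply_apply _
    rw [h1] at h
    exact h.symm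
  · have h := (φ.symm : F g m n →* F g m n).map_isConj (hσ (σ.symm i))
    have h1 : (φ.symm : F g m n →* F g m n) (φ (gx (σ.symm i))) = gx (σ.symm i) :=
      φ.symm_apply_apply _
    rw [h1, Equiv.apply_symm_apply] at h
    exact h.symm

private theorem Grp_mc_one {g m n : ℕ} : IsMC (MulEquiv.refl (F g m n)) :=
  ⟨rfl, fun _ => IsConj.refl _, Equiv.refl _, fun _ => IsConj.refl _⟩

private theorem Grp_ext {g m n : ℕ} {H : Type} [Group H] (f h : F g m n →* H)
    (ha : ∀ j, f (ga j) = h (ga j)) (hb : ∀ j, f (gb j) = h (gb j))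
    (hc : ∀ i, f (gc i) = h (gc i)) (hx : ∀ i, f (gx i) = h (gx i)) (y : F g m n) :
    f y = h y := by
  have : f = h := by
    apply FreeGroup.ext_hom
    rintro (j | j | i | i)
    · exact ha j
    · exact hb j
    · exact hc i
    · exact hx i
  rw [this]

/-- mapping classes and motions form groups, and the maps on generators -/
theorem thm_Grp : St_Grp := by
  intro g m n
  refine ⟨Grp_mc_mul, Grp_mc_symm, Grp_mc_one, ?_, ?_, ⟨Grp_mc_one, fun _ => rfl⟩, ?_, ?_, ?_⟩
  · rintro φ ψ ⟨hφ, hφ'⟩ ⟨hψ, hψ'⟩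
    refine ⟨Grp_mc_mul φ ψ hφ hψ, fun y => ?_⟩
    rw [MulEquiv.trans_apply, hφ', hψ']
  · rintro φ ⟨hφ, hφ'⟩
    refine ⟨Grp_mc_symm φ hφ, fun y => ?_⟩
    have h := hφ' (φ.symm y)
    rw [MulEquiv.apply_symm_apply] at h
    exact h.symm
  · intro k s y
    refine Grp_ext (forget.comp (incl s)) forget ?_ ?_ ?_ ?_ y
    · intro j
      simp [forget, incl, ga]
    · intro j
      simp [forget, incl, gb]
    · intro i
      simp [forget, incl, gc]
    · intro i
      simp [forget, incl, gx]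
  · intro k s y
    refine Grp_ext (forget.comp (pat s)) forget ?_ ?_ ?_ ?_ y
    · intro j
      simp [forget, pat, ga]
    · intro j
      simp [forget, pat, gb]
    · intro i
      simp [forget, pat, gc]
    · intro i
      cases hs : s i with
      | none => simp [forget, pat, gx, hs]
      | some j => simp [forget, pat, gx, hs]
  · intro k s s' hs y
    refine Grp_ext ((pat s').comp (incl s)) (MonoidHom.id _) ?_ ?_ ?_ ?_ y
    · intro j
      simp [pat, incl, ga]
    · intro j
      simp [pat, incl, gb]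
    · intro i
      simp [pat, incl, gc]
    · intro i
      simp [pat, incl, gx, hs]

end Pool.Agent.SGF
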