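import Pool.Agent.SGF.St

/-!
# Module Kap: given punctures can be moved to the front

The loops around the punctures `s 0 < s 1 < ...` form a sublist of the list of all loops around the
moving punctures, and a sublist can be moved to the front unchanged by braid moves.
-/

set_option autoImplicit false

namespace Pool.Agent.SGF

open Matrix Module Pool.Agent.HZ

/-- an increasing list of indices is a sublist of the list of all indices -/
private theorem Kap_sub {k n : ℕ} (s : Fin k → Fin n) (hs : StrictMono s) :
    ((List.finRange k).map s).Sublist (List.finRange n) := by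
  have h0 : (List.finRange k).Pairwise (· < ·) := (List.sortedLT_finRange k).pairwise
  have h1 : ((List.finRange k).map s).Pairwise (· < ·) := by
    rw [List.pairwise_map]
    exact h0.imp fun h => hs h
  have h2 : (List.finRange n).Pairwise (· < ·) := (List.sortedLT_finRange n).pairwise
  refine List.sublist_of_subperm_of_pairwise (r := (· < ·)) ?_ h1 h2
  refine List.subperm_of_subset ((List.nodup_finRange k).map hs.injective) ?_
  intro x _
  exact List.mem_finRange x

theorem thm_Kap (hBas : St_Bas) (hSnd : St_Snd) : St_Kap := by
  intro g m k n h s hs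
  have hsub : ((List.finRange k).map fun j => (gx (s j) : F g m n)).Sublist (stM g m n) := by
    have h1 := (Kap_sub s hs).map (gx : Fin n → F g m n)
    rw [List.map_map] at h1
    exact h1
  obtain ⟨C, hC⟩ := Pre.sublist hsub
  have h2 : SReach (std g m n)
      (stA g m n, ((List.finRange k).map fun j => (gx (s j) : F g m n)) ++ C) :=
    (hBas (G := F g m n) (H := F g m n)).1 (stA g m n) _ _ hC
  obtain ⟨κ, hκ, hmap⟩ := hSnd _ h2
  refine ⟨κ, hκ, ?_⟩
  have hA : (stA g m n).map (Tok.map κ) = stA g m n := congrArg Prod.fst hmap
  have hM : (stM g m n).map κ =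
      ((List.finRange k).map fun j => (gx (s j) : F g m n)) ++ C := congrArg Prod.snd hmap
  have hA' : ∀ t ∈ stA g m n, Tok.map κ t = t :=
    List.map_inj_left.mp (hA.trans (List.map_id _).symm)
  have hab : ∀ j : Fin g, κ (ga j) = ga j ∧ κ (gb j) = gb j := by
    intro j
    have h3 := hA' (Tok.hd (ga j) (gb j))
      (List.mem_append_left _ (List.mem_map.mpr ⟨j, List.mem_finRange j, rfl⟩))
    simp only [Tok.map, Tok.hd.injEq] at h3
    exact h3
  have hc : ∀ i : Fin m, κ (gc i) = gc i := by
    intro i
    have h3 := hA' (Tok.pt (gc i))
      (List.mem_append_right _ (List.mem_map.mpr ⟨i, List.mem_finRange i, rfl⟩))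
    simp only [Tok.map, Tok.pt.injEq] at h3
    exact h3
  have hx : ∀ j : Fin k, κ (gx (Pool.Agent.SGF.fst h j)) = gx (s j) := by
    intro j
    have h3 := congrArg (fun l : List (F g m n) => l[(j : ℕ)]?) hM
    have hj : (j : ℕ) < n := lt_of_lt_of_le j.2 h
    have h4 : ((stM g m n).map κ)[(j : ℕ)]? = some (κ (gx (Pool.Agent.SGF.fst h j))) := by
      rw [List.getElem?_eq_getElem (by simpa [stM] using hj)]
      simp [stM, Pool.Agent.SGF.fst, Fin.castLE]
    have h5 : (((List.finRange k).map fun j => (gx (s j) : F g m n)) ++ C)[(j : ℕ)]? =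
        some (gx (s j)) := by
      rw [List.getElem?_append_left (by simp)]
      rw [List.getElem?_eq_getElem (by simp)]
      simp
    have h6 : ((stM g m n).map κ)[(j : ℕ)]? =
      (((List.finRange k).map fun j => (gx (s j) : F g m n)) ++ C)[(j : ℕ)]? := h3
    rw [h4, h5] at h6
    exact Option.some.inj h6
  have hhom : (κ : F g m n →* F g m n).comp (incl (Pool.Agent.SGF.fst h)) = incl s := by
    apply FreeGroup.ext_hom
    intro y
    cases y with
    | a j =>
      simp only [MonoidHom.comp_apply, incl, FreeGroup.lift_apply_of]
      exact (hab j).1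
    | b j =>
      simp only [MonoidHom.comp_apply, incl, FreeGroup.lift_apply_of]
      exact (hab j).2
    | c i =>
      simp only [MonoidHom.comp_apply, incl, FreeGroup.lift_apply_of]
      exact hc i
    | x i =>
      simp only [MonoidHom.comp_apply, incl, FreeGroup.lift_apply_of]
      exact hx i
  intro y
  exact DFunLike.congr_fun hhom y

end Pool.Agent.SGF
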