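import Pool.Agent.SGF.D1

/-!
# SGF / Lp: moving loops of the subsurface
-/

set_option autoImplicit false

namespace Pool.Agent.SGF

open Matrix Module Pool.Agent.HZ

theorem Lp_take {g m k n : ℕ} (h : k ≤ n) (l : ℕ) :
    (((List.finRange k).take l).map fun i => (gx (fst h i) : F g m n)) =
      ((List.finRange n).take (min l k)).map gx := by
  have e : (List.finRange k).map (fst h) = (List.finRange n).take k := by
    apply List.ext_getElem
    · simp [h]
    · intro i h1 h2
      simp [fst]
  have e2 : ((List.finRange k).take l).map (fst h) = ((List.finRange n).take k).take l := by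
    rw [List.map_take, e]
  rw [List.take_take] at e2
  rw [← e2, List.map_map]
  rfl

theorem thm_Lp (hGrp : St_Grp) (hKap : St_Kap) (hExt : St_Ext) : St_Lp := by
  rintro g m n S γ ⟨φ, hφ, l, rfl⟩
  obtain ⟨κ, hκ, hκ'⟩ := hKap (g := g) (m := m) (D1_card S) (S.orderEmbOfFin rfl)
    (S.orderEmbOfFin rfl).strictMono
  obtain ⟨φ', h1, h2, h3⟩ := hExt (D1_card S) φ hφ.1
  have hm : IsMotion φ' := ⟨h1, h3 (MulEquiv.refl _) fun y => hφ.2 y⟩
  refine ⟨φ'.trans κ, (hGrp (g := g) (m := m) (n := n)).2.2.2.1 κ φ' hκ hm, min l S.card, ?_⟩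
  rw [MulEquiv.trans_apply, ← Lp_take (D1_card S)]
  have e : (((List.finRange S.card).take l).map fun i => (gx (fst (D1_card S) i) : F g m n)).prod =
      incl (fst (D1_card S)) (((List.finRange S.card).take l).map gx).prod := by
    rw [map_list_prod, List.map_map]
    congr 1
  rw [e, h2, hκ', inc]

end Pool.Agent.SGF
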