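import Pool.Agent.SGF.St

/-!
# Campaign SGF: almost all the local monodromies at the moving punctures are in a small normal subgroup
-/

set_option autoImplicit false

namespace Pool.Agent.SGF

open Pool.Agent.HZ Helper12.Sc Matrix Module Polynomial

section
variable {G : Type} [Group G]

/-- the images of the letters and of the moving punctures generate the image -/
theorem closure_letters {g m n : ℕ} (f : F g m n →* G) :
    Subgroup.closure {x | x ∈ ltrs ((stA g m n).map (Tok.map f)) ++ (stM g m n).map f} =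
      f.range := by
  apply le_antisymm
  · rw [Subgroup.closure_le]
    intro x hx
    simp only [Set.mem_ofPred_eq, List.mem_append] at hx
    rcases hx with hx | hx
    · rw [ltrs, List.mem_flatMap] at hx
      obtain ⟨t, ht, hx⟩ := hx
      rw [List.mem_map] at ht
      obtain ⟨t, _, rfl⟩ := ht
      cases t with
      | pt c =>
        simp only [Tok.map, Tok.ltr, List.mem_singleton] at hx
        exact ⟨c, hx.symm⟩
      | hd a b =>
        simp only [Tok.map, Tok.ltr, List.mem_cons, List.not_mem_nil, or_false] at hx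
        rcases hx with rfl | rfl
        · exact ⟨b * a⁻¹ * b⁻¹, by simp⟩
        · exact ⟨b⁻¹, by simp⟩
    · rw [List.mem_map] at hx
      obtain ⟨y, _, rfl⟩ := hx
      exact ⟨y, rfl⟩
  · rw [MonoidHom.range_eq_map, ← FreeGroup.closure_range_of, MonoidHom.map_closure]
    refine (Subgroup.closure_le _).2 ?_
    rintro _ ⟨_, ⟨k, rfl⟩, rfl⟩
    obtain ⟨L, hL⟩ : ∃ L : List G, L = ltrs ((stA g m n).map (Tok.map f)) ++ (stM g m n).map f :=
      ⟨_, rfl⟩
    rw [← hL]
    have hb : ∀ j : Fin g, (f (gb j))⁻¹ ∈ L ∧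
        f (gb j) * (f (ga j))⁻¹ * (f (gb j))⁻¹ ∈ L := by
      intro j
      have h1 : Tok.hd (f (ga j)) (f (gb j)) ∈ (stA g m n).map (Tok.map f) := by
        rw [List.mem_map]
        refine ⟨Tok.hd (ga j) (gb j), ?_, rfl⟩
        rw [stA, List.mem_append, List.mem_map]
        exact Or.inl ⟨j, List.mem_finRange j, rfl⟩
      rw [hL]
      constructor
      · rw [List.mem_append, ltrs, List.mem_flatMap]
        exact Or.inl ⟨_, h1, by simp [Tok.ltr]⟩
      · rw [List.mem_append, ltrs, List.mem_flatMap]
        exact Or.inl ⟨_, h1, by simp [Tok.ltr]⟩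
    have hb2 : ∀ j : Fin g, f (gb j) ∈ Subgroup.closure {x | x ∈ L} := by
      intro j
      have h1 : (f (gb j))⁻¹ ∈ Subgroup.closure {x | x ∈ L} := Subgroup.subset_closure (hb j).1
      rw [Subgroup.inv_mem_iff] at h1
      exact h1
    cases k with
    | a j =>
      have h1 : f (gb j) * (f (ga j))⁻¹ * (f (gb j))⁻¹ ∈ Subgroup.closure {x | x ∈ L} :=
        Subgroup.subset_closure (hb j).2
      have h2 := Subgroup.mul_mem _ (Subgroup.mul_mem _ (Subgroup.inv_mem _ (hb2 j)) h1) (hb2 j)
      have e : (f (gb j))⁻¹ * (f (gb j) * (f (ga j))⁻¹ * (f (gb j))⁻¹) * f (gb j) =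
          (f (ga j))⁻¹ := by group
      rw [e, Subgroup.inv_mem_iff] at h2
      exact h2
    | b j => exact hb2 j
    | c i =>
      have h1 : f (gc i) ∈ L := by
        rw [hL, List.mem_append, ltrs, List.mem_flatMap]
        refine Or.inl ⟨Tok.pt (f (gc i)), ?_, by simp [Tok.ltr]⟩
        rw [List.mem_map]
        refine ⟨Tok.pt (gc i), ?_, rfl⟩
        rw [stA, List.mem_append, List.mem_map, List.mem_map]
        exact Or.inr ⟨i, List.mem_finRange i, rfl⟩
      exact Subgroup.subset_closure h1
    | x i =>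
      have h1 : f (gx i) ∈ L := by
        rw [hL, List.mem_append, List.mem_map]
        refine Or.inr ⟨gx i, ?_, rfl⟩
        rw [stM, List.mem_map]
        exact ⟨i, List.mem_finRange i, rfl⟩
      exact Subgroup.subset_closure h1

end

/-- a moving loop of the image of the standard state is the image of a moving loop -/
theorem loop_image {G : Type} [Group G] (hBas : St_Bas) (hSnd : St_Snd) {g m n : ℕ}
    (f : F g m n →* G) (γ : G)
    (h : SLoop ((stA g m n).map (Tok.map f), (stM g m n).map f) γ) :
    ∃ γ' : F g m n, IsMovingLoop γ' ∧ f γ' = γ := by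
  obtain ⟨A', B, C, h1, h2⟩ := h
  obtain ⟨X', h3, h4⟩ := (hBas (G := F g m n) (H := G)).2.2.2.1 f (std g m n) _ h1
  obtain ⟨φ, hφ, rfl⟩ := hSnd X' h3
  have h5 : ((stM g m n).map φ).map f = B ++ C := congrArg Prod.snd h4
  refine ⟨φ (((List.finRange n).take B.length).map gx).prod, ⟨φ, hφ, B.length, rfl⟩, ?_⟩
  have h6 : B = (B ++ C).take B.length := by simp
  have h7 : B = ((((List.finRange n).take B.length).map gx).map φ).map f := by
    conv_lhs => rw [h6]
    rw [← h5, stM, ← List.map_take, ← List.map_take, ← List.map_take]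
  rw [← h2]
  conv_rhs => rw [h7]
  rw [map_list_prod, map_list_prod]

/-- **Main.** Almost all the local monodromies at the moving punctures of a local system on a
surface whose moving loops have only roots of unity as eigenvalues generate a normal subgroup
all of whose elements have only roots of unity as eigenvalues. -/
theorem thm_Main (hBas : St_Bas) (hSnd : St_Snd) (hCore : St_Core) : St_Main := by
  classical
  intro r
  obtain ⟨N, hN⟩ := hCore (fun d => (6 * r ^ 2 + 1) ^ d) (d0 r)
  refine ⟨N, ?_⟩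
  intro g m n ρ hρ
  have hrange := closure_letters ρ
  have hfg : (ρ.range).FG := by
    rw [← hrange, Subgroup.fg_iff]
    exact ⟨_, rfl, List.finite_toSet _⟩
  obtain ⟨K, hK, hexp⟩ := exists_exponent ρ.range hfg
  obtain ⟨σ, σ', hσ, horb⟩ := exists_auts K hK
  obtain ⟨A, hA⟩ : ∃ A, A = (stA g m n).map (Tok.map ρ) := ⟨_, rfl⟩
  obtain ⟨M, hM⟩ : ∃ M, M = (stM g m n).map ρ := ⟨_, rfl⟩
  rw [← hA, ← hM] at hrange
  obtain ⟨P, R, hPR, hPlen, hzero⟩ := hN (GL (Fin r) ℂ) (Ix r) (cr σ σ') (good_cr σ σ')
    (finrank_cr σ σ') {F | ∃ i j, F = Es σ σ' i j} (by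
      rintro F ⟨i, j, rfl⟩
      exact Es_mem σ σ' i j) A M (by
      rintro γ hγ F ⟨i, j, rfl⟩
      rw [hA, hM] at hγ
      obtain ⟨γ', hγ', rfl⟩ := loop_image hBas hSnd ρ γ hγ
      refine Es_zero σ σ' K hσ _ ?_ i j
      intro z hz
      exact hexp _ ⟨_, rfl⟩ z hz (hρ _ hγ' z hz))
  have hPRM : Subgroup.closure {x | x ∈ P ++ R} = Subgroup.closure {x | x ∈ M} := hPR.closure_eq
  have hPRc : Subgroup.closure {x | x ∈ (ltrs A ++ P) ++ R} = ρ.range := by
    rw [← hrange]
    have hset : ∀ L L' : List (GL (Fin r) ℂ), Subgroup.closure {x | x ∈ L ++ L'} =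
        Subgroup.closure {x | x ∈ L} ⊔ Subgroup.closure {x | x ∈ L'} := by
      intro L L'
      rw [← Subgroup.closure_union]
      congr 1
      ext x
      simp [List.mem_append]
    rw [List.append_assoc, hset, hset (ltrs A) M, hPRM]
  have hnrm : ∀ a ∈ ρ.range, ∀ x ∈ Subgroup.closure (cj (ltrs A ++ P) R),
      a * x * a⁻¹ ∈ Subgroup.closure (cj (ltrs A ++ P) R) := by
    intro a ha
    rw [← hPRc] at ha
    exact nrm_cj (ltrs A ++ P) R a ha
  have hnrmM : Nrm (Subgroup.closure (cj (ltrs A ++ P) R)) M := by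
    intro a ha
    refine hnrm a ?_
    rw [← hrange]
    exact Subgroup.closure_mono (fun x hx => List.mem_append_right _ hx) ha
  refine ⟨Finset.univ.filter fun i => ρ (gx i) ∉ Subgroup.closure (cj (ltrs A ++ P) R),
    Subgroup.closure (cj (ltrs A ++ P) R), ?_, ?_, ?_, ?_, ?_⟩
  · have h1 := count_reach hPR hnrmM
    have h2 : M.countP (fun x => decide (x ∉ Subgroup.closure (cj (ltrs A ++ P) R))) =
        (Finset.univ.filter fun i =>
          ρ (gx i) ∉ Subgroup.closure (cj (ltrs A ++ P) R)).card := by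
      rw [hM, stM, List.map_map, List.countP_map, List.countP_eq_length_filter]
      rw [Finset.card_def, Finset.filter_val]
      simp [Function.comp_def, Finset.univ, Fintype.elems]
    rw [← h2, ← h1, List.countP_append]
    have h3 : R.countP (fun x => decide (x ∉ Subgroup.closure (cj (ltrs A ++ P) R))) = 0 := by
      rw [List.countP_eq_zero]
      intro x hx
      have : x ∈ Subgroup.closure (cj (ltrs A ++ P) R) :=
        Subgroup.subset_closure (cj_right (ltrs A ++ P) R x (Subgroup.subset_closure hx))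
      simpa using this
    rw [h3, add_zero]
    exact List.countP_le_length.trans hPlen
  · rw [Subgroup.closure_le]
    rintro x ⟨w, hw, y, hy, rfl⟩
    rw [← hPRc]
    have hw' : w ∈ Subgroup.closure {x | x ∈ (ltrs A ++ P) ++ R} :=
      Subgroup.closure_mono (fun x hx => List.mem_append_left R hx) hw
    have hy' : y ∈ Subgroup.closure {x | x ∈ (ltrs A ++ P) ++ R} :=
      Subgroup.closure_mono (fun x hx => List.mem_append_right (ltrs A ++ P) hx) hy
    exact Subgroup.mul_mem _ (Subgroup.mul_mem _ hw' hy') (Subgroup.inv_mem _ hw')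
  · intro γ hγ h hh
    exact hnrm γ hγ h hh
  · intro i hi
    simpa using hi
  · intro h hh z hz
    exact root_of_Es σ σ' horb h (fun i j => hzero h hh _ ⟨i, j, rfl⟩) z hz

end Pool.Agent.SGF
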