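import Pool.Agent.SGF.St

/-!
# SGF / Mrg: the structure theorem for surfaces of arbitrary genus
-/

set_option autoImplicit false

namespace Pool.Agent.SGF

open Matrix Module Pool.Agent.HZ

theorem thm_Mrg (hRed : St_Red) (hClf : St_Clf) : St_Mrg := by
  classical
  intro r hr
  obtain ⟨N₁, h₁, h₁'⟩ := hRed r
  obtain ⟨N₂, h₂⟩ := hClf r hr
  refine ⟨N₁ + N₂, ?_, ?_, ?_⟩
  · intro g m n ρ hρ
    obtain ⟨S₁, a1, a2, a3, a4⟩ := h₁ g m n ρ hρ
    by_cases hirr : Irr ρ.range
    · obtain ⟨-, S₂, H, d, e, α, β, b1, b2, b3, b4, b5, b6, b7⟩ := h₂ g m n ρ hρ hirr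
      have hK₁ : Subgroup.normalClosure {y : F g m n | ∃ i ∉ S₁ ∪ S₂, y = gx i} ≤ KK S₁ := by
        apply Subgroup.normalClosure_mono
        rintro x ⟨i, hi, rfl⟩
        exact ⟨i, fun h => hi (Finset.mem_union_left _ h), rfl⟩
      have hK₂ : Subgroup.normalClosure {y : F g m n | ∃ i ∉ S₁ ∪ S₂, y = gx i} ≤ KK S₂ := by
        apply Subgroup.normalClosure_mono
        rintro x ⟨i, hi, rfl⟩
        exact ⟨i, fun h => hi (Finset.mem_union_right _ h), rfl⟩
      refine ⟨S₁ ∪ S₂, (Finset.card_union_le _ _).trans (add_le_add a1 b1),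
        fun x hx => a2 x (hK₁ hx), fun hc => ?_, a4 _ Finset.subset_union_left, fun _ =>
          ⟨H, d, e, α, β, b2, b3, hK₂.trans b4, b5, fun i hi => b6 i fun h =>
            hi (Finset.mem_union_right _ h),
            fun hN => b7 (lt_of_le_of_lt (Nat.le_add_left _ _) hN)⟩⟩
      have := a3 hc
      exact Finite.Set.subset (α := GL (Fin r) ℂ)
        ((KK S₁).map ρ : Set (GL (Fin r) ℂ))
        (Subgroup.map_mono hK₁)
    · exact ⟨S₁, a1.trans (Nat.le_add_right _ _), a2, a3, a4 _ (Finset.Subset.refl _),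
        fun h => absurd h hirr⟩
  · intro g m n ρ hρ hirr hc
    refine (h₂ g m n ρ hρ hirr).1 ?_
    rcases hc with hc | ⟨hp, hc⟩
    · left
      exact lt_of_le_of_lt (Nat.le_add_left _ _) hc
    · right
      exact ⟨hp, lt_of_le_of_lt (Nat.le_add_left _ _) hc⟩
  · intro g m Q h
    exact h₁' g m Q fun n hn => h n (hn.trans (Nat.le_add_right _ _))

end Pool.Agent.SGF
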