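import Pool.Agent.SGF.St

/-!
# Campaign SGF: pushing a product
-/

set_option autoImplicit false

namespace Pool.Agent.SGF

open Matrix Module Pool.Agent.HZ Helper12.Sc

section
variable {G : Type} [Group G]

private theorem Mul_pt {c x s c' : G} (hs : s = c)
    (hc : c' = c * x * c⁻¹ * c * (c * x * c⁻¹)⁻¹) : Lt (Tok.pt c) s x (Tok.pt c') := by
  subst hs hc
  exact Lt.pt _ _

private theorem Mul_ha {a b x s a' b' : G} (hs : s = b * a⁻¹ * b⁻¹) (ha : a' = a)
    (hb : b' = b * a⁻¹ * b⁻¹ * x * (b * a⁻¹ * b⁻¹)⁻¹ * b) :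
    Lt (Tok.hd a b) s x (Tok.hd a' b') := by
  subst hs ha hb
  exact Lt.ha _ _ _

private theorem Mul_hb {a b x s a' b' : G} (hs : s = b⁻¹) (ha : a' = a * (b⁻¹ * x * b)⁻¹)
    (hb : b' = b⁻¹ * x * b * x⁻¹ * b) : Lt (Tok.hd a b) s x (Tok.hd a' b') := by
  subst hs ha hb
  exact Lt.hb _ _ _

private theorem Mul_psh {s x : G} {A₁ A₂ : List (Tok G)} {t t' : Tok G} (h : Lt t s x t')
    {L L' : List (Tok G)} (hL : L = A₁ ++ t :: A₂)
    (hL' : L' = A₁ ++ t' :: A₂.map (Tok.cj (s * x * s⁻¹ * x⁻¹))) : Psh s x L L' := by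
  subst hL hL'
  exact Psh.mk A₁ A₂ t t' s x h

private theorem Mul_cj (q q' : G) (t : Tok G) : Tok.cj q (Tok.cj q' t) = Tok.cj (q * q') t := by
  cases t with
  | pt c =>
    show Tok.pt _ = Tok.pt _
    congr 1
    group
  | hd a b =>
    show Tok.hd _ _ = Tok.hd _ _
    congr 1 <;> group

private theorem Mul_cj1 (t : Tok G) : Tok.cj 1 t = t := by
  cases t with
  | pt c =>
    show Tok.pt _ = Tok.pt _
    congr 1
    group
  | hd a b =>
    show Tok.hd _ _ = Tok.hd _ _
    congr 1 <;> group

private theorem Mul_map (q q' q'' : G) (h : q * q' = q'') (A : List (Tok G)) :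
    A.map (Tok.cj q'') = (A.map (Tok.cj q')).map (Tok.cj q) := by
  rw [List.map_map]
  apply List.map_congr_left
  intro t _
  show _ = Tok.cj q (Tok.cj q' t)
  rw [Mul_cj, h]

end

/-- **Mul** -/
theorem thm_Mul : St_Mul := by
  intro G _
  refine ⟨?_, ?_⟩
  · intro s A A' h
    generalize hz : (1 : G) = z at h
    cases h with
    | mk A₁ A₂ t t' _ _ h =>
      subst hz
      have h1 : t' = t := by
        generalize hw : (1 : G) = w at h
        cases h with
        | pt c _ =>
          subst hw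
          congr 1
          group
        | ha a b _ =>
          subst hw
          congr 1
          group
        | hb a b _ =>
          subst hw
          congr 1 <;> group
      have h2 : s * 1 * s⁻¹ * 1⁻¹ = (1 : G) := by group
      rw [h1, h2]
      congr 2
      conv_rhs => rw [← List.map_id A₂]
      apply List.map_congr_left
      intro t _
      exact Mul_cj1 t
  · intro s x y A A' h
    generalize hz : x * y = z at h
    cases h with
    | mk A₁ A₂ t t' _ _ h =>
      cases h with
      | pt c _ =>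
        subst hz
        refine ⟨_, Psh.mk A₁ A₂ _ _ _ x (Lt.pt s x), ?_⟩
        refine Mul_psh (Mul_pt (c' := s * (x * y) * s⁻¹ * s * (s * (x * y) * s⁻¹)⁻¹) rfl ?_) rfl ?_
        rotate_left
        · congr 2
          exact Mul_map _ _ _ (by group) _
        · group
      | ha a b _ =>
        subst hz
        refine ⟨_, Psh.mk A₁ A₂ _ _ _ x (Lt.ha a b x), ?_⟩
        refine Mul_psh (Mul_ha (a' := a) (b' := b * a⁻¹ * b⁻¹ * (x * y) * (b * a⁻¹ * b⁻¹)⁻¹ * b)
          ?_ rfl ?_) rfl ?_
        rotate_left 2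
        · congr 2
          exact Mul_map _ _ _ (by group) _
        · group
        · group
      | hb a b _ =>
        subst hz
        refine ⟨_, Psh.mk A₁ A₂ _ _ _ x (Lt.hb a b x), ?_⟩
        refine Mul_psh (Mul_hb (a' := a * (b⁻¹ * (x * y) * b)⁻¹)
          (b' := b⁻¹ * (x * y) * b * (x * y)⁻¹ * b) ?_ ?_ ?_) rfl ?_
        rotate_left 3
        · congr 2
          exact Mul_map _ _ _ (by group) _
        · group
        · group
        · group

end Pool.Agent.SGF
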