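import Pool.Agent.SGF.St

/-!
# Campaign SGF, module One: a pair is pushed around a letter, in the group of families
-/

set_option autoImplicit false

namespace Pool.Agent.SGF

open Pool.Agent.HZ

private lemma one_ev_cj {G : Type} [Group G] {m : ℕ} (v : Fin m × Bool → G) (q : Fam G m)
    (hq : q v = 1) (t : Tok (Fam G m)) :
    Tok.map (ev v) (Tok.cj q t) = Tok.map (ev v) t := by
  have e1 : ev v q = 1 := hq
  cases t with
  | pt c => simp [Tok.cj, Tok.map, map_mul, map_inv, e1]
  | hd a b => simp [Tok.cj, Tok.map, map_mul, map_inv, e1]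

private lemma one_ents_cj {G : Type} [Group G] (q W : G) (t : Tok G) (h : W ∈ (Tok.cj q t).ents) :
    ∃ y ∈ t.ents, W = q * y * q⁻¹ := by
  cases t with
  | pt c =>
      simp only [Tok.cj, Tok.map, Tok.ents, List.mem_singleton] at h
      exact ⟨c, by simp [Tok.ents], h⟩
  | hd a b =>
      simp only [Tok.cj, Tok.map, Tok.ents, List.mem_cons, List.not_mem_nil, or_false] at h
      rcases h with h | h
      · exact ⟨a, by simp [Tok.ents], h⟩
      · exact ⟨b, by simp [Tok.ents], h⟩

/-- **Module One.** -/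
theorem thm_One (hMul : St_Mul) (hBlk : St_Blk) (hPol : St_Pol) : St_One := by
  intro G _ m d T p q Z hT hp hq s hs
  obtain ⟨-, -, hPol3⟩ := hPol
  obtain ⟨-, -, hmul, hinv, hmono⟩ := hPol3 (G := G) (m := m)
  obtain ⟨t, ht, hst⟩ := List.mem_flatMap.1 hs
  obtain ⟨T₁, T₂, rfl⟩ := List.append_of_mem ht
  have htd : ∀ W ∈ t.ents, Deg d W := hT t (by simp)
  have hx : Deg (d + d) (p * q) := hmul _ _ _ _ hp hq
  -- the letter, the new token
  have key : ∃ t' : Tok (Fam G m), Lt t s (p * q) t' ∧ Deg (3 * d) s ∧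
      (∀ W ∈ t'.ents, Deg (21 * d) W) ∧
      ∀ v, p v * q v = 1 → Tok.map (ev v) t' = Tok.map (ev v) t := by
    cases t with
    | pt c =>
        have hc : Deg d c := htd c (by simp [Tok.ents])
        simp only [Tok.ltr, List.mem_singleton] at hst
        subst hst
        refine ⟨_, Lt.pt s (p * q), hmono _ _ _ (by omega) hc, ?_, ?_⟩
        · intro W hW
          simp only [Tok.ents, List.mem_singleton] at hW
          subst hW
          exact hmono _ _ _ (by omega) (hmul _ _ _ _ (hmul _ _ _ _ (hmul _ _ _ _ (hmul _ _ _ _ hc hx)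
            (hinv _ _ hc)) hc) (hinv _ _ (hmul _ _ _ _ (hmul _ _ _ _ hc hx) (hinv _ _ hc))))
        · intro v hv
          have e1 : ev v p * ev v q = 1 := hv
          have e2 : (ev v q)⁻¹ * (ev v p)⁻¹ = 1 := by rw [← mul_inv_rev, e1, inv_one]
          simp [Tok.map, map_mul, map_inv, e1, e2]
    | hd a b =>
        have ha : Deg d a := htd a (by simp [Tok.ents])
        have hb : Deg d b := htd b (by simp [Tok.ents])
        have hs3 : Deg (d + d + d) (b * a⁻¹ * b⁻¹) :=
          hmul _ _ _ _ (hmul _ _ _ _ hb (hinv _ _ ha)) (hinv _ _ hb)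
        simp only [Tok.ltr, List.mem_cons, List.not_mem_nil, or_false] at hst
        rcases hst with rfl | rfl
        · refine ⟨_, Lt.ha a b (p * q), hmono _ _ _ (by omega) hs3, ?_, ?_⟩
          · intro W hW
            simp only [Tok.ents, List.mem_cons, List.not_mem_nil, or_false] at hW
            rcases hW with rfl | rfl
            · exact hmono _ _ _ (by omega) ha
            · exact hmono _ _ _ (by omega) (hmul _ _ _ _ (hmul _ _ _ _ (hmul _ _ _ _ hs3 hx)
                (hinv _ _ hs3)) hb)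
          · intro v hv
            have e1 : ev v p * ev v q = 1 := hv
            simp [Tok.map, map_mul, map_inv, e1]
        · refine ⟨_, Lt.hb a b (p * q), hmono _ _ _ (by omega) (hinv _ _ hb), ?_, ?_⟩
          · intro W hW
            simp only [Tok.ents, List.mem_cons, List.not_mem_nil, or_false] at hW
            rcases hW with rfl | rfl
            · exact hmono _ _ _ (by omega) (hmul _ _ _ _ ha (hinv _ _ (hmul _ _ _ _ (hmul _ _ _ _
                (hinv _ _ hb) hx) hb)))
            · exact hmono _ _ _ (by omega) (hmul _ _ _ _ (hmul _ _ _ _ (hmul _ _ _ _ (hmul _ _ _ _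
                (hinv _ _ hb) hx) hb) (hinv _ _ hx)) hb)
          · intro v hv
            have e1 : ev v p * ev v q = 1 := hv
            have e2 : (ev v q)⁻¹ * (ev v p)⁻¹ = 1 := by rw [← mul_inv_rev, e1, inv_one]
            simp [Tok.map, map_mul, map_inv, e1, e2]
  obtain ⟨t', hL, hsd, hdt', hev⟩ := key
  have hsx : Deg (3 * d + (d + d) + 3 * d + (d + d)) (s * (p * q) * s⁻¹ * (p * q)⁻¹) :=
    hmul _ _ _ _ (hmul _ _ _ _ (hmul _ _ _ _ hsd hx) (hinv _ _ hsd)) (hinv _ _ hx)
  refine ⟨T₁ ++ t' :: T₂.map (Tok.cj (s * (p * q) * s⁻¹ * (p * q)⁻¹)), ?_, ?_, ?_, ?_, ?_⟩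
  · have h := hBlk.1 s (T₁ ++ t :: T₂)
      (T₁ ++ t' :: T₂.map (Tok.cj (s * (p * q) * s⁻¹ * (p * q)⁻¹))) [p, q] Z
      (by
        have e : [p, q].prod = p * q := by simp
        rw [e]
        exact Psh.mk T₁ T₂ t t' s (p * q) hL)
    simpa using h
  · intro u hu W hW
    simp only [List.mem_append, List.mem_cons, List.mem_map] at hu
    rcases hu with hu | rfl | ⟨u', hu', rfl⟩
    · exact hmono _ _ _ (by omega) (hT u (by simp [hu]) W hW)
    · exact hdt' W hW
    · obtain ⟨y, hy, rfl⟩ := one_ents_cj _ _ _ hW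
      have hyd : Deg d y := hT u' (by simp [hu']) y hy
      exact hmono _ _ _ (by omega) (hmul _ _ _ _ (hmul _ _ _ _ hsx hyd) (hinv _ _ hsx))
  · exact hmono _ _ _ (by omega) (hmul _ _ _ _ (hmul _ _ _ _ hsd hp) (hinv _ _ hsd))
  · exact hmono _ _ _ (by omega) (hmul _ _ _ _ (hmul _ _ _ _ hsd hq) (hinv _ _ hsd))
  · intro v hv
    have hq1 : (s * (p * q) * s⁻¹ * (p * q)⁻¹) v = 1 := by
      have e1 : (p * q) v = 1 := hv
      have e2 : (s * (p * q) * s⁻¹ * (p * q)⁻¹) v = s v * (p * q) v * (s v)⁻¹ * ((p * q) v)⁻¹ := rfl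
      rw [e2, e1]; simp
    simp only [List.map_append, List.map_cons, List.map_map]
    congr 1
    congr 1
    · exact hev v hv
    · apply List.map_congr_left
      intro u _
      exact one_ev_cj v _ hq1 u

end Pool.Agent.SGF
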