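import Pool.Agent.SGF.D1
import Pool.Agent.HZ.RedA

/-!
# SGF / Pat: modulo the kernel of `f` every mapping class comes from the subsurface
-/

set_option autoImplicit false

namespace Pool.Agent.SGF

open Matrix Module Pool.Agent.HZ

variable {g m n k : ℕ}

/-- conjugate generators are equal -/
theorem Pat_conj (a b : Fin n) (h : IsConj (gx a : F g m n) (gx b)) : a = b := by
  classical
  let f : F g m n →* Multiplicative ℤ := FreeGroup.lift fun
    | Gen.a _ => 1
    | Gen.b _ => 1
    | Gen.c _ => 1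
    | Gen.x i => if i = b then Multiplicative.ofAdd 1 else 1
  have h1 : f (gx a) = f (gx b) := by
    have h2 := f.map_isConj h
    rwa [isConj_iff_eq] at h2
  have h3 : f (gx b) = Multiplicative.ofAdd 1 := by simp [f, gx]
  have h4 : f (gx a) = if a = b then Multiplicative.ofAdd 1 else 1 := by simp [f, gx]
  by_contra hab
  rw [if_neg hab] at h4
  rw [h3, h4] at h1
  exact absurd h1 (by decide)

theorem Pat_incl_x (s : Fin k → Fin n) (j : Fin k) : incl s (gx j : F g m k) = gx (s j) := by
  simp [incl, gx]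

theorem Pat_incl_c (s : Fin k → Fin n) (i : Fin m) : incl s (gc i : F g m k) = gc i := by
  simp [incl, gc]

theorem Pat_incl_a (s : Fin k → Fin n) (i : Fin g) : incl s (ga i : F g m k) = ga i := by
  simp [incl, ga]

theorem Pat_incl_b (s : Fin k → Fin n) (i : Fin g) : incl s (gb i : F g m k) = gb i := by
  simp [incl, gb]

theorem Pat_pat_x (s : Fin n → Option (Fin k)) (i : Fin n) :
    pat s (gx i : F g m n) = (s i).elim 1 gx := by
  simp [pat, gx]

theorem Pat_pat_c (s : Fin n → Option (Fin k)) (i : Fin m) : pat s (gc i : F g m n) = gc i := by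
  simp [pat, gc]

theorem Pat_pat_a (s : Fin n → Option (Fin k)) (i : Fin g) : pat s (ga i : F g m n) = ga i := by
  simp [pat, ga]

theorem Pat_pat_b (s : Fin n → Option (Fin k)) (i : Fin g) : pat s (gb i : F g m n) = gb i := by
  simp [pat, gb]

/-- two homomorphisms which agree on the generators -/
theorem Pat_ext {H : Type} [Group H] (f h : F g m n →* H) (ha : ∀ i, f (ga i) = h (ga i))
    (hb : ∀ i, f (gb i) = h (gb i)) (hc : ∀ i, f (gc i) = h (gc i))
    (hx : ∀ i, f (gx i) = h (gx i)) (y : F g m n) : f y = h y := by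
  have h1 : f = h := by
    refine FreeGroup.ext_hom _ _ fun i => ?_
    cases i with
    | a j => exact ha j
    | b j => exact hb j
    | c j => exact hc j
    | x j => exact hx j
  rw [h1]

/-- the boundary curve of the subsurface -/
theorem Pat_bdry (T : Finset (Fin n)) (hT : T.card = k) (s : Fin n → Option (Fin k))
    (hs1 : ∀ j, s (T.orderEmbOfFin hT j) = some j) (hs2 : ∀ i ∉ T, s i = none) :
    pat s (bdry g m n) = bdry g m k := by
  classical
  subst hT
  have h1 : ((List.finRange n).map fun i => ((s i).elim 1 gx : F g m T.card)).prod =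
      ((List.finRange T.card).map gx).prod := by
    have h2 : ∀ L : List (Fin n), (L.map fun i => ((s i).elim 1 gx : F g m T.card)).prod =
        ((L.filter fun i => decide (i ∈ T)).map fun i => ((s i).elim 1 gx : F g m T.card)).prod := by
      intro L
      induction L with
      | nil => rfl
      | cons i L ih =>
        by_cases hi : i ∈ T
        · rw [List.filter_cons_of_pos (by simpa using hi), List.map_cons, List.map_cons,
            List.prod_cons, List.prod_cons, ih]
        · rw [List.filter_cons_of_neg (by simpa using hi), List.map_cons, List.prod_cons, ih,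
            hs2 i hi]
          simp
    rw [h2, ← sort_eq_filter, ← Finset.listMap_orderEmbOfFin_finRange T rfl, List.map_map]
    congr 1
    apply List.map_congr_left
    intro j _
    simp [hs1]
  have h3 : pat s (((List.finRange g).map fun j => ga j * gb j * (ga j)⁻¹ * (gb j)⁻¹).prod : F g m n) =
      (((List.finRange g).map fun j => ga j * gb j * (ga j)⁻¹ * (gb j)⁻¹).prod : F g m T.card) := by
    rw [map_list_prod, List.map_map]
    congr 1
  have h4 : pat s (((List.finRange m).map gc).prod : F g m n) =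
      (((List.finRange m).map gc).prod : F g m T.card) := by
    rw [map_list_prod, List.map_map]
    congr 1
  have h5 : pat s (((List.finRange n).map gx).prod : F g m n) =
      (((List.finRange T.card).map gx).prod : F g m T.card) := by
    rw [map_list_prod, List.map_map, ← h1]
    congr 1
    apply List.map_congr_left
    intro j _
    simp [Pat_pat_x]
  rw [bdry, bdry, map_mul, map_mul, h3, h4, h5]

/-- a homomorphism which maps the generators of `KK T` to elements of a normal subgroup -/
theorem Pat_KK {H : Type} [Group H] (f : F g m n →* H) (N : Subgroup H) [N.Normal]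
    (T : Finset (Fin n)) (h : ∀ i ∉ T, f (gx i) ∈ N) (y : F g m n) (hy : y ∈ KK T) : f y ∈ N := by
  have h1 : (KK T : Subgroup (F g m n)) ≤ N.comap f := by
    refine Subgroup.normalClosure_le_normal ?_
    rintro x ⟨i, hi, rfl⟩
    exact h i hi
  exact h1 hy

instance Pat_normal (T : Finset (Fin n)) : (KK T : Subgroup (F g m n)).Normal :=
  Subgroup.normalClosure_normal

theorem Pat_mem {H : Type} [Group H] {N : Subgroup H} (hN : N.Normal) {a b : H} (h : IsConj a b)
    (hb : b ∈ N) : a ∈ N := by
  obtain ⟨c, hc⟩ := isConj_iff.1 h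
  have h1 := hN.conj_mem b hb c⁻¹
  have e : c⁻¹ * b * c⁻¹⁻¹ = a := by
    rw [← hc]
    group
  rwa [e] at h1

theorem thm_Pat (hGrp : St_Grp) (hKap : St_Kap) : St_Pat := by
  classical
  intro g m n Q _ f S hf φ q hφ hq
  obtain ⟨gmul, ginv, -, mmul, minv, -, fincl, fpat, patincl⟩ := hGrp (g := g) (m := m) (n := n)
  obtain ⟨σ, hσ⟩ := hφ.mov
  -- the punctures which are mapped to those in `S`
  obtain ⟨T, hTdef⟩ : ∃ T : Finset (Fin n), T = S.map σ.symm.toEmbedding := ⟨_, rfl⟩
  have hTmem : ∀ i, i ∈ T ↔ σ i ∈ S := by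
    intro i
    rw [hTdef, Finset.mem_map_equiv, Equiv.symm_symm]
  have hT : T.card = S.card := by rw [hTdef, Finset.card_map]
  obtain ⟨t, ht⟩ : ∃ t : Fin S.card ↪o Fin n, t = T.orderEmbOfFin hT := ⟨_, rfl⟩
  have htT : ∀ j, t j ∈ T := fun j => by
    rw [ht]
    exact Finset.orderEmbOfFin_mem T hT j
  have htT' : ∀ i ∈ T, ∃ j, t j = i := by
    intro i hi
    have h1 : i ∈ Set.range (T.orderEmbOfFin hT) := by
      rw [Finset.range_orderEmbOfFin]
      exact hi
    rw [ht]
    exact h1
  obtain ⟨sS, hsS⟩ : ∃ sS : Fin S.card ↪o Fin n, sS = S.orderEmbOfFin rfl := ⟨_, rfl⟩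
  have hsSm : ∀ j, sS j ∈ S := fun j => by
    rw [hsS]
    exact Finset.orderEmbOfFin_mem S rfl j
  have hsS' : ∀ i ∈ S, ∃ j, sS j = i := by
    intro i hi
    have h1 : i ∈ Set.range (S.orderEmbOfFin rfl) := by
      rw [Finset.range_orderEmbOfFin]
      exact hi
    rw [hsS]
    exact h1
  obtain ⟨κS, hκS, hκS'⟩ := hKap (g := g) (m := m) (D1_card S) sS sS.strictMono
  obtain ⟨κT, hκT, hκT'⟩ := hKap (g := g) (m := m) (D1_card S) t t.strictMono
  obtain ⟨κ, hκdef⟩ : ∃ κ : F g m n ≃* F g m n, κ = κT.symm.trans κS := ⟨_, rfl⟩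
  have hκ : IsMotion κ := by
    rw [hκdef]
    exact mmul κS κT.symm hκS (minv κT hκT)
  have hκt : ∀ y : F g m S.card, κ (incl t y) = inc S y := by
    intro y
    rw [hκdef, MulEquiv.trans_apply, ← hκT', MulEquiv.symm_apply_apply, hκS', inc, hsS]
  obtain ⟨τ', hτ'⟩ := hκ.1.mov
  have hτ'T : ∀ i, τ' i ∈ S ↔ i ∈ T := by
    have h1 : ∀ j, τ' (t j) = sS j := by
      intro j
      have h2 := hτ' (t j)
      rw [← Pat_incl_x (g := g) (m := m) t j, hκt, inc, Pat_incl_x, ← hsS] at h2
      exact (Pat_conj _ _ h2).symm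
    intro i
    constructor
    · intro hi
      obtain ⟨j, hj⟩ := hsS' _ hi
      rw [← h1 j] at hj
      rw [← τ'.injective hj]
      exact htT j
    · intro hi
      obtain ⟨j, rfl⟩ := htT' i hi
      rw [h1]
      exact hsSm j
  obtain ⟨δ, hδdef⟩ : ∃ δ : F g m n ≃* F g m n, δ = φ.trans κ.symm := ⟨_, rfl⟩
  have hκδ : ∀ y, κ (δ y) = φ y := by
    intro y
    rw [hδdef, MulEquiv.trans_apply, MulEquiv.apply_symm_apply]
  have hδ : IsMC δ := by
    rw [hδdef]
    exact gmul κ.symm φ (ginv κ hκ.1) hφ
  obtain ⟨τ, hτ⟩ := hδ.mov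
  have hτT : ∀ i, τ i ∈ T ↔ i ∈ T := by
    intro i
    have h1 : IsConj (φ (gx i)) (gx (τ' (τ i))) := by
      have h2 := κ.toMonoidHom.map_isConj (hτ i)
      have h3 : IsConj (φ (gx i)) (κ (gx (τ i))) := by
        rw [← hκδ]
        exact h2
      exact h3.trans (hτ' (τ i))
    have h4 : σ i = τ' (τ i) := Pat_conj _ _ ((hσ i).symm.trans h1)
    rw [hTmem i, h4, hτ'T]
  -- the congruence
  have hδK : ∀ y ∈ (KK T : Subgroup (F g m n)), δ y ∈ (KK T : Subgroup (F g m n)) := by
    intro y hy
    refine Pat_KK δ.toMonoidHom (KK T) T (fun i hi => ?_) y hy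
    refine Pat_mem (Pat_normal T) (hτ i) (Subgroup.subset_normalClosure ⟨τ i, ?_, rfl⟩)
    rw [hτT]
    exact hi
  have hδK' : ∀ y ∈ (KK T : Subgroup (F g m n)), δ.symm y ∈ (KK T : Subgroup (F g m n)) := by
    intro y hy
    refine Pat_KK δ.symm.toMonoidHom (KK T) T (fun i hi => ?_) y hy
    have h1 : IsConj (δ.symm (gx i)) (gx (τ.symm i)) := by
      have h2 := (δ.symm.toMonoidHom.map_isConj (hτ (τ.symm i))).symm
      rw [Equiv.apply_symm_apply] at h2
      have e : δ.symm.toMonoidHom (δ (gx (τ.symm i))) = gx (τ.symm i) :=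
        MulEquiv.symm_apply_apply δ _
      rw [e] at h2
      exact h2
    refine Pat_mem (Pat_normal T) h1 (Subgroup.subset_normalClosure ⟨τ.symm i, ?_, rfl⟩)
    rw [← hτT, Equiv.apply_symm_apply]
    exact hi
  obtain ⟨π, hπ⟩ : ∃ π : F g m n →* F g m n ⧸ (KK T : Subgroup (F g m n)),
      π = QuotientGroup.mk' (KK T) := ⟨_, rfl⟩
  have hπ1 : ∀ y z, π y = π z ↔ y⁻¹ * z ∈ (KK T : Subgroup (F g m n)) := by
    intro y z
    rw [hπ]
    exact QuotientGroup.eq
  obtain ⟨s, hs⟩ : ∃ s : Fin n → Option (Fin S.card),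
      s = fun i => if h : ∃ j, t j = i then some h.choose else none := ⟨_, rfl⟩
  have hs1 : ∀ j, s (t j) = some j := by
    intro j
    have h1 : ∃ j', t j' = t j := ⟨j, rfl⟩
    rw [hs]
    simp only [h1, dif_pos]
    exact congrArg some (t.injective h1.choose_spec)
  have hs2 : ∀ i ∉ T, s i = none := by
    intro i hi
    have h1 : ¬ ∃ j, t j = i := by
      rintro ⟨j, rfl⟩
      exact hi (htT j)
    rw [hs]
    simp only [h1, dif_neg, not_false_eq_true]
  have hA : ∀ y, π (incl t (pat s y)) = π y := by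
    intro y
    refine Pat_ext ((π.comp (incl t)).comp (pat s)) π ?_ ?_ ?_ ?_ y
    · intro i
      rw [MonoidHom.comp_apply, MonoidHom.comp_apply, Pat_pat_a, Pat_incl_a]
    · intro i
      rw [MonoidHom.comp_apply, MonoidHom.comp_apply, Pat_pat_b, Pat_incl_b]
    · intro i
      rw [MonoidHom.comp_apply, MonoidHom.comp_apply, Pat_pat_c, Pat_incl_c]
    · intro i
      rw [MonoidHom.comp_apply, MonoidHom.comp_apply, Pat_pat_x]
      by_cases hi : i ∈ T
      · obtain ⟨j, rfl⟩ := htT' i hi
        rw [hs1, Option.elim_some, Pat_incl_x]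
      · rw [hs2 i hi, Option.elim_none, map_one, hπ1, inv_one, one_mul]
        exact Subgroup.subset_normalClosure ⟨i, hi, rfl⟩
  have hB : ∀ y z, π y = π z → π (δ y) = π (δ z) := by
    intro y z h
    rw [hπ1] at h ⊢
    have h1 := hδK _ h
    rwa [map_mul, map_inv] at h1
  have hB' : ∀ y z, π y = π z → π (δ.symm y) = π (δ.symm z) := by
    intro y z h
    rw [hπ1] at h ⊢
    have h1 := hδK' _ h
    rwa [map_mul, map_inv] at h1
  have hC : ∀ y z, π y = π z → pat s y = pat s z := by
    intro y z h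
    rw [hπ1] at h
    have h1 := Pat_KK (pat s) ⊥ T (fun i hi => by
      rw [Pat_pat_x, hs2 i hi, Option.elim_none]
      exact Subgroup.one_mem _) _ h
    rw [Subgroup.mem_bot, map_mul, map_inv, inv_mul_eq_one] at h1
    exact h1
  have hD : ∀ y z, π y = π z → f (κ y) = f (κ z) := by
    intro y z h
    rw [hπ1] at h
    have h1 := Pat_KK (f.comp κ.toMonoidHom) ⊥ T (fun i hi => by
      have h2 : IsConj (f (κ (gx i))) (f (gx (τ' i))) := f.map_isConj (hτ' i)
      rw [hf _ (by rw [hτ'T]; exact hi)] at h2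
      rw [Subgroup.mem_bot]
      exact (isConj_one_left.1 h2)) _ h
    rw [Subgroup.mem_bot, map_mul, map_inv, inv_mul_eq_one] at h1
    exact h1
  -- the mapping class of the subsurface
  let φ' : F g m S.card ≃* F g m S.card :=
    { toFun := fun y => pat s (δ (incl t y))
      invFun := fun y => pat s (δ.symm (incl t y))
      left_inv := by
        intro y
        show pat s (δ.symm (incl t (pat s (δ (incl t y))))) = y
        rw [hC _ _ (hB' _ _ (hA (δ (incl t y)))), MulEquiv.symm_apply_apply]
        exact patincl _ _ _ hs1 y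
      right_inv := by
        intro y
        show pat s (δ (incl t (pat s (δ.symm (incl t y))))) = y
        rw [hC _ _ (hB _ _ (hA (δ.symm (incl t y)))), MulEquiv.apply_symm_apply]
        exact patincl _ _ _ hs1 y
      map_mul' := by
        intro y z
        show pat s (δ (incl t (y * z))) = pat s (δ (incl t y)) * pat s (δ (incl t z))
        rw [map_mul, map_mul, map_mul] }
  have hφ' : ∀ y, φ' y = pat s (δ (incl t y)) := fun y => rfl
  refine ⟨φ', ⟨?_, ?_, ?_⟩, ?_, s, ?_⟩
  · have hb : pat s (bdry g m n) = bdry g m S.card :=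
      Pat_bdry T hT s (fun j => by rw [← ht]; exact hs1 j) hs2
    rw [hφ', ← hb, hC _ _ (hB _ _ (hA (bdry g m n))), hδ.bd]
  · intro i
    rw [hφ', Pat_incl_c]
    have h1 := (pat s).map_isConj (hδ.fix i)
    rw [Pat_pat_c] at h1
    exact h1
  · have h1 : ∀ j, ∃ j', t j' = τ (t j) := fun j => htT' _ ((hτT _).2 (htT j))
    choose σ' hσ' using h1
    have hinj : Function.Injective σ' := by
      intro a b hab
      apply t.injective
      apply τ.injective
      rw [← hσ', ← hσ', hab]
    refine ⟨Equiv.ofBijective σ' (Finite.injective_iff_bijective.1 hinj), fun j => ?_⟩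
    rw [hφ', Pat_incl_x, Equiv.ofBijective_apply]
    have h2 := (pat s).map_isConj (hτ (t j))
    rw [← hσ' j, Pat_pat_x, hs1, Option.elim_some] at h2
    exact h2
  · intro y
    have h1 : ∀ w, forget (κ.symm w) = forget w := (minv κ hκ).2
    rw [hφ', fpat, hδdef, MulEquiv.trans_apply, h1, hq, fincl]
  · intro w
    rw [hφ', ← hκt, hD _ _ (hA (δ (incl t (pat s w)))), hD _ _ (hB _ _ (hA w)), hκδ]

end Pool.Agent.SGF
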