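import Pool.Agent.SGF.St
import Pool.Agent.HZ.Space

/-!
# Campaign SGF, module Pol: degrees of words
-/

set_option autoImplicit false

namespace Pool.Agent.SGF

open Matrix Module Pool.Agent.HZ Helper12.Sc

private theorem Pol_V1 {G ι : Type} [Group G] {e : ι → G → ℂ} (he : Good e) (D : ℕ) (f : G → G)
    (hf : Pol D f) : ∀ F ∈ V1 e, (fun z => F (f z)) ∈ space e D := by
  induction hf with
  | const y => exact comp_const y
  | id => exact comp_id
  | inv => exact he.comp_inv
  | mul _ _ h₁ h₂ => exact he.comp_mul h₁ h₂
  | mono hde _ ih => exact fun F hF => space_mono e hde (ih F hF)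

private theorem Pol_inv {G : Type} [Group G] (D : ℕ) (f : G → G) (hf : Pol D f) :
    Pol D fun z => (f z)⁻¹ := by
  induction hf with
  | const y => exact Pol.const y⁻¹
  | id => exact Pol.inv
  | inv =>
    have h : (fun z : G => (z⁻¹)⁻¹) = fun z => z := by
      funext z
      exact inv_inv z
    rw [h]
    exact Pol.id
  | @mul d e f h _ _ h₁ h₂ =>
    have h3 : (fun z : G => (f z * h z)⁻¹) = fun z => (h z)⁻¹ * (f z)⁻¹ := by
      funext z
      exact mul_inv_rev _ _
    rw [h3, add_comm]
    exact Pol.mul h₂ h₁
  | mono hde _ ih => exact Pol.mono hde ih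

theorem thm_Pol : St_Pol := by
  refine ⟨?_, ?_, ?_⟩
  · intro G ι _ e he D d f hf F hF
    exact comp_space (Pol_V1 he D f hf) d F hF
  · intro G _ D f hf
    exact Pol_inv D f hf
  · intro G _ m
    refine ⟨?_, ?_, ?_, ?_, ?_⟩
    · intro y v k
      exact Pol.const y
    · intro k v k'
      by_cases h : k = k'
      · subst h
        have h1 : (fun z : G => Function.update v k z k) = fun z => z := by
          funext z
          exact Function.update_self k z v
        rw [h1]
        exact Pol.id
      · have h1 : (fun z : G => Function.update v k' z k) = fun _ => v k := by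
          funext z
          exact Function.update_of_ne h z v
        rw [h1]
        exact Pol.mono (Nat.zero_le 1) (Pol.const (v k))
    · intro d e W W' h₁ h₂ v k
      exact Pol.mul (h₁ v k) (h₂ v k)
    · intro d W h v k
      exact Pol_inv d _ (h v k)
    · intro d e W hde h v k
      exact Pol.mono hde (h v k)

end Pool.Agent.SGF
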