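import Pool.Agent.SGF.St
import Pool.Agent.HZ.RedE

/-!
# SGF: the reduction to a bounded number of moving punctures
-/

set_option autoImplicit false

namespace Pool.Agent.SGF

open Matrix Pool.Agent.HZ

theorem Red_traces {r g m n : ℕ} (Q : Set (F g m 0 ≃* F g m 0)) (ρ ρ' : F g m n →* GL (Fin r) ℂ)
    (h : ∀ x, (ρ' x : Matrix (Fin r) (Fin r) ℂ).trace = (ρ x : Matrix (Fin r) (Fin r) ℂ).trace)
    (hx : FinOrb Q ρ) : FinOrb Q ρ' := by
  refine Set.Finite.subset hx ?_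
  rintro χ ⟨φ, hφ, hq, rfl⟩
  exact ⟨φ, hφ, hq, funext fun γ => h (φ γ)⟩

/-- **Red**: the reduction to a bounded number of moving punctures. -/
theorem thm_Red (hMain : St_Main) (hD1 : St_D1) (hD2 : St_D2) (hLp : St_Lp) (hTrp : St_Trp) :
    St_Red := by
  intro r
  obtain ⟨N, hN⟩ := hMain r
  have key : ∀ (g m n : ℕ) (ρ : F g m n →* GL (Fin r) ℂ), HypQ ρ →
      ∃ S : Finset (Fin n), S.card ≤ N ∧ (∀ x ∈ KK S, Quasi (ρ x)) ∧
        (CRed ρ.range → Finite ((KK S).map ρ)) ∧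
        ∀ S' : Finset (Fin n), S ⊆ S' → ∀ Q : Set (F g m 0 ≃* F g m 0),
          FinOrb Q ρ ↔ FinOrb Q (ρ.comp (inc S')) := by
    intro g m n ρ hρ
    obtain ⟨-, hcred, hfg⟩ := hTrp r g m n
    obtain ⟨ρ', hcr, htr⟩ := hcred ρ
    have hρ' : HypQ ρ' := fun γ hγ => quasi_of_traces ρ ρ' htr γ (hρ γ hγ)
    obtain ⟨S, H, hS, hH, hnorm, hgen, hroot⟩ := hN g m n ρ' hρ'
    have hfin : Finite H := finite_of_roots ρ'.range H (hfg ρ') hH hnorm hroot hcr
    have hle : KK S ≤ H.comap ρ' := by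
      have hn : (H.comap ρ').Normal := by
        refine ⟨fun x hx y => ?_⟩
        rw [Subgroup.mem_comap] at hx ⊢
        rw [map_mul, map_mul, map_inv]
        exact hnorm _ ⟨y, rfl⟩ _ hx
      refine Subgroup.normalClosure_le_normal ?_
      rintro x ⟨i, hi, rfl⟩
      exact hgen i hi
    have hquasi : ∀ x ∈ KK S, Quasi (ρ x) := fun x hx =>
      quasi_of_traces ρ' ρ (fun y => (htr y).symm) x (fun z hz => hroot _ (hle hx) z hz)
    refine ⟨S, hS, hquasi, ?_, ?_⟩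
    · intro hc
      refine finite_of_roots ρ.range _ (hfg ρ) (Subgroup.map_le_range ρ _) ?_ ?_ hc
      · rintro _ ⟨y, rfl⟩ _ ⟨x, hx, rfl⟩
        refine ⟨y * x * y⁻¹, Subgroup.normalClosure_normal.conj_mem x hx y, ?_⟩
        rw [map_mul, map_mul, map_inv]
      · rintro _ ⟨x, hx, rfl⟩ z hz
        exact hquasi x hx z hz
    · intro S' hS' Q
      refine ⟨fun h => hD1 r g m n Q ρ S' h, fun h => ?_⟩
      have h1 : FinOrb Q (ρ'.comp (inc S')) :=
        Red_traces Q (ρ.comp (inc S')) (ρ'.comp (inc S')) (fun x => htr (inc S' x)) h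
      exact Red_traces Q ρ' ρ (fun y => (htr y).symm)
        (hD2 r g m n Q ρ' S' H hnorm (fun i hi => hgen i fun hc => hi (hS' hc)) h1)
  refine ⟨N, key, fun g m Q h n ρ hρ => ?_⟩
  obtain ⟨S, hS, -, -, hiff⟩ := key g m n ρ hρ
  exact (hiff S (Finset.Subset.refl S) Q).2
    (h S.card hS (ρ.comp (inc S)) fun γ hγ => hρ _ (hLp S γ hγ))

end Pool.Agent.SGF
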