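import Pool.Agent.SGF.St

/-!
# SGF / Snd: states in the orbit of the standard one are given by motions
-/

set_option autoImplicit false

namespace Pool.Agent.SGF

open Pool.Agent.HZ

section
variable {G H : Type} [Group G] [Group H]

private theorem Snd_cj_map (f : G →* H) (q : G) (t : Tok G) :
    (Tok.cj q t).map f = Tok.cj (f q) (t.map f) := by
  cases t <;> simp [Tok.cj, Tok.map]

private theorem Snd_Lt_map (f : G →* H) {t : Tok G} {s x : G} {t' : Tok G} (h : Lt t s x t') :
    Lt (t.map f) (f s) (f x) (t'.map f) := by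
  cases h with
  | pt =>
    have h1 := Lt.pt (f s) (f x)
    simpa [Tok.map] using h1
  | ha a b x =>
    have h1 := Lt.ha (f a) (f b) (f x)
    simpa [Tok.map] using h1
  | hb a b x =>
    have h1 := Lt.hb (f a) (f b) (f x)
    simpa [Tok.map] using h1

private theorem Snd_Psh_map (f : G →* H) {s x : G} {A A' : List (Tok G)} (h : Psh s x A A') :
    Psh (f s) (f x) (A.map (Tok.map f)) (A'.map (Tok.map f)) := by
  cases h with
  | mk A₁ A₂ t t' s x h =>
    have h1 := Psh.mk (A₁.map (Tok.map f)) (A₂.map (Tok.map f)) _ _ _ _ (Snd_Lt_map f h)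
    have e0 : (A₂.map (Tok.cj (s * x * s⁻¹ * x⁻¹))).map (Tok.map f) =
        (A₂.map (Tok.map f)).map (Tok.cj (f (s * x * s⁻¹ * x⁻¹))) := by
      rw [List.map_map, List.map_map]
      exact List.map_congr_left fun t _ => Snd_cj_map f _ t
    rw [List.map_append, List.map_cons, List.map_append, List.map_cons, e0]
    have e : f (s * x * s⁻¹ * x⁻¹) = f s * f x * (f s)⁻¹ * (f x)⁻¹ := by simp
    rw [e]
    exact h1

/-- the moves are natural -/
theorem Snd_move_map (f : G →* H) {X Y : List (Tok G) × List G} (h : SMove X Y) :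
    SMove (mapS f X) (mapS f Y) := by
  cases h with
  | br A M M' h => exact SMove.br _ _ _ (h.map f)
  | ps A A' s x M h =>
    have h1 := SMove.ps _ _ _ _ (M.map f) (Snd_Psh_map f h)
    have e : mapS f (A', s * x * s⁻¹ :: M) =
        (A'.map (Tok.map f), f s * f x * (f s)⁻¹ :: M.map f) := by simp [mapS]
    rw [e]
    exact h1

omit [Group G] [Group H] in
theorem Snd_comp {K : Type} (f : G → H) (f' : K → G) (X : List (Tok K) × List K) :
    mapS f (mapS f' X) = mapS (f ∘ f') X := by
  simp only [mapS, List.map_map, Prod.mk.injEq, and_true]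
  apply List.map_congr_left
  intro t _
  cases t <;> rfl

theorem Snd_id {G : Type} (X : List (Tok G) × List G) : mapS (id : G → G) X = X := by
  obtain ⟨A, M⟩ := X
  simp only [mapS, Prod.mk.injEq, List.map_id, and_true]
  conv_rhs => rw [← List.map_id A]
  apply List.map_congr_left
  intro t _
  cases t <;> rfl

end

variable {g m n : ℕ}

theorem Snd_memh (j : Fin g) : Tok.hd (ga j) (gb j) ∈ stA g m n := by
  rw [stA, List.mem_append]
  exact Or.inl (List.mem_map.2 ⟨j, List.mem_finRange j, rfl⟩)

theorem Snd_memc (i : Fin m) : Tok.pt (gc i) ∈ stA g m n := by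
  rw [stA, List.mem_append]
  exact Or.inr (List.mem_map.2 ⟨i, List.mem_finRange i, rfl⟩)

/-- the boundary curve of the standard state -/
theorem Snd_bd : bd (std g m n) = bdry g m n := by
  simp only [bd, std, stA, stM, bdry, List.map_append, List.prod_append, List.map_map]
  rfl

theorem Snd_perm {C : Type} {n : ℕ} (f h : Fin n → C)
    (hp : ((List.finRange n).map f).Perm ((List.finRange n).map h)) :
    ∃ σ : Equiv.Perm (Fin n), ∀ i, f i = h (σ i) := by
  classical
  have h1 : (Finset.univ : Finset (Fin n)).val.map f = (Finset.univ : Finset (Fin n)).val.map h := by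
    have e : ∀ u : Fin n → C, (Finset.univ : Finset (Fin n)).val.map u =
        (((List.finRange n).map u : List C) : Multiset C) := by
      intro u
      rfl
    rw [e, e]
    exact Multiset.coe_eq_coe.2 hp
  have h2 : ∀ c : C, Nonempty ({i // f i = c} ≃ {i // h i = c}) := by
    intro c
    rw [← Fintype.card_eq, Fintype.card_subtype, Fintype.card_subtype]
    have h3 := congrArg (Multiset.count c) h1
    rw [Multiset.count_map, Multiset.count_map] at h3
    have e3 : ∀ u : Fin n → C, (Finset.univ.filter fun i => u i = c).card =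
        ((Finset.univ : Finset (Fin n)).val.filter fun i => c = u i).card := by
      intro u
      rw [Finset.card_def, Finset.filter_val]
      congr 1
      apply Multiset.filter_congr
      intro i _
      exact eq_comm
    rw [e3, e3]
    exact h3
  let σ : Fin n ≃ Fin n := (Equiv.sigmaFiberEquiv f).symm.trans
    ((Equiv.sigmaCongrRight fun c => (h2 c).some).trans (Equiv.sigmaFiberEquiv h))
  refine ⟨σ, fun i => ?_⟩
  have h4 : h (σ i) = f i := ((h2 (f i)).some ⟨i, rfl⟩).2
  exact h4.symm

theorem thm_Snd (hBas : St_Bas) (hAut : St_Aut) (hCls : St_Cls) : St_Snd := by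
  intro g m n X hX
  have h1 : ∃ φ : F g m n ≃* F g m n, mapS φ (std g m n) = X := by
    clear hBas hCls
    induction hX with
    | refl => exact ⟨MulEquiv.refl _, Snd_id _⟩
    | @tail Y Z _ hs ih =>
      obtain ⟨φ, rfl⟩ := ih
      have h2 := Snd_move_map φ.symm.toMonoidHom hs
      have e : mapS φ.symm.toMonoidHom (mapS φ (std g m n)) = std g m n := by
        rw [Snd_comp]
        have e1 : (φ.symm.toMonoidHom : F g m n → F g m n) ∘ φ = id := by
          funext y
          exact φ.symm_apply_apply y
        rw [e1, Snd_id]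
      rw [e] at h2
      obtain ⟨ψ, hψ⟩ := hAut _ h2
      refine ⟨ψ.trans φ, ?_⟩
      have e2 : (⇑(ψ.trans φ) : F g m n → F g m n) = φ ∘ ψ := rfl
      rw [e2, ← Snd_comp, hψ, Snd_comp]
      have e3 : (φ : F g m n → F g m n) ∘ φ.symm.toMonoidHom = id := by
        funext y
        exact φ.apply_symm_apply y
      rw [e3, Snd_id]
  obtain ⟨φ, rfl⟩ := h1
  obtain ⟨c1, c2, c3⟩ := hCls _ _ hX
  refine ⟨φ, ⟨⟨?_, ?_, ?_⟩, ?_⟩, rfl⟩
  · have h2 := (hBas (G := F g m n) (H := F g m n)).2.2.2.2 _ _ hX
    have h3 : φ (bd (std g m n)) = bd (mapS φ (std g m n)) := by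
      simp only [bd, mapS, map_mul, map_list_prod, List.map_map]
      congr 2
      apply List.map_congr_left
      intro t _
      cases t <;> simp [Tok.map, Tok.val]
    rw [← Snd_bd, h3, h2]
  · intro i
    have h2 : (stA g m n).map (Tok.cls ∘ Tok.map φ) = (stA g m n).map Tok.cls := by
      rw [← List.map_map]
      exact c2
    rw [List.map_inj_left] at h2
    have h3 := h2 (Tok.pt (gc i)) (Snd_memc i)
    simp only [Function.comp_apply, Tok.map, Tok.cls, Option.some.injEq,
      ConjClasses.mk_eq_mk_iff_isConj] at h3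
    exact h3
  · have h2 : ((List.finRange n).map fun i => ConjClasses.mk (φ (gx i : F g m n))).Perm
        ((List.finRange n).map fun i => ConjClasses.mk (gx i : F g m n)) := by
      have h3 := c1
      simp only [mapS, std, stM, List.map_map] at h3
      exact h3
    obtain ⟨σ, hσ⟩ := Snd_perm _ _ h2
    exact ⟨σ, fun i => ConjClasses.mk_eq_mk_iff_isConj.1 (hσ i)⟩
  · have hx : ∀ x ∈ (std g m n).2, (forget : F g m n →* F g m 0) x = 1 := by
      intro x hx
      simp only [std, stM, List.mem_map] at hx
      obtain ⟨i, _, rfl⟩ := hx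
      simp [forget, gx]
    obtain ⟨d1, d2⟩ := c3 forget hx
    have h2 : (stA g m n).map (Tok.map forget ∘ Tok.map φ) = (stA g m n).map (Tok.map forget) := by
      rw [← List.map_map]
      exact d2
    rw [List.map_inj_left] at h2
    have h3 : (forget.comp φ.toMonoidHom : F g m n →* F g m 0) = forget := by
      refine FreeGroup.ext_hom _ _ fun s => ?_
      cases s with
      | a j =>
        have h4 := h2 (Tok.hd (ga j) (gb j)) (Snd_memh j)
        simp only [Function.comp_apply, Tok.map, Tok.hd.injEq] at h4
        exact h4.1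
      | b j =>
        have h4 := h2 (Tok.hd (ga j) (gb j)) (Snd_memh j)
        simp only [Function.comp_apply, Tok.map, Tok.hd.injEq] at h4
        exact h4.2
      | c i =>
        have h4 := h2 (Tok.pt (gc i)) (Snd_memc i)
        simp only [Function.comp_apply, Tok.map, Tok.pt.injEq] at h4
        exact h4
      | x i =>
        have h4 := d1 (φ (gx i)) (by simp [mapS, std, stM])
        have h5 := hx (gx i) (by simp [std, stM])
        show forget (φ (gx i)) = forget (gx i)
        rw [h4, h5]
    intro y
    exact DFunLike.congr_fun h3 y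

end Pool.Agent.SGF
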