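import Pool.Agent.SGF.St

/-!
# Campaign SGF, module Uni: universal words
-/

set_option autoImplicit false

namespace Pool.Agent.SGF

open Pool.Agent.HZ

section
variable {G : Type} [Group G] {m : ℕ}

/-- the list of the members of the pairs -/
private def Uni_fl (L : List (Fin m × Fam G m × Fam G m)) : List (Fam G m) :=
  (L.map fun t => [t.2.1, t.2.2]).flatten

omit [Group G] in
private theorem Uni_fl_append (L L' : List (Fin m × Fam G m × Fam G m)) :
    Uni_fl (L ++ L') = Uni_fl L ++ Uni_fl L' := by
  simp [Uni_fl]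

omit [Group G] in
private theorem Uni_fl_cons (t : Fin m × Fam G m × Fam G m)
    (L : List (Fin m × Fam G m × Fam G m)) :
    Uni_fl (t :: L) = t.2.1 :: t.2.2 :: Uni_fl L := by
  simp [Uni_fl]

omit [Group G] in
private theorem Uni_fl_nil : Uni_fl ([] : List (Fin m × Fam G m × Fam G m)) = [] := rfl

/-- the action of a pair on another one -/
private def Uni_be (p q : Fam G m) (t : Fin m × Fam G m × Fam G m) :
    Fin m × Fam G m × Fam G m :=
  (t.1, p * (q * t.2.1 * q⁻¹) * p⁻¹, p * (q * t.2.2 * q⁻¹) * p⁻¹)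

private theorem Uni_fl_be (p q : Fam G m) (L : List (Fin m × Fam G m × Fam G m)) :
    Uni_fl (L.map (Uni_be p q)) =
      ((Uni_fl L).map fun x => q * x * q⁻¹).map fun x => p * x * p⁻¹ := by
  induction L with
  | nil => rfl
  | cons t L ih =>
    rw [List.map_cons, Uni_fl_cons, ih, Uni_fl_cons]
    rfl

/-- a pair moves to the end of the list unchanged -/
private theorem Uni_move (p q : Fam G m) (i : Fin m) (L : List (Fin m × Fam G m × Fam G m)) :
    BReach (p :: q :: Uni_fl L) (Uni_fl (L.map (Uni_be p q) ++ [(i, p, q)])) := by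
  rw [Uni_fl_append, Uni_fl_be, Uni_fl_cons, Uni_fl_nil]
  have h1 := (move_right q (Uni_fl L)).cons p
  have h2 := (move_right p ((Uni_fl L).map fun x => q * x * q⁻¹)).append_right [q]
  rw [List.cons_append] at h2
  have h3 := h1.trans h2
  rw [List.append_assoc] at h3
  exact h3

private theorem Uni_prod_deg (hPol : St_Pol) (d : ℕ) (L : List (Fam G m))
    (h : ∀ w ∈ L, Deg d w) : Deg (L.length * d) L.prod := by
  obtain ⟨-, -, hP⟩ := hPol
  obtain ⟨hc, -, hm, -, he⟩ := hP (G := G) (m := m)
  induction L with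
  | nil =>
    rw [List.prod_nil, List.length_nil, Nat.zero_mul]
    exact hc 1
  | cons w L ih =>
    have h1 := hm d (L.length * d) w L.prod (h w (by simp))
      (ih fun w' hw' => h w' (by simp [hw']))
    rw [List.prod_cons, List.length_cons]
    refine he _ _ _ ?_ h1
    rw [Nat.succ_mul, Nat.add_comm]

private theorem Uni_be_deg (hPol : St_Pol) {d e : ℕ} (hde : d ≤ e) {p q : Fam G m}
    (hp : Deg e p) (hq : Deg e q) {w : Fam G m} (hw : Deg d w) :
    Deg (5 * e) (p * (q * w * q⁻¹) * p⁻¹) := by
  obtain ⟨-, -, hP⟩ := hPol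
  obtain ⟨-, -, hm, hi, he⟩ := hP (G := G) (m := m)
  have h1 := hm _ _ _ _ (hm _ _ _ _ hp (hm _ _ _ _ (hm _ _ _ _ hq hw) (hi _ _ hq))) (hi _ _ hp)
  refine he _ _ _ ?_ h1
  omega

private theorem Uni_step (hBas : St_Bas) (hPol : St_Pol) (hWrd : St_Wrd) (l : ℕ)
    (A : List (Tok G)) (u : Fin m → List G) (hul : ∀ i, (u i).length ≤ l)
    (hus : ∀ i, ∀ s ∈ u i, s ∈ ltrs A) (k : ℕ) :
    ∀ (L D : List (Fin m × Fam G m × Fam G m)) (T : List (Tok (Fam G m))) (d : ℕ),
    L.length = k → DegT d T → (∀ t ∈ L ++ D, Deg d t.2.1 ∧ Deg d t.2.2) →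
    (∀ y : Fin m → G, T.map (Tok.map (ev (prs y))) = A) →
    (∀ t ∈ L, ∀ y : Fin m → G, t.2.1 (prs y) = y t.1 ∧ t.2.1 (prs y) * t.2.2 (prs y) = 1) →
    (∀ t ∈ D, ∀ y : Fin m → G, t.2.1 (prs y) = (u t.1).prod * y t.1 * ((u t.1).prod)⁻¹) →
    ∃ (T' : List (Tok (Fam G m))) (R : List (Fin m × Fam G m × Fam G m)),
      SReach (T, Uni_fl (L ++ D)) (T', Uni_fl R) ∧
      R.map Prod.fst = (D ++ L).map Prod.fst ∧
      (∀ t ∈ R, Deg ((5 * 21 ^ l) ^ k * d) t.2.1) ∧
      ∀ t ∈ R, ∀ y : Fin m → G, t.2.1 (prs y) = (u t.1).prod * y t.1 * ((u t.1).prod)⁻¹ := by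
  induction k with
  | zero =>
    intro L D T d hL hT hd hA h1 h2
    rw [List.length_eq_zero_iff] at hL
    subst hL
    refine ⟨T, D, Relation.ReflTransGen.refl, by simp, ?_, h2⟩
    intro t ht
    rw [pow_zero, Nat.one_mul]
    exact (hd t (by simp [ht])).1
  | succ k ih =>
    intro L D T d hL hT hd hA h1 h2
    obtain ⟨b1, -, -, -, -⟩ := hBas (G := Fam G m) (H := G)
    obtain ⟨-, -, hP⟩ := id hPol
    obtain ⟨-, -, -, -, he⟩ := hP (G := G) (m := m)
    cases L with
    | nil => simp at hL
    | cons t L =>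
      rw [List.length_cons, Nat.add_right_cancel_iff] at hL
      have ht1 := hd t (by simp)
      obtain ⟨T₁, p, q, r1, r2, r3, r4, r5⟩ := hWrd (u t.1) d A T t.2.1 t.2.2 (Uni_fl (L ++ D))
        (hus t.1) hT ht1.1 ht1.2 fun y => ⟨hA y, (h1 t (by simp) y).2⟩
      have hle : 21 ^ (u t.1).length * d ≤ 21 ^ l * d :=
        Nat.mul_le_mul_right d (Nat.pow_le_pow_right (by norm_num) (hul t.1))
      have hdl : d ≤ 21 ^ l * d := Nat.le_mul_of_pos_left d (by positivity)
      have hp : Deg (21 ^ l * d) p := he _ _ _ hle r3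
      have hq : Deg (21 ^ l * d) q := he _ _ _ hle r4
      have h5 : 21 ^ l * d ≤ 5 * 21 ^ l * d := by
        rw [Nat.mul_assoc]
        omega
      have hev : ∀ (w : Fam G m) (y : Fin m → G),
          (p * (q * w * q⁻¹) * p⁻¹) (prs y) = w (prs y) := by
        intro w y
        have h6 := (r5 y).2.1
        have h7 : q (prs y) = (p (prs y))⁻¹ := eq_inv_of_mul_eq_one_right h6
        simp only [Pi.mul_apply, Pi.inv_apply, h7]
        group
      have hdg : ∀ s ∈ L ++ D, Deg (5 * 21 ^ l * d) (Uni_be p q s).2.1 ∧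
          Deg (5 * 21 ^ l * d) (Uni_be p q s).2.2 := by
        intro s hs
        have h8 := hd s (by
          rw [List.cons_append]
          exact List.mem_cons_of_mem _ hs)
        have h9 := Uni_be_deg hPol hdl hp hq h8.1
        have h10 := Uni_be_deg hPol hdl hp hq h8.2
        rw [← Nat.mul_assoc] at h9 h10
        exact ⟨h9, h10⟩
      obtain ⟨T', R, s1, s2, s3, s4⟩ := ih (L.map (Uni_be p q))
        (D.map (Uni_be p q) ++ [(t.1, p, q)]) T₁ (5 * 21 ^ l * d) (by simpa using hL)
        (fun a ha w hw => he _ _ _ (hle.trans h5) (r2 a ha w hw))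
        (by
          intro s hs
          rw [← List.append_assoc, ← List.map_append, List.mem_append, List.mem_map,
            List.mem_singleton] at hs
          rcases hs with ⟨s', hs', rfl⟩ | rfl
          · exact hdg s' hs'
          · exact ⟨he _ _ _ h5 hp, he _ _ _ h5 hq⟩)
        (fun y => (r5 y).1)
        (by
          intro s hs y
          rw [List.mem_map] at hs
          obtain ⟨s', hs', rfl⟩ := hs
          have h11 := h1 s' (List.mem_cons_of_mem _ hs') y
          refine ⟨(hev s'.2.1 y).trans h11.1, ?_⟩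
          have e1 : (Uni_be p q s').2.1 (prs y) = s'.2.1 (prs y) := hev s'.2.1 y
          have e2 : (Uni_be p q s').2.2 (prs y) = s'.2.2 (prs y) := hev s'.2.2 y
          rw [e1, e2]
          exact h11.2)
        (by
          intro s hs y
          rw [List.mem_append, List.mem_map, List.mem_singleton] at hs
          rcases hs with ⟨s', hs', rfl⟩ | rfl
          · exact (hev s'.2.1 y).trans (h2 s' hs' y)
          · have h12 := (r5 y).2.2
            rw [(h1 t (by simp) y).1] at h12
            exact h12)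
      refine ⟨T', R, ?_, ?_, ?_, s4⟩
      · have m1 := b1 T₁ _ _ (Uni_move p q t.1 (L ++ D))
        rw [List.cons_append, Uni_fl_cons]
        rw [List.map_append, List.append_assoc] at m1
        exact (Relation.ReflTransGen.trans r1 m1).trans s1
      · have hb : ∀ K : List (Fin m × Fam G m × Fam G m),
            (K.map (Uni_be p q)).map Prod.fst = K.map Prod.fst := by
          intro K
          rw [List.map_map]
          rfl
        rw [s2]
        simp only [List.map_append, hb, List.map_cons, List.append_assoc,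
          List.singleton_append]
      · intro s hs
        have h13 := s3 s hs
        have e3 : (5 * 21 ^ l) ^ k * (5 * 21 ^ l * d) = (5 * 21 ^ l) ^ (k + 1) * d := by
          ring
        rw [e3] at h13
        exact h13

end

/-- module Uni -/
theorem thm_Uni (hBas : St_Bas) (hPol : St_Pol) (hWrd : St_Wrd) : St_Uni := by
  intro m l
  refine ⟨m * ((5 * 21 ^ l) ^ m * 1), ?_⟩
  intro G _ A u hul hus
  obtain ⟨b1, -, b3, -, -⟩ := hBas (G := Fam G m) (H := G)
  obtain ⟨-, -, hP⟩ := id hPol
  obtain ⟨hc, hv, -, -, he⟩ := hP (G := G) (m := m)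
  set L : List (Fin m × Fam G m × Fam G m) :=
    (List.finRange m).map fun i => (i, (fun v => v (i, false)), fun v => v (i, true)) with hLd
  set T : List (Tok (Fam G m)) := A.map (Tok.map fun y => fun _ => y) with hTd
  have hTev : ∀ v : Fin m × Bool → G, T.map (Tok.map (ev v)) = A := by
    intro v
    rw [hTd, List.map_map]
    conv_rhs => rw [← List.map_id A]
    refine List.map_congr_left fun t _ => ?_
    cases t <;> rfl
  obtain ⟨T', R, s1, s2, s3, s4⟩ := Uni_step hBas hPol hWrd l A u hul hus m L [] T 1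
    (by simp [hLd])
    (by
      intro t ht w hw
      rw [hTd, List.mem_map] at ht
      obtain ⟨t', -, rfl⟩ := ht
      cases t' with
      | pt c =>
        simp only [Tok.map, Tok.ents, List.mem_singleton] at hw
        rw [hw]
        exact he _ _ _ (Nat.zero_le 1) (hc c)
      | hd a b =>
        simp only [Tok.map, Tok.ents, List.mem_cons, List.not_mem_nil, or_false] at hw
        rcases hw with hw | hw
        · rw [hw]
          exact he _ _ _ (Nat.zero_le 1) (hc a)
        · rw [hw]
          exact he _ _ _ (Nat.zero_le 1) (hc b))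
    (by
      intro t ht
      rw [List.append_nil, hLd, List.mem_map] at ht
      obtain ⟨i, -, rfl⟩ := ht
      exact ⟨hv (i, false), hv (i, true)⟩)
    (fun y => hTev (prs y))
    (by
      intro t ht y
      rw [hLd, List.mem_map] at ht
      obtain ⟨i, -, rfl⟩ := ht
      refine ⟨by simp [prs], by simp [prs]⟩)
    (by simp)
  rw [List.append_nil] at s1
  rw [List.nil_append] at s2
  have hRl : R.length = m := by
    have h1 := congrArg List.length s2
    simpa [hLd] using h1
  refine ⟨(R.map fun t => t.2.1).prod, ?_, ?_, ?_⟩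
  · have h1 := Uni_prod_deg hPol ((5 * 21 ^ l) ^ m * 1) (R.map fun t => t.2.1) (by
      intro w hw
      rw [List.mem_map] at hw
      obtain ⟨t, ht, rfl⟩ := hw
      exact s3 t ht)
    rw [List.length_map, hRl] at h1
    exact h1
  · intro v
    have hsub : (R.map fun t => t.2.1).Sublist (Uni_fl R) := by
      clear s1 s2 s3 s4 hRl
      induction R with
      | nil => exact List.Sublist.refl _
      | cons t R ih =>
        rw [List.map_cons, Uni_fl_cons]
        exact (ih.cons t.2.2).cons_cons t.2.1
    obtain ⟨B, hB⟩ := Pre.sublist hsub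
    have h1 := Relation.ReflTransGen.trans s1 (b1 T' _ _ hB)
    have h2 := b3 (ev v) _ _ h1
    have e1 : mapS (ev v) (T, Uni_fl L) = (A, tupM v) := by
      unfold mapS
      refine Prod.ext (hTev v) ?_
      simp only [Uni_fl, tupM, hLd, List.map_map, List.map_flatten]
      rfl
    rw [e1] at h2
    refine ⟨T'.map (Tok.map (ev v)), (R.map fun t => t.2.1).map (ev v), B.map (ev v), ?_, ?_⟩
    · unfold mapS at h2
      simp only [List.map_append] at h2
      exact h2
    · rw [List.prod_hom]
      rfl
  · intro y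
    have h1 : (R.map fun t => t.2.1).prod (prs y) =
        ((R.map fun t => t.2.1).map (ev (prs y))).prod := by
      rw [List.prod_hom]
      rfl
    rw [h1, List.map_map]
    have h2 : R.map ((ev (prs y)) ∘ fun t => t.2.1) =
        R.map ((fun i => (u i).prod * y i * ((u i).prod)⁻¹) ∘ Prod.fst) := by
      refine List.map_congr_left fun t ht => ?_
      exact s4 t ht y
    rw [h2, ← List.map_map, s2, hLd, List.map_map, List.map_map]
    rfl

end Pool.Agent.SGF
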