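import Pool.Agent.SGF.St

/-!
# Campaign SGF, module Wrd: a pair is pushed around a word
-/

set_option autoImplicit false

namespace Pool.Agent.SGF

open Pool.Agent.HZ

theorem Wrd_ltrs {G H : Type} [Group G] [Group H] (f : G →* H) (A : List (Tok G)) :
    ltrs (A.map (Tok.map f)) = (ltrs A).map f := by
  unfold ltrs
  rw [List.flatMap_map, List.map_flatMap]
  congr 1
  funext t
  cases t with
  | pt c => rfl
  | hd a b => simp [Tok.map, Tok.ltr]

theorem thm_Wrd (hOne : St_One) : St_Wrd := by
  intro G _ m u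
  induction u using List.reverseRecOn with
  | nil =>
    intro d A T p q Z _ hT hp hq hy
    refine ⟨T, p, q, Relation.ReflTransGen.refl, ?_, ?_, ?_, fun y => ?_⟩
    · simpa using hT
    · simpa using hp
    · simpa using hq
    · refine ⟨(hy y).1, (hy y).2, ?_⟩
      simp
  | append_singleton u s₀ ih =>
    intro d A T p q Z hu hT hp hq hy
    have hlen : ∀ y : Fin m → G, (ltrs T).map (ev (prs y)) = ltrs A := fun y => by
      rw [← Wrd_ltrs, (hy y).1]
    have hlen1 : (ltrs T).length = (ltrs A).length := by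
      rw [← hlen 1, List.length_map]
    obtain ⟨i, hi, hs₀⟩ := List.getElem_of_mem (hu s₀ (by simp))
    have hi' : i < (ltrs T).length := by rw [hlen1]; exact hi
    have hval : ∀ y : Fin m → G, ((ltrs T)[i]) (prs y) = s₀ := fun y => by
      have h1 : ((ltrs T).map (ev (prs y)))[i]'(by rw [List.length_map]; exact hi') = s₀ := by
        rw [← hs₀]
        congr 1
        exact hlen y
      rw [List.getElem_map] at h1
      exact h1
    generalize hs : (ltrs T)[i] = s at hval
    have hsm : s ∈ ltrs T := by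
      rw [← hs]
      exact List.getElem_mem _
    obtain ⟨T₁, hr₁, hT₁, hp₁, hq₁, hev⟩ := hOne d T p q Z hT hp hq s hsm
    have hy₁ : ∀ y : Fin m → G, T₁.map (Tok.map (ev (prs y))) = A ∧
        (s * p * s⁻¹) (prs y) * (s * q * s⁻¹) (prs y) = 1 := fun y => by
      refine ⟨(hev (prs y) (hy y).2).trans (hy y).1, ?_⟩
      have h := (hy y).2
      change s (prs y) * p (prs y) * (s (prs y))⁻¹ * (s (prs y) * q (prs y) * (s (prs y))⁻¹) = 1
      calc _ = s (prs y) * (p (prs y) * q (prs y)) * (s (prs y))⁻¹ := by group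
        _ = 1 := by rw [h]; group
    obtain ⟨T', p', q', hr, hT', hp', hq', hy'⟩ := ih (21 * d) A T₁ (s * p * s⁻¹) (s * q * s⁻¹) Z
      (fun x hx => hu x (by simp [hx])) hT₁ hp₁ hq₁ hy₁
    have hpow : 21 ^ u.length * (21 * d) = 21 ^ (u ++ [s₀]).length * d := by
      rw [List.length_append, List.length_singleton, pow_succ, mul_assoc]
    rw [hpow] at hT' hp' hq'
    refine ⟨T', p', q', hr₁.trans hr, hT', hp', hq', fun y => ?_⟩
    obtain ⟨ha, hb, hc⟩ := hy' y
    refine ⟨ha, hb, ?_⟩
    rw [hc]
    change u.prod * (s (prs y) * p (prs y) * (s (prs y))⁻¹) * u.prod⁻¹ = _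
    rw [hval y, List.prod_append, List.prod_singleton]
    group

end Pool.Agent.SGF
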