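import Pool.Agent.SGF.Bas
import Pool.Agent.SGF.Mul
import Pool.Agent.SGF.Blk
import Pool.Agent.SGF.Abs
import Pool.Agent.SGF.Pol
import Pool.Agent.SGF.One
import Pool.Agent.SGF.Wrd
import Pool.Agent.SGF.Uni
import Pool.Agent.SGF.Core
import Pool.Agent.SGF.Grp
import Pool.Agent.SGF.Aut
import Pool.Agent.SGF.Cls
import Pool.Agent.SGF.Snd
import Pool.Agent.SGF.Main
import Pool.Agent.SGF.Kap
import Pool.Agent.SGF.Ext
import Pool.Agent.SGF.D1
import Pool.Agent.SGF.Pat
import Pool.Agent.SGF.Trp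
import Pool.Agent.SGF.D2
import Pool.Agent.SGF.Lp
import Pool.Agent.SGF.Red
import Pool.Agent.SGF.Clf
import Pool.Agent.SGF.Mrg

/-!
# The structure theorem for surfaces of arbitrary genus: the chain of all modules
-/

set_option autoImplicit false

namespace Pool.Agent.SGF

theorem all_Blk : St_Blk := thm_Blk thm_Bas thm_Mul

theorem all_Wrd : St_Wrd := thm_Wrd (thm_One thm_Mul all_Blk thm_Pol)

theorem all_Uni : St_Uni := thm_Uni thm_Bas thm_Pol all_Wrd

theorem all_Core : St_Core := thm_Core thm_Bas all_Blk (thm_Abs thm_Bas) thm_Pol all_Uni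

theorem all_Snd : St_Snd := thm_Snd thm_Bas thm_Aut thm_Cls

theorem all_Main : St_Main := thm_Main thm_Bas all_Snd all_Core

theorem all_Kap : St_Kap := thm_Kap thm_Bas all_Snd

theorem all_D1 : St_D1 := thm_D1 thm_Grp all_Kap thm_Ext

theorem all_D2 : St_D2 := thm_D2 (thm_Pat thm_Grp all_Kap) thm_Trp

theorem all_Red : St_Red :=
  thm_Red all_Main all_D1 all_D2 (thm_Lp thm_Grp all_Kap thm_Ext) thm_Trp

theorem all_Mrg : St_Mrg := thm_Mrg all_Red (thm_Clf all_Main thm_Trp)

end Pool.Agent.SGF
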