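import Pool.Agent.SGF.St

/-!
# SGF, module Bas: the calculus of states
-/

set_option autoImplicit false

namespace Pool.Agent.SGF

open Pool.Agent.HZ

section
variable {G H : Type} [Group G] [Group H]

private theorem Bas_cj_map (f : G →* H) (q : G) (t : Tok G) :
    (Tok.cj q t).map f = Tok.cj (f q) (t.map f) := by
  cases t <;> simp [Tok.cj, Tok.map]

private theorem Bas_Lt_map (f : G →* H) {t : Tok G} {s x : G} {t' : Tok G} (h : Lt t s x t') :
    Lt (t.map f) (f s) (f x) (t'.map f) := by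
  cases h with
  | pt =>
    have h1 := Lt.pt (f s) (f x)
    simpa [Tok.map] using h1
  | ha a b x =>
    have h1 := Lt.ha (f a) (f b) (f x)
    simpa [Tok.map] using h1
  | hb a b x =>
    have h1 := Lt.hb (f a) (f b) (f x)
    simpa [Tok.map] using h1

private theorem Bas_Lt_lift (f : G →* H) {t : Tok G} {s : H} {x : G} {t' : Tok H}
    (h : Lt (t.map f) s (f x) t') :
    ∃ (s₀ : G) (t₀ : Tok G), Lt t s₀ x t₀ ∧ f s₀ = s ∧ t₀.map f = t' := by
  cases t with
  | pt c =>
    have h' : Lt (Tok.pt (f c)) s (f x) t' := h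
    cases h' with
    | pt => exact ⟨c, _, Lt.pt c x, rfl, by simp [Tok.map]⟩
  | hd a b =>
    have h' : Lt (Tok.hd (f a) (f b)) s (f x) t' := h
    cases h' with
    | ha => exact ⟨_, _, Lt.ha a b x, by simp, by simp [Tok.map]⟩
    | hb => exact ⟨_, _, Lt.hb a b x, by simp, by simp [Tok.map]⟩

private theorem Bas_map_cj (f : G →* H) (q : G) (A : List (Tok G)) :
    (A.map (Tok.cj q)).map (Tok.map f) = (A.map (Tok.map f)).map (Tok.cj (f q)) := by
  rw [List.map_map, List.map_map]
  exact List.map_congr_left fun t _ => Bas_cj_map f q t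

private theorem Bas_Psh_map (f : G →* H) {s x : G} {A A' : List (Tok G)} (h : Psh s x A A') :
    Psh (f s) (f x) (A.map (Tok.map f)) (A'.map (Tok.map f)) := by
  cases h with
  | mk A₁ A₂ t t' s x h =>
    have h1 := Psh.mk (A₁.map (Tok.map f)) (A₂.map (Tok.map f)) _ _ _ _ (Bas_Lt_map f h)
    rw [List.map_append, List.map_cons, List.map_append, List.map_cons, Bas_map_cj]
    have e : f (s * x * s⁻¹ * x⁻¹) = f s * f x * (f s)⁻¹ * (f x)⁻¹ := by simp
    rw [e]
    exact h1

private theorem Bas_Psh_lift (f : G →* H) {s : H} {x : G} {A : List (Tok G)} {A' : List (Tok H)}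
    (h : Psh s (f x) (A.map (Tok.map f)) A') :
    ∃ (s₀ : G) (A₀ : List (Tok G)), Psh s₀ x A A₀ ∧ f s₀ = s ∧ A₀.map (Tok.map f) = A' := by
  generalize hK : A.map (Tok.map f) = K at h
  generalize hy : f x = y at h
  cases h with
  | mk A₁ A₂ t t' s y h =>
    rw [List.map_eq_append_iff] at hK
    obtain ⟨L1, L2, rfl, h1, h2⟩ := hK
    rw [List.map_eq_cons_iff] at h2
    obtain ⟨t0, L3, rfl, rfl, h3⟩ := h2
    subst hy
    obtain ⟨s₀, t₀, h4, h5, h6⟩ := Bas_Lt_lift f h
    refine ⟨s₀, _, Psh.mk L1 L3 t0 t₀ s₀ x h4, h5, ?_⟩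
    rw [List.map_append, List.map_cons, Bas_map_cj, h1, h3, h6]
    have e : f (s₀ * x * s₀⁻¹ * x⁻¹) = s * f x * s⁻¹ * (f x)⁻¹ := by simp [h5]
    rw [e]

private theorem Bas_move_lift (f : G →* H) {X : List (Tok G) × List G}
    {Y : List (Tok H) × List H} (h : SMove (mapS f X) Y) :
    ∃ X', SMove X X' ∧ mapS f X' = Y := by
  obtain ⟨A, M⟩ := X
  generalize hZ : mapS f (A, M) = Z at h
  cases h with
  | br B N N' h =>
    have h1 : A.map (Tok.map f) = B := congrArg Prod.fst hZ
    have h2 : M.map f = N := congrArg Prod.snd hZ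
    subst h1
    subst h2
    obtain ⟨L', h3, h4⟩ := h.lift f
    refine ⟨(A, L'), SMove.br A M L' h3, ?_⟩
    simp [mapS, h4]
  | ps B B' s y N h =>
    have h1 : A.map (Tok.map f) = B := congrArg Prod.fst hZ
    have h2 : M.map f = y :: N := congrArg Prod.snd hZ
    subst h1
    rw [List.map_eq_cons_iff] at h2
    obtain ⟨x, L, rfl, rfl, h3⟩ := h2
    subst h3
    obtain ⟨s₀, A₀, h4, h5, h6⟩ := Bas_Psh_lift f h
    refine ⟨(A₀, s₀ * x * s₀⁻¹ :: L), SMove.ps A A₀ s₀ x L h4, ?_⟩
    simp [mapS, h6, h5]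

private theorem Bas_val_cj (q : G) (t : Tok G) : (Tok.cj q t).val = q * t.val * q⁻¹ := by
  cases t with
  | pt c => rfl
  | hd a b =>
    show q * a * q⁻¹ * (q * b * q⁻¹) * (q * a * q⁻¹)⁻¹ * (q * b * q⁻¹)⁻¹ =
      q * (a * b * a⁻¹ * b⁻¹) * q⁻¹
    group

private theorem Bas_prod_cj (q : G) (A : List (Tok G)) :
    ((A.map (Tok.cj q)).map Tok.val).prod = q * (A.map Tok.val).prod * q⁻¹ := by
  induction A with
  | nil => simp
  | cons t A ih =>
    rw [List.map_cons, List.map_cons, List.prod_cons, ih, Bas_val_cj, List.map_cons,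
      List.prod_cons]
    group

private theorem Bas_val (t : Tok G) (s x : G) (t' : Tok G) (h : Lt t s x t') :
    t'.val * (s * x * s⁻¹ * x⁻¹) = t.val := by
  cases h with
  | pt =>
    show s * x * s⁻¹ * s * (s * x * s⁻¹)⁻¹ * (s * x * s⁻¹ * x⁻¹) = s
    group
  | ha a b x =>
    show a * (b * a⁻¹ * b⁻¹ * x * (b * a⁻¹ * b⁻¹)⁻¹ * b) * a⁻¹ *
      (b * a⁻¹ * b⁻¹ * x * (b * a⁻¹ * b⁻¹)⁻¹ * b)⁻¹ *
        (b * a⁻¹ * b⁻¹ * x * (b * a⁻¹ * b⁻¹)⁻¹ * x⁻¹) = a * b * a⁻¹ * b⁻¹
    group
  | hb a b x =>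
    show a * (b⁻¹ * x * b)⁻¹ * (b⁻¹ * x * b * x⁻¹ * b) * (a * (b⁻¹ * x * b)⁻¹)⁻¹ *
      (b⁻¹ * x * b * x⁻¹ * b)⁻¹ * (b⁻¹ * x * b⁻¹⁻¹ * x⁻¹) = a * b * a⁻¹ * b⁻¹
    group

private theorem Bas_bd {X Y : List (Tok G) × List G} (h : SMove X Y) : bd Y = bd X := by
  cases h with
  | br A M M' h =>
    show (A.map Tok.val).prod * M'.prod = (A.map Tok.val).prod * M.prod
    rw [h.prod_eq]
  | ps A A' s x M h =>
    show (A'.map Tok.val).prod * (s * x * s⁻¹ :: M).prod =
      (A.map Tok.val).prod * (x :: M).prod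
    cases h with
    | mk A₁ A₂ t t' s x h =>
      rw [List.map_append, List.map_cons, List.prod_append, List.prod_cons, Bas_prod_cj,
        List.map_append, List.map_cons, List.prod_append, List.prod_cons, List.prod_cons,
        List.prod_cons, ← Bas_val t s x t' h]
      group

end

theorem thm_Bas : St_Bas := by
  intro G H _ _
  refine ⟨?_, ?_, ?_, ?_, ?_⟩
  · intro A M M' h
    induction h with
    | refl => exact Relation.ReflTransGen.refl
    | tail _ hs ih => exact ih.tail (SMove.br A _ _ hs)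
  · intro A A' M M' Z h
    have key : ∀ X Y : List (Tok G) × List G, SMove X Y →
        SMove (X.1, X.2 ++ Z) (Y.1, Y.2 ++ Z) := by
      intro X Y h
      cases h with
      | br A M M' h =>
        have h1 := h.context [] Z
        rw [List.nil_append, List.nil_append] at h1
        exact SMove.br A _ _ h1
      | ps A A' s x M h => exact SMove.ps A A' s x (M ++ Z) h
    have main : ∀ X Y : List (Tok G) × List G, SReach X Y →
        SReach (X.1, X.2 ++ Z) (Y.1, Y.2 ++ Z) := by
      intro X Y h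
      induction h with
      | refl => exact Relation.ReflTransGen.refl
      | tail _ hs ih => exact ih.tail (key _ _ hs)
    exact main _ _ h
  · intro f X Y h
    have key : ∀ X Y : List (Tok G) × List G, SMove X Y → SMove (mapS f X) (mapS f Y) := by
      intro X Y h
      cases h with
      | br A M M' h => exact SMove.br _ _ _ (h.map f)
      | ps A A' s x M h =>
        have h1 := SMove.ps _ _ _ _ (M.map f) (Bas_Psh_map f h)
        simpa [mapS] using h1
    induction h with
    | refl => exact Relation.ReflTransGen.refl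
    | tail _ hs ih => exact ih.tail (key _ _ hs)
  · intro f X Y h
    induction h with
    | refl => exact ⟨X, Relation.ReflTransGen.refl, rfl⟩
    | tail _ hs ih =>
      obtain ⟨X', h1, h2⟩ := ih
      rw [← h2] at hs
      obtain ⟨X'', h3, h4⟩ := Bas_move_lift f hs
      exact ⟨X'', h1.tail h3, h4⟩
  · intro X Y h
    induction h with
    | refl => rfl
    | tail _ hs ih => rw [Bas_bd hs, ih]

end Pool.Agent.SGF
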