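import Pool.Agent.SGF.Stm
import Pool.Agent.HZ.Main

/-!
# Campaign SGF: states and moves

A state is a pair `(A, M)`: the list `A` of the fixed parts (`Tok.pt c`: a fixed puncture,
`Tok.hd a b`: a handle) and the list `M` of the moving punctures, which stands behind `A`.  The moves:
braid moves in `M`, and the push of the first element of `M` around a letter `s` of an element of `A`.
All this makes sense for the values in any group `G`, and it is natural in `G`.
-/

set_option autoImplicit false

namespace Pool.Agent.SGF

open Pool.Agent.HZ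

/-- a fixed puncture or a handle (values in a group) -/
inductive Tok (G : Type) : Type
  | pt (c : G) : Tok G
  | hd (a b : G) : Tok G

section
variable {G : Type} [Group G]

/-- the image under a map -/
def Tok.map {H : Type} (f : G → H) : Tok G → Tok H
  | Tok.pt c => Tok.pt (f c)
  | Tok.hd a b => Tok.hd (f a) (f b)

/-- conjugation of all entries by `q` -/
def Tok.cj (q : G) (t : Tok G) : Tok G := t.map fun y => q * y * q⁻¹

/-- the loop around the puncture or the handle -/
def Tok.val : Tok G → G
  | Tok.pt c => c
  | Tok.hd a b => a * b * a⁻¹ * b⁻¹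

/-- the entries -/
def Tok.ents : Tok G → List G
  | Tok.pt c => [c]
  | Tok.hd a b => [a, b]

/-- the letters around which one can push: `c`; `b a⁻¹ b⁻¹` and `b⁻¹` -/
def Tok.ltr : Tok G → List G
  | Tok.pt c => [c]
  | Tok.hd a b => [b * a⁻¹ * b⁻¹, b⁻¹]

/-- the letters of a list -/
def ltrs (A : List (Tok G)) : List G := A.flatMap Tok.ltr

/-- `Lt t s x t'`: if `x` is pushed around the letter `s` of `t` then `t` becomes `t'` (and `x`
becomes `s x s⁻¹`) -/
inductive Lt : Tok G → G → G → Tok G → Prop
  | pt (c x : G) : Lt (Tok.pt c) c x (Tok.pt (c * x * c⁻¹ * c * (c * x * c⁻¹)⁻¹))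
  | ha (a b x : G) : Lt (Tok.hd a b) (b * a⁻¹ * b⁻¹) x
      (Tok.hd a (b * a⁻¹ * b⁻¹ * x * (b * a⁻¹ * b⁻¹)⁻¹ * b))
  | hb (a b x : G) : Lt (Tok.hd a b) b⁻¹ x
      (Tok.hd (a * (b⁻¹ * x * b)⁻¹) (b⁻¹ * x * b * x⁻¹ * b))

/-- `Psh s x A A'`: if `x` (which stands behind `A`) is pushed around the letter `s` of an element
of `A` and comes back as `s x s⁻¹` then `A` becomes `A'` -/
inductive Psh : G → G → List (Tok G) → List (Tok G) → Prop
  | mk (A₁ A₂ : List (Tok G)) (t t' : Tok G) (s x : G) (h : Lt t s x t') :
      Psh s x (A₁ ++ t :: A₂) (A₁ ++ t' :: A₂.map (Tok.cj (s * x * s⁻¹ * x⁻¹)))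

/-- one move -/
inductive SMove : List (Tok G) × List G → List (Tok G) × List G → Prop
  | br (A : List (Tok G)) (M M' : List G) (h : BMove M M') : SMove (A, M) (A, M')
  | ps (A A' : List (Tok G)) (s x : G) (M : List G) (h : Psh s x A A') :
      SMove (A, x :: M) (A', s * x * s⁻¹ :: M)

/-- finitely many moves -/
def SReach (X Y : List (Tok G) × List G) : Prop := Relation.ReflTransGen SMove X Y

/-- moving loops of a state -/
def SLoop (X : List (Tok G) × List G) (γ : G) : Prop :=
  ∃ (A' : List (Tok G)) (B C : List G), SReach X (A', B ++ C) ∧ B.prod = γ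

/-- the image of a state -/
def mapS {H : Type} (f : G → H) (X : List (Tok G) × List G) : List (Tok H) × List H :=
  (X.1.map (Tok.map f), X.2.map f)

/-- the conjugacy class of a fixed puncture -/
def Tok.cls : Tok G → Option (ConjClasses G)
  | Tok.pt c => some (ConjClasses.mk c)
  | Tok.hd _ _ => none

/-- the boundary curve of a state -/
def bd (X : List (Tok G) × List G) : G := (X.1.map Tok.val).prod * X.2.prod

/-- maps `G → G` given by words of degree at most `d` in the variable, with constants -/
inductive Pol : ℕ → (G → G) → Prop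
  | const (y : G) : Pol 0 fun _ => y
  | id : Pol 1 fun z => z
  | inv : Pol 1 fun z => z⁻¹
  | mul {d e : ℕ} {f h : G → G} : Pol d f → Pol e h → Pol (d + e) fun z => f z * h z
  | mono {d e : ℕ} {f : G → G} : d ≤ e → Pol d f → Pol e f

end

/-! ### families of states -/

/-- functions of `2 m` variables, the variables of the `m` pairs -/
abbrev Fam (G : Type) (m : ℕ) : Type := (Fin m × Bool → G) → G

/-- degree at most `d` in each variable -/
def Deg {G : Type} [Group G] {m : ℕ} (d : ℕ) (W : Fam G m) : Prop :=
  ∀ (v : Fin m × Bool → G) (k : Fin m × Bool), Pol d fun z => W (Function.update v k z)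

/-- degree at most `d` of all entries -/
def DegT {G : Type} [Group G] {m : ℕ} (d : ℕ) (A : List (Tok (Fam G m))) : Prop :=
  ∀ t ∈ A, ∀ W ∈ t.ents, Deg d W

/-- degree at most `d` of all entries -/
def DegM {G : Type} [Group G] {m : ℕ} (d : ℕ) (M : List (Fam G m)) : Prop := ∀ W ∈ M, Deg d W

/-- evaluation -/
def ev {G : Type} [Group G] {m : ℕ} (v : Fin m × Bool → G) : Fam G m →* G :=
  Pi.evalMonoidHom (fun _ => G) v

/-- the values of the pairs `(g i, (g i)⁻¹)` -/
def prs {G : Type} [Group G] {m : ℕ} (g : Fin m → G) : Fin m × Bool → G :=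
  fun p => if p.2 then (g p.1)⁻¹ else g p.1

/-- the list `v (0, false), v (0, true), v (1, false), ...` -/
def tupM {G : Type} {m : ℕ} (v : Fin m × Bool → G) : List G :=
  ((List.finRange m).map fun i => [v (i, false), v (i, true)]).flatten

/-! ### the surface -/

/-- the fixed part of the surface -/
def stA (g m n : ℕ) : List (Tok (F g m n)) :=
  ((List.finRange g).map fun j => Tok.hd (ga j) (gb j)) ++ (List.finRange m).map fun i => Tok.pt (gc i)

/-- the moving punctures -/
def stM (g m n : ℕ) : List (F g m n) := (List.finRange n).map gx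

/-- the standard state -/
def std (g m n : ℕ) : List (Tok (F g m n)) × List (F g m n) := (stA g m n, stM g m n)

/-- the homomorphism given by a pattern: some moving punctures are forgotten, the others renamed -/
def pat {g m k n : ℕ} (s : Fin n → Option (Fin k)) : F g m n →* F g m k :=
  FreeGroup.lift fun
    | Gen.a j => ga j
    | Gen.b j => gb j
    | Gen.c i => gc i
    | Gen.x i => (s i).elim 1 gx

/-- the first `k` of `n` punctures -/
def fst {k n : ℕ} (h : k ≤ n) : Fin k → Fin n := Fin.castLE h

/-- the normal subgroup generated by the loops around the moving punctures outside `S` -/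
def KK {g m n : ℕ} (S : Finset (Fin n)) : Subgroup (F g m n) :=
  Subgroup.normalClosure {y | ∃ i ∉ S, y = gx i}

/-- hypothesis (Q) -/
def HypQ {r g m n : ℕ} (ρ : F g m n →* Matrix.GeneralLinearGroup (Fin r) ℂ) : Prop :=
  ∀ γ, IsMovingLoop γ → Quasi (ρ γ)

end Pool.Agent.SGF
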