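import Pool.Agent.SGF.All

/-!
# Local systems on surfaces of arbitrary genus with fixed and moving punctures: the final definitions

`S` is the compact oriented surface of genus `g` with one boundary curve, without `m` fixed and `n`
moving points.  Its fundamental group is the free group `FreeGroup (Gen g m n)` on `a_j, b_j` (the
handles), `c_i` (the fixed punctures) and `x_i` (the moving punctures); the boundary curve is
`∏ [a_j, b_j] ∏ c_i ∏ x_i`.
-/

set_option autoImplicit false

namespace Pool.Agent.SGF.Surface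

open Matrix Pool.Agent.HZ

variable {g m n r : ℕ}

/-- the boundary curve -/
def boundary (g m n : ℕ) : FreeGroup (Gen g m n) :=
  ((List.finRange g).map fun j => FreeGroup.of (Gen.a j) * FreeGroup.of (Gen.b j) *
      (FreeGroup.of (Gen.a j))⁻¹ * (FreeGroup.of (Gen.b j))⁻¹).prod *
    ((List.finRange m).map fun i => FreeGroup.of (Gen.c i)).prod *
    ((List.finRange n).map fun i => FreeGroup.of (Gen.x i)).prod

/-- Mapping classes: automorphisms of the fundamental group which fix the boundary curve and the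
conjugacy classes of the loops around the fixed punctures, and permute the conjugacy classes of the
loops around the moving punctures. -/
structure IsMappingClass (φ : FreeGroup (Gen g m n) ≃* FreeGroup (Gen g m n)) : Prop where
  bd : φ (boundary g m n) = boundary g m n
  fix : ∀ i : Fin m, IsConj (φ (FreeGroup.of (Gen.c i))) (FreeGroup.of (Gen.c i))
  mov : ∃ σ : Equiv.Perm (Fin n), ∀ i : Fin n,
    IsConj (φ (FreeGroup.of (Gen.x i))) (FreeGroup.of (Gen.x (σ i)))

/-- the moving punctures are filled in -/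
def fillIn : FreeGroup (Gen g m n) →* FreeGroup (Gen g m 0) :=
  FreeGroup.lift fun
    | Gen.a j => FreeGroup.of (Gen.a j)
    | Gen.b j => FreeGroup.of (Gen.b j)
    | Gen.c i => FreeGroup.of (Gen.c i)
    | Gen.x _ => 1

/-- Mapping classes given by motions of the moving points on the surface without the fixed points. -/
def Motion (φ : FreeGroup (Gen g m n) ≃* FreeGroup (Gen g m n)) : Prop :=
  IsMappingClass φ ∧ ∀ y, fillIn (φ y) = fillIn y

/-- Moving loops: the simple closed curves around discs which contain moving punctures only, that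
is the images of the curves `x_1 ... x_k` under the motions. -/
def MovingLoop (γ : FreeGroup (Gen g m n)) : Prop :=
  ∃ φ : FreeGroup (Gen g m n) ≃* FreeGroup (Gen g m n), Motion φ ∧
    ∃ k : ℕ, γ = φ (((List.finRange n).take k).map fun i => FreeGroup.of (Gen.x i)).prod

/-- The restriction of `ρ` to the subsurface which contains the moving punctures in `T` only. -/
def restrict (ρ : FreeGroup (Gen g m n) →* GL (Fin r) ℂ) (T : Finset (Fin n)) :
    FreeGroup (Gen g m T.card) →* GL (Fin r) ℂ :=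
  FreeGroup.lift fun
    | Gen.a j => ρ (FreeGroup.of (Gen.a j))
    | Gen.b j => ρ (FreeGroup.of (Gen.b j))
    | Gen.c i => ρ (FreeGroup.of (Gen.c i))
    | Gen.x i => ρ (FreeGroup.of (Gen.x (T.orderEmbOfFin rfl i)))

/-- The orbit of the character of `ρ` under the mapping classes which induce an element of `Q` on
the surface with the moving punctures filled in is finite.  For `Q = 1` these are the motions of the
moving points, if `Q` is everything then they are all mapping classes. -/
def FiniteOrbit (Q : Set (FreeGroup (Gen g m 0) ≃* FreeGroup (Gen g m 0)))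
    (ρ : FreeGroup (Gen g m n) →* GL (Fin r) ℂ) : Prop :=
  {χ : FreeGroup (Gen g m n) → ℂ | ∃ φ : FreeGroup (Gen g m n) ≃* FreeGroup (Gen g m n),
    IsMappingClass φ ∧ (∃ q ∈ Q, ∀ y, fillIn (φ y) = q (fillIn y)) ∧
    χ = fun γ => (ρ (φ γ) : Matrix (Fin r) (Fin r) ℂ).trace}.Finite

/-- The eigenvalues of `ρ` on the moving loops are roots of unity. -/
def QuasiMoving (ρ : FreeGroup (Gen g m n) →* GL (Fin r) ℂ) : Prop :=
  ∀ γ, MovingLoop γ → Quasi (ρ γ)

/-- The local monodromy of `ρ` at the moving puncture `x_i`. -/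
def loc (ρ : FreeGroup (Gen g m n) →* GL (Fin r) ℂ) (i : Fin n) : GL (Fin r) ℂ :=
  ρ (FreeGroup.of (Gen.x i))

/-- The normal subgroup of the fundamental group which is generated by the loops around the moving
punctures which are not in `T`. -/
def Outside (g m : ℕ) (T : Finset (Fin n)) : Subgroup (FreeGroup (Gen g m n)) :=
  Subgroup.normalClosure {y | ∃ i ∉ T, y = FreeGroup.of (Gen.x i)}

/-- The dimension of the eigenspace of the matrix `A` for `z`. -/
noncomputable def eigDim (A : GL (Fin r) ℂ) (z : ℂ) : ℕ :=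
  Module.finrank ℂ (Module.End.eigenspace (Matrix.mulVecLin (A : Matrix (Fin r) (Fin r) ℂ)) z)

/-- The matrix `A` is not scalar. -/
def NonScalar (A : GL (Fin r) ℂ) : Prop :=
  ∀ z : ℂ, (A : Matrix (Fin r) (Fin r) ℂ) ≠ z • 1

section

variable {G : Type} [Group G]

/-- The eigenvalues of `ρ` on the subgroup `K` are roots of unity. -/
def QuasiOn (ρ : G →* GL (Fin r) ℂ) (K : Subgroup G) : Prop := ∀ x ∈ K, Quasi (ρ x)

/-- If `ρ` is completely reducible, then its image of `K` is finite. -/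
def FiniteOn (ρ : G →* GL (Fin r) ℂ) (K : Subgroup G) : Prop := CRed ρ.range → Finite (K.map ρ)

/-- `ρ` is irreducible. -/
def Irreducible (ρ : G →* GL (Fin r) ℂ) : Prop := Irr ρ.range

/-- The image of `ρ` is virtually abelian. -/
def VirtuallyAbelian (ρ : G →* GL (Fin r) ℂ) : Prop := VirtAb ρ.range

/-- `ρ` is induced from `β ⊗ α`, where `α` and `β` are representations of a subgroup `H` of finite
index, the image of `α` is finite, `β` has rank `e` and is trivial on `K ≤ H`, and the eigenvalues of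
`β h` are roots of unity if `h` is conjugate to a power of an element of `L`. -/
def InducedFrom (ρ : G →* GL (Fin r) ℂ) (K : Subgroup G) (L : Set G) (e : ℕ) : Prop :=
  ∃ (H : Subgroup G) (d : ℕ) (α : H →* GL (Fin d) ℂ) (β : H →* GL (Fin e) ℂ),
    IndTensor ρ H β α ∧ Finite α.range ∧ K ≤ β.ker.map H.subtype ∧
      ∀ (h : H) (y γ : G) (k : ℕ), γ ∈ L → (h : G) = y * γ ^ k * y⁻¹ → Quasi (β h)

end

theorem boundary_eq : boundary g m n = bdry g m n := rfl

theorem isMC_iff (φ : FreeGroup (Gen g m n) ≃* FreeGroup (Gen g m n)) :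
    IsMappingClass φ ↔ IsMC φ :=
  ⟨fun h => ⟨h.bd, h.fix, h.mov⟩, fun h => ⟨h.bd, h.fix, h.mov⟩⟩

theorem forget_eq : (fillIn : FreeGroup (Gen g m n) →* FreeGroup (Gen g m 0)) = SGF.forget := by
  refine FreeGroup.ext_hom _ _ ?_
  rintro (j | j | i | i) <;> rfl

theorem isMotion_iff (φ : FreeGroup (Gen g m n) ≃* FreeGroup (Gen g m n)) :
    Motion φ ↔ SGF.IsMotion φ := by
  rw [Motion, SGF.IsMotion, isMC_iff, forget_eq]

theorem isMovingLoop_iff (γ : FreeGroup (Gen g m n)) : MovingLoop γ ↔ SGF.IsMovingLoop γ := by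
  simp only [MovingLoop, SGF.IsMovingLoop, isMotion_iff]
  rfl

theorem finiteOrbit_iff (Q : Set (FreeGroup (Gen g m 0) ≃* FreeGroup (Gen g m 0)))
    (ρ : FreeGroup (Gen g m n) →* GL (Fin r) ℂ) : FiniteOrbit Q ρ ↔ FinOrb Q ρ := by
  simp only [FiniteOrbit, FinOrb, isMC_iff, forget_eq]

theorem restrict_eq (ρ : FreeGroup (Gen g m n) →* GL (Fin r) ℂ) (T : Finset (Fin n)) :
    restrict ρ T = ρ.comp (inc T) := by
  refine FreeGroup.ext_hom _ _ ?_
  rintro (j | j | i | i) <;> simp [restrict, inc, incl, ga, gb, gc, gx]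

theorem quasiMoving_iff (ρ : FreeGroup (Gen g m n) →* GL (Fin r) ℂ) :
    QuasiMoving ρ ↔ ∀ γ, SGF.IsMovingLoop γ → Quasi (ρ γ) := by
  simp only [QuasiMoving, isMovingLoop_iff]

/-- The structure theorem in terms of the final definitions. -/
theorem structure_theorem (r : ℕ) (hr : 0 < r) : ∃ N : ℕ,
    (∀ (g m n : ℕ) (ρ : FreeGroup (Gen g m n) →* GL (Fin r) ℂ), QuasiMoving ρ →
      ∃ T : Finset (Fin n), T.card ≤ N ∧ QuasiOn ρ (Outside g m T) ∧ FiniteOn ρ (Outside g m T) ∧
        (∀ Q, FiniteOrbit Q ρ ↔ FiniteOrbit Q (restrict ρ T)) ∧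
        (Irreducible ρ → ∃ e : ℕ, InducedFrom ρ (Outside g m T) {γ | MovingLoop γ} e ∧
          (∀ i ∉ T, ∀ z : ℂ, e ∣ eigDim (loc ρ i) z) ∧
          (N < Nat.card {i | NonScalar (loc ρ i)} → 2 * e ≤ r))) ∧
    (∀ (g m n : ℕ) (ρ : FreeGroup (Gen g m n) →* GL (Fin r) ℂ), QuasiMoving ρ → Irreducible ρ →
      (N < Nat.card {i | ∃ z : ℂ, (eigDim (loc ρ i) z).Coprime r} ∨
        (r.Prime ∧ N < Nat.card {i | NonScalar (loc ρ i)})) → VirtuallyAbelian ρ) ∧
    ∀ (g m : ℕ) (Q : Set (FreeGroup (Gen g m 0) ≃* FreeGroup (Gen g m 0))),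
      (∀ n ≤ N, ∀ ρ : FreeGroup (Gen g m n) →* GL (Fin r) ℂ, QuasiMoving ρ → FiniteOrbit Q ρ) →
      ∀ (n : ℕ) (ρ : FreeGroup (Gen g m n) →* GL (Fin r) ℂ), QuasiMoving ρ → FiniteOrbit Q ρ := by
  obtain ⟨N, h1, h2, h3⟩ := all_Mrg r hr
  simp only [quasiMoving_iff, finiteOrbit_iff, restrict_eq]
  refine ⟨N, fun g m n ρ hρ => ?_, h2, h3⟩
  obtain ⟨T, hT, ha, hb, hc, hd⟩ := h1 g m n ρ hρ
  refine ⟨T, hT, ha, hb, hc, fun hi => ?_⟩
  obtain ⟨H, d, e, α, β, k1, k2, k3, k4, k5, k6⟩ := hd hi
  refine ⟨e, ⟨H, d, α, β, k1, k2, k3, fun h y γ k hγ => ?_⟩, k5, k6⟩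
  exact k4 h y γ k ((isMovingLoop_iff γ).1 hγ)

end Pool.Agent.SGF.Surface
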