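import Pool.Agent.SGF.Defs

/-!
# Campaign SGF: statements of the modules

The structure theorem of `Pool/Agent/GF` (discs with fixed and moving punctures) for surfaces of
arbitrary genus.  Module `X`: file `Pool/Agent/SGF/X.lean`, `theorem thm_X (h.. : St_..) : St_X`
with the hypotheses named in the docstring.  Notation in the proofs: `q • A = A.map (Tok.cj q)`, `q • M` the
list of the `q y q⁻¹`, `x' = s x s⁻¹`.
-/

set_option autoImplicit false

namespace Pool.Agent.SGF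

open Matrix Module Pool.Agent.HZ Helper12.Sc

/-! ### the calculus of states -/

/-- **Bas** (30 min). Proofs: (1), (2), (3), (5) induction on `SReach`, all moves are natural (`HZ.BMove.map`,
`HZ.BReach.context`). (4) one move: `HZ.BMove.lift`; for a push `mapS f X = (A, x :: M)` splits `X.1` at the place of
the letter and `X.2`, and `A'` is given by the same formula. (5) `BMove.prod_eq`; for a push
`∏ A' * x' = ∏ A * x`: `pt`: `x' c x'⁻¹ · x' x⁻¹ (∏ A₂) x x'⁻¹ · x' = c x · x⁻¹ (∏ A₂) x`; `ha`: `a x' b a⁻¹ b⁻¹ x'⁻¹ · x' x⁻¹ = a b a⁻¹ b⁻¹` as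
`x' = s x s⁻¹`, `s = b a⁻¹ b⁻¹`; `hb`: `a x'⁻¹ (x' x⁻¹ b) (x' a⁻¹) (b⁻¹ x x'⁻¹) x' x⁻¹ = a b a⁻¹ b⁻¹` as `b x' = x b`. needs: nothing -/
def St_Bas : Prop := ∀ {G H : Type} [Group G] [Group H],
  (∀ (A : List (Tok G)) (M M' : List G), BReach M M' → SReach (A, M) (A, M')) ∧
  (∀ (A A' : List (Tok G)) (M M' Z : List G), SReach (A, M) (A', M') →
    SReach (A, M ++ Z) (A', M' ++ Z)) ∧
  (∀ (f : G →* H) (X Y : List (Tok G) × List G), SReach X Y → SReach (mapS f X) (mapS f Y)) ∧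
  (∀ (f : G →* H) (X : List (Tok G) × List G) (Y : List (Tok H) × List H), SReach (mapS f X) Y →
    ∃ X', SReach X X' ∧ mapS f X' = Y) ∧
  ∀ X Y : List (Tok G) × List G, SReach X Y → bd Y = bd X

/-- **Mul** (30 min). Pushing a product. Proof: `Psh s x A A₁` with the same splitting of `A` and the same
kind of letter; put `x' = s x s⁻¹`, `y₂ = x' y x'⁻¹`. The new letter of `t₁` is `x' s x'⁻¹`: clear for `pt`; `ha`: `a₁ = a`, `b₁ = x' b`; `hb`:
`b₁⁻¹ = b⁻¹ x x'⁻¹` and `s x = x' s`. Second push: `y₂' = x' s y s⁻¹ x'⁻¹`; `pt`: `y₂' c₁ y₂'⁻¹ = (s x y s⁻¹) c (s x y s⁻¹)⁻¹`; `ha`: `y₂' b₁ = s x y s⁻¹ b`; `hb`: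
`a₁ y₂'⁻¹ = a (s x y s⁻¹)⁻¹`, `y₂' y₂⁻¹ b₁ = s x y s⁻¹ (x y)⁻¹ b`; behind: `y₂' y₂⁻¹ x' x⁻¹ = s x y s⁻¹ (x y)⁻¹`. (`group` after `cases`.) needs: nothing -/
def St_Mul : Prop := ∀ {G : Type} [Group G],
  (∀ (s : G) (A A' : List (Tok G)), Psh s 1 A A' → A' = A) ∧
  ∀ (s x y : G) (A A' : List (Tok G)), Psh s (x * y) A A' → ∃ A₁, Psh s x A A₁ ∧
    Psh (s * x * s⁻¹ * s * (s * x * s⁻¹)⁻¹) (s * x * s⁻¹ * y * (s * x * s⁻¹)⁻¹) A₁ A'

/-- **Blk** (1 h). Blocks of moving punctures. (1) A block is pushed around a letter: induction on `B`,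
for all `s, A`. `[]`: `Mul` (1). `x :: B`: `Mul` (2) with `y = B.prod`. Push `x`; move `x'` to the right past `B` unchanged
(`HZ.move_right`: `B` becomes `x' • B`, product `x' y x'⁻¹`); induction for the block `x' • B` and the letter `x' s x'⁻¹`: it becomes
`x' • (s • B)`; move `x'` back to the left unchanged (`HZ.move_left`). (2) induction on `SReach`: `HZ.blocks_move`, and (1) for a push.
(3) from (2) (`List.map_eq_append_iff`). (4) `HZ.Pre.sublist`, `Bas` (1), (2). needs: Bas, Mul -/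
def St_Blk : Prop := ∀ {G : Type} [Group G],
  (∀ (s : G) (A A' : List (Tok G)) (B Z : List G), Psh s B.prod A A' →
    SReach (A, B ++ Z) (A', B.map (fun y => s * y * s⁻¹) ++ Z)) ∧
  (∀ (A A' : List (Tok G)) (Bs : List (List G)) (M' : List G),
    SReach (A, Bs.map List.prod) (A', M') →
    ∃ Bs' : List (List G), Bs'.map List.prod = M' ∧ SReach (A, Bs.flatten) (A', Bs'.flatten)) ∧
  (∀ (A : List (Tok G)) (Bs : List (List G)) (γ : G), SLoop (A, Bs.map List.prod) γ →
    SLoop (A, Bs.flatten) γ) ∧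
  ∀ (A : List (Tok G)) (S M : List G) (γ : G), S.Sublist M → SLoop (A, S) γ → SLoop (A, M) γ

/-- **Abs** (1 h). Fixed punctures at the end of `A` may be considered as moving ones. Proof: show
`SReach (A ++ P.map pt, M) (T', M') → ∃ A' P', T' = A' ++ P'.map pt ∧ P'.length = P.length ∧ SReach (A, P ++ M) (A', P' ++ M')` by
induction. Braid moves: `HZ.BReach.append_left`. A push around a letter `s` of an element `t` of `A`: `T' = A₁ ++ t' :: q • A₂ ++ (q • P).map pt`,
`q = x' x⁻¹`. Moves: `(P, x) → (x, x⁻¹ • P)` (`HZ.move_left`), push, `(x', x⁻¹ • P) → (q • P, x')` (`HZ.move_right`). A push around an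
element `c` of `P = P₁ ++ c :: P₂`: `(P₁, c, P₂, x) → (P₁, c, x, x⁻¹ • P₂) → (P₁, c x c⁻¹, c, x⁻¹ • P₂)`, and `x' = c x c⁻¹` goes to the right unchanged:
`(P₁, x' c x'⁻¹, q • P₂, x')`. For the loop: `(P', B, C) → (B, ...)` with `B` unchanged (`HZ.pass_right` or `HZ.Pre.sublist`). needs: Bas -/
def St_Abs : Prop := ∀ {G : Type} [Group G] (A : List (Tok G)) (P M : List G) (γ : G),
  SLoop (A ++ P.map Tok.pt, M) γ → SLoop (A, P ++ M) γ

/-! ### universal words -/

/-- **Pol** (30 min). (1) `Good.comp_mul`, `comp_const`, `comp_id`, `Good.comp_inv`, `space_mono` by induction give `∀ F ∈ V1 e,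
(fun z => F (f z)) ∈ space e D`; then `comp_space`. (2) induction on `Pol` (`(f h)⁻¹ = h⁻¹ f⁻¹`). (3) - (7) from this, coordinatewise (`Fam G m` is a
group of functions; `Function.update v k z k' = z` or `v k'`). needs: nothing -/
def St_Pol : Prop := (∀ {G ι : Type} [Group G] (e : ι → G → ℂ), Good e → ∀ (D d : ℕ) (f : G → G),
    Pol D f → ∀ F ∈ space e d, (fun z => F (f z)) ∈ space e (D * d)) ∧
  (∀ {G : Type} [Group G] (D : ℕ) (f : G → G), Pol D f → Pol D fun z => (f z)⁻¹) ∧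
  ∀ {G : Type} [Group G] {m : ℕ},
    (∀ y : G, Deg (m := m) 0 fun _ => y) ∧
    (∀ k : Fin m × Bool, Deg (G := G) 1 fun v => v k) ∧
    (∀ (d e : ℕ) (W W' : Fam G m), Deg d W → Deg e W' → Deg (d + e) (W * W')) ∧
    (∀ (d : ℕ) (W : Fam G m), Deg d W → Deg d W⁻¹) ∧
    ∀ (d e : ℕ) (W : Fam G m), d ≤ e → Deg d W → Deg e W

/-- **One** (45 min). A pair `p, q` is pushed around a letter, in the group `Fam G m` of functions. Proof: `s ∈ ltrs T`
gives a splitting of `T` and `T'` with `Psh s (p * q) T T'` (`List.mem_flatMap`, `List.append_of_mem`). `Blk` (1) with `B = [p, q]`. Degrees: `s` at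
most `3 d`, `x = p q` at most `2 d`, `x'` at most `8 d`, entries of `t'` at most `17 d`, `x' x⁻¹` at most `10 d`, the entries behind at most `21 d`.
Evaluation: `Psh` is natural and `Mul` (1). needs: Mul, Blk, Pol -/
def St_One : Prop := ∀ {G : Type} [Group G] {m : ℕ} (d : ℕ) (T : List (Tok (Fam G m)))
  (p q : Fam G m) (Z : List (Fam G m)), DegT d T → Deg d p → Deg d q → ∀ s ∈ ltrs T,
  ∃ T' : List (Tok (Fam G m)), SReach (T, p :: q :: Z) (T', s * p * s⁻¹ :: s * q * s⁻¹ :: Z) ∧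
    DegT (21 * d) T' ∧ Deg (21 * d) (s * p * s⁻¹) ∧ Deg (21 * d) (s * q * s⁻¹) ∧
    ∀ v, p v * q v = 1 → T'.map (Tok.map (ev v)) = T.map (Tok.map (ev v))

/-- **Wrd** (1 h). A pair is pushed around a word `u` in the letters of the constant list `A`; `T` becomes `A` at
the pairs. Proof: induction on `u` from the right (`List.reverseRecOn`, or induction on the length): `u = u' ++ [s₀]`. `s₀ ∈ ltrs A` is a letter of a
certain kind of the element number `i` of `A`; `T` has the same length as `A` (evaluate at `prs 1`) and the element number `i` of `T` evaluates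
to that of `A`, so it is of the same kind (`pt` or `hd`) and its letter `s` of the same kind satisfies `s (prs y) = s₀` for all `y`.
`One` for `s`, then the induction hypothesis for `u'`. needs: One -/
def St_Wrd : Prop := ∀ {G : Type} [Group G] {m : ℕ} (u : List G) (d : ℕ) (A : List (Tok G))
  (T : List (Tok (Fam G m))) (p q : Fam G m) (Z : List (Fam G m)),
  (∀ s ∈ u, s ∈ ltrs A) → DegT d T → Deg d p → Deg d q →
  (∀ y : Fin m → G, T.map (Tok.map (ev (prs y))) = A ∧ p (prs y) * q (prs y) = 1) →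
  ∃ (T' : List (Tok (Fam G m))) (p' q' : Fam G m), SReach (T, p :: q :: Z) (T', p' :: q' :: Z) ∧
    DegT (21 ^ u.length * d) T' ∧ Deg (21 ^ u.length * d) p' ∧ Deg (21 ^ u.length * d) q' ∧
    ∀ y : Fin m → G, T'.map (Tok.map (ev (prs y))) = A ∧ p' (prs y) * q' (prs y) = 1 ∧
      p' (prs y) = u.prod * p (prs y) * u.prod⁻¹

/-- **Uni** (1.5 h). Universal words. `D = m * (5 * 21 ^ l) ^ m + m`. Proof: in the group `Fam G m` start with `T = ` the constants `A` (degree 0,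
so at most 1) and the list `M₀` of the coordinates `v (0, false), v (0, true), ...` (degree 1). Treat the pairs one after the other: for the first
pair of the list use `Wrd` (word `u i`), then move it to the end of the list unchanged (`(p, q, Z) → (β • Z, p, q)`, `β = p q`, `HZ.move_right` twice
or `HZ.pass`); the entries of `Z` get degree at most `5` times the old one and do not change at `prs y`. After `m` steps the list consists of the pairs
`(pᵢ, qᵢ)` in the order `0, ..., m - 1`, degrees at most `(5 * 21 ^ l) ^ m`, `pᵢ (prs y) = (u i).prod * y i * (u i).prod⁻¹`. (Formulate the induction for a list `is` of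
indices still to be treated and a list of pairs `done` with the corresponding values.) `W = ∏ pᵢ`. The list of the `pᵢ` is a sublist, so it can
be moved to the front (`HZ.Pre.sublist`): `SLoop` in `Fam G m`, and evaluation at `v` (`Bas` (3)) gives `SLoop (A, tupM v) (W v)`. needs: Bas, Pol, Wrd -/
def St_Uni : Prop := ∀ m l : ℕ, ∃ D : ℕ, ∀ {G : Type} [Group G] (A : List (Tok G))
  (u : Fin m → List G), (∀ i, (u i).length ≤ l) → (∀ i, ∀ s ∈ u i, s ∈ ltrs A) →
  ∃ W : Fam G m, Deg D W ∧ (∀ v, SLoop (A, tupM v) (W v)) ∧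
    ∀ y : Fin m → G, W (prs y) =
      ((List.finRange m).map fun i => (u i).prod * y i * ((u i).prod)⁻¹).prod

/-- **Core** (1.5 h). Copy of `HZ.core` (HZ/Core) or `GF.mcore` (GF/Core) with `M` for `T`; `hBreach : BReach M (P ++ R)`, robust list and
windows in `M`. The letters are `ltrs A ++ P = ltrs (A ++ P.map pt)`. In `short` the word is given by `Uni` (number `D` for `m, l`; no list of indices is
needed) for `A ++ P.map pt` and `u`: `Pol` (1) for the degrees; for `v k ∈ zs (grp k)` with sublists `S k` (`zs_sublist`) of product `v k`: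
`SLoop (A ++ P.map pt, tupM v) (W v)`, `Abs`, then `P ++ tupM v` is the list of the products of the blocks `[x]`, `x ∈ P`, and `S k`: `Blk` (3), and the flattened list is
a sublist of a list in the orbit of `M`: `Blk` (4) and `Bas` (1). Rest as there. needs: Bas, Blk, Abs, Pol, Uni -/
def St_Core : Prop := ∀ (B : ℕ → ℕ) (d0 : ℕ), ∃ N : ℕ, ∀ (G : Type) [Group G] (ι : Type) [Finite ι]
  (e : ι → G → ℂ), Good e → (∀ d, finrank ℂ (space e d) ≤ B d) → ∀ 𝓕 : Set (G → ℂ),
  (∀ F ∈ 𝓕, F ∈ space e d0) → ∀ (A : List (Tok G)) (M : List G),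
  (∀ γ, SLoop (A, M) γ → ∀ F ∈ 𝓕, F γ = 0) →
  ∃ P R : List G, BReach M (P ++ R) ∧ P.length ≤ N ∧
    ∀ x ∈ Subgroup.closure (cj (ltrs A ++ P) R), ∀ F ∈ 𝓕, F x = 0

/-! ### mapping classes -/

/-- **Grp** (30 min). Mapping classes and motions form groups; some maps. (`IsConj` is preserved by homomorphisms and transitive.)
`incl`, `pat`, `forget` on generators: `FreeGroup.ext_hom`. needs: nothing -/
def St_Grp : Prop := ∀ {g m n : ℕ},
  (∀ φ ψ : F g m n ≃* F g m n, IsMC φ → IsMC ψ → IsMC (ψ.trans φ)) ∧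
  (∀ φ : F g m n ≃* F g m n, IsMC φ → IsMC φ.symm) ∧ IsMC (MulEquiv.refl (F g m n)) ∧
  (∀ φ ψ : F g m n ≃* F g m n, IsMotion φ → IsMotion ψ → IsMotion (ψ.trans φ)) ∧
  (∀ φ : F g m n ≃* F g m n, IsMotion φ → IsMotion φ.symm) ∧
  IsMotion (MulEquiv.refl (F g m n)) ∧
  (∀ (k : ℕ) (s : Fin k → Fin n) (y : F g m k), forget (incl s y) = forget y) ∧
  (∀ (k : ℕ) (s : Fin n → Option (Fin k)) (y : F g m n), forget (pat s y) = forget y) ∧
  ∀ (k : ℕ) (s : Fin k → Fin n) (s' : Fin n → Option (Fin k)), (∀ j, s' (s j) = some j) →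
    ∀ y : F g m k, pat s' (incl s y) = y

/-- **Aut** (1.5 h). The elementary moves are automorphisms. Proof: allow in addition the inverse moves. For braid moves they are there
(`HZ.BMove.symm`). The inverse of a push is given by a formula: from `(A', x')` one gets back, at the same place and for the same kind of letter,
`pt c'`: `c = x'⁻¹ c' x'`, `s = c`; `ha`, `hd a b'`: `b = x'⁻¹ b'`, `s = b a⁻¹ b⁻¹`; `hb`, `hd a' b'`: `b = x'⁻¹ b' x'`, `s = b⁻¹`, `a = a' x'`; always `x = s⁻¹ x' s` and `A₂ = (x x'⁻¹) • A₂'`.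
So the extended relation `SMove'` (`SMove X Y` or `SMove Y X`) is symmetric and can be lifted along homomorphisms like `Bas` (4). Every `Y` with `SMove' (std) Y` is
`mapS ψ (std)` for a homomorphism `ψ` (same number of punctures and handles). Lifting `SMove' (mapS ψ std) std` along `ψ` gives `ψ₁` with `mapS (ψ ψ₁) std = std`, so `ψ ψ₁ = 1` (the entries
of `std` are the generators); in the same way `ψ₁ ψ₂ = 1`, so `ψ₂ = ψ`. needs: nothing -/
def St_Aut : Prop := ∀ {g m n : ℕ} (Y : List (Tok (F g m n)) × List (F g m n)),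
  SMove (std g m n) Y → ∃ φ : F g m n ≃* F g m n, mapS φ (std g m n) = Y

/-- **Cls** (45 min). Invariants of the moves. Proof: induction on `SReach`. (1) braid moves conjugate and exchange; a push conjugates. (2) `pt` is conjugated by
`x'` or by `x' x⁻¹`, a handle remains a handle. (3) if `f` kills the entries of `X.2` then it kills `x`, `x'`. needs: nothing -/
def St_Cls : Prop := ∀ {G : Type} [Group G] (X Y : List (Tok G) × List G), SReach X Y →
  (Y.2.map ConjClasses.mk).Perm (X.2.map ConjClasses.mk) ∧ Y.1.map Tok.cls = X.1.map Tok.cls ∧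
  ∀ {H : Type} [Group H] (f : G →* H), (∀ x ∈ X.2, f x = 1) →
    (∀ x ∈ Y.2, f x = 1) ∧ Y.1.map (Tok.map f) = X.1.map (Tok.map f)

/-- **Snd** (1 h). States in the orbit are given by motions. Proof: induction on `SReach` with `Bas` (4) and `Aut` (a move of `mapS φ std` is lifted along `φ` to a move of
`std`, this is `mapS ψ std`, so the new state is `mapS (φ ψ) std`). Then for the total `φ`: boundary: `Bas` (5) and `bd (std g m n) = bdry g m n`;
classes: `Cls` (1) gives a permutation (`List.Perm` of two lists given by functions on `Fin n`: e.g. `List.ofFn`, `Equiv.Perm`, or count); `Cls` (2) for the `c i`; `Cls` (3) for `f = forget`: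
`forget (φ y) = forget y` on the generators. needs: Bas, Aut, Cls -/
def St_Snd : Prop := ∀ {g m n : ℕ} (X : List (Tok (F g m n)) × List (F g m n)),
  SReach (std g m n) X → ∃ φ : F g m n ≃* F g m n, IsMotion φ ∧ mapS φ (std g m n) = X

/-- **Main** (1 h). Copy of `GF.thm_Main` (GF/Main): `Core` for `A = (stA g m n).map (Tok.map ρ)`, `M = (stM g m n).map ρ`; a moving loop of this state is the image of a
moving loop of `std g m n` (`Bas` (4)), which is a moving loop by `Snd` (`B ++ C` is `φ` of the list of the `x_i`, so `B` is `φ` of the first `B.length` of them). The letters and `P ++ R` generate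
`ρ.range`. Number of the `i` with `ρ (gx i) ∉ H`: `HZ.count_reach`. needs: Bas, Snd, Core -/
def St_Main : Prop := ∀ r : ℕ, ∃ N : ℕ, ∀ (g m n : ℕ) (ρ : F g m n →* GL (Fin r) ℂ), HypQ ρ →
  ∃ (S : Finset (Fin n)) (H : Subgroup (GL (Fin r) ℂ)), S.card ≤ N ∧
    H ≤ ρ.range ∧ (∀ γ ∈ ρ.range, ∀ h ∈ H, γ * h * γ⁻¹ ∈ H) ∧
    (∀ i ∉ S, ρ (gx i) ∈ H) ∧ ∀ h ∈ H, Quasi h

/-- **Kap** (45 min). Given punctures can be moved to the front. Proof: the list of the `x_(s j)`, `j < k`, is a sublist of `stM`, so `HZ.Pre.sublist` and `Bas` (1) give a state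
`(stA, list ++ C)`; `Snd`. needs: Bas, Snd -/
def St_Kap : Prop := ∀ {g m k n : ℕ} (h : k ≤ n) (s : Fin k → Fin n), StrictMono s →
  ∃ κ : F g m n ≃* F g m n, IsMotion κ ∧ ∀ y : F g m k, κ (incl (fst h) y) = incl s y

/-- **Ext** (45 min). Mapping classes of the subsurface with the first `k` moving punctures extend by the identity on the others. Proof: `φ'` is `incl (fst h) ∘ φ` on the
`a, b, c` and the first `k` of the `x`, identity on the others; its inverse is given by `φ.symm`. `bdry g m n = incl (fst h) (bdry g m k) * ∏_{i ≥ k} x_i`. needs: nothing -/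
def St_Ext : Prop := ∀ {g m k n : ℕ} (h : k ≤ n) (φ : F g m k ≃* F g m k), IsMC φ →
  ∃ φ' : F g m n ≃* F g m n, IsMC φ' ∧ (∀ y, φ' (incl (fst h) y) = incl (fst h) (φ y)) ∧
    ∀ q : F g m 0 ≃* F g m 0, (∀ y, forget (φ y) = q (forget y)) →
      ∀ y, forget (φ' y) = q (forget y)

/-- **D1** (30 min). Restriction to the subsurface. Proof: for a mapping class `φ` of the subsurface take `φ'` from `Ext` (`k = S.card`) and `κ` from `Kap` (`s = S.orderEmbOfFin rfl`): `ρ (κ (φ' (incl (fst h) y))) = ρ (κ (incl (fst h) (φ y))) = ρ (inc S (φ y))`, so the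
character of `(ρ.comp (inc S)) ∘ φ` is that of `ρ ∘ (κ φ')` composed with `incl (fst h)`. needs: Grp, Kap, Ext -/
def St_D1 : Prop := ∀ (r g m n : ℕ) (Q : Set (F g m 0 ≃* F g m 0)) (ρ : F g m n →* GL (Fin r) ℂ)
  (S : Finset (Fin n)), FinOrb Q ρ → FinOrb Q (ρ.comp (inc S))

/-- **Pat** (1.5 h). Modulo the kernel of `f` every mapping class comes from the subsurface. Proof: `φ (gx i)` is conjugate to `gx (σ i)`; let `T = σ⁻¹ S`, `T.card = S.card`, `t = T.orderEmbOfFin _`. `Kap` for `S` and for `t` gives a motion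
`κ = κ_S κ_T⁻¹` with `κ (incl t y) = inc S y`; `κ (gx i)` is conjugate to `gx (τ' i)` with `τ' (t j)` the element number `j` of `S` (conjugate generators of a free group are equal: homomorphism to `ℤ`), so `τ' T = S`. `δ = κ⁻¹ φ` is a mapping class, `δ (gx i)` is conjugate to
`gx (τ i)`, `τ = τ'⁻¹ σ` maps `T` to `T`. So `δ` and `δ⁻¹` map `KK T` into itself, and `f₀ = f κ` kills `KK T`. Let `s i = some j` if `t j = i`, else `none`; `y` and `incl t (pat s y)` are congruent modulo `KK T`, and `pat s` kills `KK T`.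
`φ' = pat s ∘ δ ∘ incl t` is an automorphism of `F g m S.card` with the inverse `pat s ∘ δ⁻¹ ∘ incl t`. It is a mapping class (`pat s (bdry g m n) = bdry g m S.card`) which induces `q` (`Grp`). `f (φ w) = f₀ (δ w) = f₀ (δ (incl t (pat s w))) = f₀ (incl t (φ' (pat s w))) = f (inc S (φ' (pat s w)))`. needs: Grp, Kap -/
def St_Pat : Prop := ∀ {g m n : ℕ} {Q : Type} [Group Q] (f : F g m n →* Q) (S : Finset (Fin n)),
  (∀ i ∉ S, f (gx i) = 1) → ∀ (φ : F g m n ≃* F g m n) (q : F g m 0 ≃* F g m 0), IsMC φ →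
  (∀ y, forget (φ y) = q (forget y)) →
  ∃ φ' : F g m S.card ≃* F g m S.card, IsMC φ' ∧ (∀ y, forget (φ' y) = q (forget y)) ∧
    ∃ s : Fin n → Option (Fin S.card), ∀ w, f (φ w) = f (inc S (φ' (pat s w)))

/-- **Trp** (30 min). Facts on free groups transported to `F g m n` (a bijection of `Gen g m n` with some `Fin N`). (1) `HZ.exists_words` (HZ/RedC), (2) `HZ.exists_cred` (HZ/RedS), (3) `HZ.range_fg`. needs: nothing -/
def St_Trp : Prop := ∀ (r g m n : ℕ), (∃ s : Finset (F g m n), ∀ ρ₁ ρ₂ : F g m n →* GL (Fin r) ℂ,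
    (∀ x ∈ s, (ρ₁ x : Matrix (Fin r) (Fin r) ℂ).trace = (ρ₂ x : Matrix (Fin r) (Fin r) ℂ).trace) →
    ∀ x, (ρ₁ x : Matrix (Fin r) (Fin r) ℂ).trace = (ρ₂ x : Matrix (Fin r) (Fin r) ℂ).trace) ∧
  (∀ ρ : F g m n →* GL (Fin r) ℂ, ∃ ρ' : F g m n →* GL (Fin r) ℂ, CRed ρ'.range ∧
    ∀ x, (ρ' x : Matrix (Fin r) (Fin r) ℂ).trace = (ρ x : Matrix (Fin r) (Fin r) ℂ).trace) ∧
  ∀ ρ : F g m n →* GL (Fin r) ℂ, (ρ.range).FG

/-- **D2** (45 min). Copy of `GF.thm_D2` (GF/D2) with `Pat` in the place of `D2pattern` and `Trp` (1) for `exists_words`. needs: Pat, Trp -/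
def St_D2 : Prop := ∀ (r g m n : ℕ) (Q : Set (F g m 0 ≃* F g m 0)) (ρ : F g m n →* GL (Fin r) ℂ)
  (S : Finset (Fin n)) (H : Subgroup (GL (Fin r) ℂ)) [Finite H],
  (∀ γ ∈ ρ.range, ∀ h ∈ H, γ * h * γ⁻¹ ∈ H) → (∀ i ∉ S, ρ (gx i) ∈ H) →
  FinOrb Q (ρ.comp (inc S)) → FinOrb Q ρ

/-- **Lp** (30 min). Moving loops of the subsurface are moving loops. Proof: `γ = φ (x_1 ... x_k)`, `φ` a motion; `φ'` from `Ext` (with `q = 1`, so `φ'` is a motion; `forget` of `incl`: `Grp`), `κ` from `Kap`: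
`inc S γ = κ (incl (fst h) γ) = κ (φ' (incl (fst h) (x_1 ... x_k)))`. needs: Grp, Kap, Ext -/
def St_Lp : Prop := ∀ {g m n : ℕ} (S : Finset (Fin n)) (γ : F g m S.card),
  IsMovingLoop γ → IsMovingLoop (inc S γ)

/-- **Red** (45 min). Copy of `GF.thm_Red` (GF/Red), simpler: `Main` for the completely reducible `ρ'` with the same traces (`Trp` (2)) gives `S`, `H`; for `S' ⊇ S` use `D1` and `D2`. Last part: first part and `Lp`. needs: Main, D1, D2, Lp, Trp -/
def St_Red : Prop := ∀ r : ℕ, ∃ N : ℕ,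
  (∀ (g m n : ℕ) (ρ : F g m n →* GL (Fin r) ℂ), HypQ ρ →
    ∃ S : Finset (Fin n), S.card ≤ N ∧ (∀ x ∈ KK S, Quasi (ρ x)) ∧
      (CRed ρ.range → Finite ((KK S).map ρ)) ∧
      ∀ S' : Finset (Fin n), S ⊆ S' → ∀ Q : Set (F g m 0 ≃* F g m 0),
        FinOrb Q ρ ↔ FinOrb Q (ρ.comp (inc S'))) ∧
  ∀ (g m : ℕ) (Q : Set (F g m 0 ≃* F g m 0)),
    (∀ n ≤ N, ∀ ρ : F g m n →* GL (Fin r) ℂ, HypQ ρ → FinOrb Q ρ) →
    ∀ (n : ℕ) (ρ : F g m n →* GL (Fin r) ℂ), HypQ ρ → FinOrb Q ρ

/-- **Clf** (1.5 h). Copy of `GF.thm_Clf` (GF/Clf). Instead of `clf_of_finite` use `HZ.clifford2` (HZ/ClfH; see the proof of `HZ.clf_of_finite` in HZ/ClfI) for `p : F g m n →* F g m S.card`, `p = pat s` with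
`s i = some j` if `i` is the element number `j` of `S`, else `none`; its kernel is `KK S`. needs: Main, Trp -/
def St_Clf : Prop := ∀ r : ℕ, 0 < r → ∃ N : ℕ, ∀ (g m n : ℕ)
    (ρ : F g m n →* GL (Fin r) ℂ), HypQ ρ → Irr ρ.range →
    ((N < Nat.card {i : Fin n | ∃ z : ℂ, (finrank ℂ (Module.End.eigenspace
        (Matrix.mulVecLin (ρ (gx i) : Matrix (Fin r) (Fin r) ℂ)) z)).Coprime r} ∨
      (r.Prime ∧ N < Nat.card {i : Fin n | ∀ z : ℂ,
        (ρ (gx i) : Matrix (Fin r) (Fin r) ℂ) ≠ z • 1})) → VirtAb ρ.range) ∧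
    ∃ (S : Finset (Fin n)) (H : Subgroup (F g m n)) (d e : ℕ) (α : H →* GL (Fin d) ℂ)
      (β : H →* GL (Fin e) ℂ),
      S.card ≤ N ∧ IndTensor ρ H β α ∧ Finite α.range ∧
      KK S ≤ β.ker.map H.subtype ∧
      (∀ (h : H) (y γ : F g m n) (k : ℕ), IsMovingLoop γ →
        (h : F g m n) = y * γ ^ k * y⁻¹ → Quasi (β h)) ∧
      (∀ i ∉ S, ∀ z : ℂ, e ∣ finrank ℂ (Module.End.eigenspace
        (Matrix.mulVecLin (ρ (gx i) : Matrix (Fin r) (Fin r) ℂ)) z)) ∧
      (N < Nat.card {i : Fin n | ∀ z : ℂ,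
        (ρ (gx i) : Matrix (Fin r) (Fin r) ℂ) ≠ z • 1} → 2 * e ≤ r)

/-- **Mrg** (20 min). The theorem: `S = S₁ ∪ S₂`, `S₁` from `Red`, `S₂` from `Clf` (compare `GF.thm_Mrg` in GF/Mrg). needs: Red, Clf -/
def St_Mrg : Prop := ∀ r : ℕ, 0 < r → ∃ N : ℕ,
  (∀ (g m n : ℕ) (ρ : F g m n →* GL (Fin r) ℂ), (∀ γ, IsMovingLoop γ → Quasi (ρ γ)) →
    ∃ S : Finset (Fin n), S.card ≤ N ∧
      (∀ x ∈ Subgroup.normalClosure {y | ∃ i ∉ S, y = gx i}, Quasi (ρ x)) ∧
      (CRed ρ.range → Finite ((Subgroup.normalClosure {y | ∃ i ∉ S, y = gx i}).map ρ)) ∧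
      (∀ Q : Set (F g m 0 ≃* F g m 0), FinOrb Q ρ ↔ FinOrb Q (ρ.comp (inc S))) ∧
      (Irr ρ.range → ∃ (H : Subgroup (F g m n)) (d e : ℕ) (α : H →* GL (Fin d) ℂ)
        (β : H →* GL (Fin e) ℂ), IndTensor ρ H β α ∧ Finite α.range ∧
        Subgroup.normalClosure {y | ∃ i ∉ S, y = gx i} ≤ β.ker.map H.subtype ∧
        (∀ (h : H) (y γ : F g m n) (k : ℕ), IsMovingLoop γ →
          (h : F g m n) = y * γ ^ k * y⁻¹ → Quasi (β h)) ∧
        (∀ i ∉ S, ∀ z : ℂ, e ∣ finrank ℂ (Module.End.eigenspace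
          (Matrix.mulVecLin (ρ (gx i) : Matrix (Fin r) (Fin r) ℂ)) z)) ∧
        (N < Nat.card {i : Fin n | ∀ z : ℂ,
          (ρ (gx i) : Matrix (Fin r) (Fin r) ℂ) ≠ z • 1} → 2 * e ≤ r))) ∧
  (∀ (g m n : ℕ) (ρ : F g m n →* GL (Fin r) ℂ), (∀ γ, IsMovingLoop γ → Quasi (ρ γ)) →
    Irr ρ.range →
    (N < Nat.card {i : Fin n | ∃ z : ℂ, (finrank ℂ (Module.End.eigenspace
        (Matrix.mulVecLin (ρ (gx i) : Matrix (Fin r) (Fin r) ℂ)) z)).Coprime r} ∨
      (r.Prime ∧ N < Nat.card {i : Fin n | ∀ z : ℂ,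
        (ρ (gx i) : Matrix (Fin r) (Fin r) ℂ) ≠ z • 1})) → VirtAb ρ.range) ∧
  ∀ (g m : ℕ) (Q : Set (F g m 0 ≃* F g m 0)),
    (∀ n ≤ N, ∀ ρ : F g m n →* GL (Fin r) ℂ,
      (∀ γ, IsMovingLoop γ → Quasi (ρ γ)) → FinOrb Q ρ) →
    ∀ (n : ℕ) (ρ : F g m n →* GL (Fin r) ℂ),
      (∀ γ, IsMovingLoop γ → Quasi (ρ γ)) → FinOrb Q ρ

end Pool.Agent.SGF
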