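import Pool.Agent.HZ.StmI

/-!
# Local systems on surfaces of arbitrary genus with fixed and moving punctures: definitions

`S` is the compact oriented surface of genus `g` with one boundary curve, without `m` fixed and `n`
moving points.  Its fundamental group is free on `a_j, b_j` (the handles), `c_i` (the fixed punctures)
and `x_i` (the moving punctures); the boundary curve is `∏ [a_j, b_j] ∏ c_i ∏ x_i`.
-/

set_option autoImplicit false

namespace Pool.Agent.SGF

open Matrix Pool.Agent.HZ

/-- The generators of the fundamental group: `a j`, `b j` for the handles, `c i` for the fixed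
punctures, `x i` for the moving punctures. -/
inductive Gen (g m n : ℕ) : Type
  | a (j : Fin g) : Gen g m n
  | b (j : Fin g) : Gen g m n
  | c (i : Fin m) : Gen g m n
  | x (i : Fin n) : Gen g m n

/-- the fundamental group of the surface of genus `g` with one boundary curve without `m` fixed and
`n` moving points -/
abbrev F (g m n : ℕ) : Type := FreeGroup (Gen g m n)

/-- the generators of the handles -/
def ga {g m n : ℕ} (j : Fin g) : F g m n := FreeGroup.of (Gen.a j)

/-- the generators of the handles -/
def gb {g m n : ℕ} (j : Fin g) : F g m n := FreeGroup.of (Gen.b j)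

/-- the loops around the fixed punctures -/
def gc {g m n : ℕ} (i : Fin m) : F g m n := FreeGroup.of (Gen.c i)

/-- the loops around the moving punctures -/
def gx {g m n : ℕ} (i : Fin n) : F g m n := FreeGroup.of (Gen.x i)

/-- the boundary curve -/
def bdry (g m n : ℕ) : F g m n :=
  ((List.finRange g).map fun j => ga j * gb j * (ga j)⁻¹ * (gb j)⁻¹).prod *
    ((List.finRange m).map gc).prod * ((List.finRange n).map gx).prod

/-- Mapping classes: automorphisms of the fundamental group which fix the boundary curve and the
conjugacy classes of the loops around the fixed punctures, and permute the conjugacy classes of the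
loops around the moving punctures. -/
structure IsMC {g m n : ℕ} (φ : F g m n ≃* F g m n) : Prop where
  bd : φ (bdry g m n) = bdry g m n
  fix : ∀ i : Fin m, IsConj (φ (gc i)) (gc i)
  mov : ∃ σ : Equiv.Perm (Fin n), ∀ i : Fin n, IsConj (φ (gx i)) (gx (σ i))

/-- the moving punctures are filled in -/
def forget {g m n : ℕ} : F g m n →* F g m 0 :=
  FreeGroup.lift fun
    | Gen.a j => ga j
    | Gen.b j => gb j
    | Gen.c i => gc i
    | Gen.x _ => 1

/-- Mapping classes given by motions of the moving points on the surface without the fixed points. -/
def IsMotion {g m n : ℕ} (φ : F g m n ≃* F g m n) : Prop := IsMC φ ∧ ∀ y, forget (φ y) = forget y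

/-- Moving loops: the simple closed curves around discs which contain moving punctures only, that
is the images of the curves `x_1 ... x_k` under the motions. -/
def IsMovingLoop {g m n : ℕ} (γ : F g m n) : Prop :=
  ∃ φ : F g m n ≃* F g m n, IsMotion φ ∧ ∃ k : ℕ, γ = φ (((List.finRange n).take k).map gx).prod

/-- the homomorphism given by a map of the moving punctures -/
def incl {g m k n : ℕ} (s : Fin k → Fin n) : F g m k →* F g m n :=
  FreeGroup.lift fun
    | Gen.a j => ga j
    | Gen.b j => gb j
    | Gen.c i => gc i
    | Gen.x i => gx (s i)

/-- the inclusion of the subsurface which contains the moving punctures in `S` only: the `x_i`,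
`i ∈ S`, in increasing order -/
def inc {g m n : ℕ} (S : Finset (Fin n)) : F g m S.card →* F g m n := incl (S.orderEmbOfFin rfl)

variable {r : ℕ}

/-- The orbit of the character of `ρ` under the mapping classes which induce an element of `Q` on
the surface with the moving punctures filled in is finite.  For `Q = 1` these are the motions of the
moving points, if `Q` is everything then they are all mapping classes. -/
def FinOrb {g m n : ℕ} (Q : Set (F g m 0 ≃* F g m 0)) (ρ : F g m n →* GL (Fin r) ℂ) : Prop :=
  {χ : F g m n → ℂ | ∃ φ : F g m n ≃* F g m n, IsMC φ ∧
    (∃ q ∈ Q, ∀ y, forget (φ y) = q (forget y)) ∧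
    χ = fun γ => (ρ (φ γ) : Matrix (Fin r) (Fin r) ℂ).trace}.Finite

end Pool.Agent.SGF
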