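import Pool.Agent.SGF.St
import Pool.Agent.HZ.RedC
import Pool.Agent.HZ.RedS

/-!
# Module Trp: facts on free groups transported to the fundamental group of the surface
-/

set_option autoImplicit false

namespace Pool.Agent.SGF

open Matrix Module Pool.Agent.HZ

private theorem Trp_fin (g m n : ℕ) : Finite (Gen g m n) := by
  let f : (Fin g ⊕ Fin g) ⊕ (Fin m ⊕ Fin n) → Gen g m n := fun
    | Sum.inl (Sum.inl j) => Gen.a j
    | Sum.inl (Sum.inr j) => Gen.b j
    | Sum.inr (Sum.inl i) => Gen.c i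
    | Sum.inr (Sum.inr i) => Gen.x i
  refine Finite.of_surjective f ?_
  rintro (j | j | i | i)
  · exact ⟨Sum.inl (Sum.inl j), rfl⟩
  · exact ⟨Sum.inl (Sum.inr j), rfl⟩
  · exact ⟨Sum.inr (Sum.inl i), rfl⟩
  · exact ⟨Sum.inr (Sum.inr i), rfl⟩

theorem thm_Trp : St_Trp := by
  classical
  intro r g m n
  have hfin : Finite (Gen g m n) := Trp_fin g m n
  refine ⟨?_, fun ρ => exists_cred ρ, ?_⟩
  · obtain ⟨N, ⟨e⟩⟩ : ∃ N : ℕ, Nonempty (Gen g m n ≃ Fin N) := ⟨_, ⟨Finite.equivFin _⟩⟩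
    let E : F g m n ≃* FreeGroup (Fin N) := FreeGroup.freeGroupCongr e
    obtain ⟨s, hs⟩ := exists_words r N
    refine ⟨s.image E.symm, ?_⟩
    intro ρ₁ ρ₂ h x
    have h1 := hs (ρ₁.comp (E.symm : FreeGroup (Fin N) →* F g m n))
      (ρ₂.comp (E.symm : FreeGroup (Fin N) →* F g m n))
      (fun y hy => h (E.symm y) (Finset.mem_image_of_mem _ hy)) (E x)
    simpa using h1
  · intro ρ
    rw [← Group.fg_iff_subgroup_fg]
    exact Group.fg_range ρ

end Pool.Agent.SGF
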